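import Mathlib

/-! Erdős's theorem on complete `r`-partite subhypergraphs, with a power saving. -/

set_option autoImplicit false

namespace Pool.Agent.X28.NT

open Finset

/-- the bipartite step -/
theorem pairL {α : Type*} (K : ℕ) (hK : 1 ≤ K) (X : Finset α) (V : Finset ℕ) (E : α → ℕ → Prop)
    [∀ x, DecidablePred (E x)] (δ : ℝ) (hδ : 0 < δ) (hδ1 : δ ≤ 1) (hn : 2 * (K : ℝ) ≤ δ * V.card)
    (hE : δ * (X.card * V.card) ≤ ∑ x ∈ X, ((V.filter (E x)).card : ℝ)) :
    ∃ S ⊆ V, S.card = K ∧ (δ / 2) ^ K * X.card ≤ ((X.filter (fun x => ∀ v ∈ S, E x v)).card : ℝ) := by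
  obtain ⟨n, hnV⟩ : ∃ n : ℕ, n = V.card := ⟨_, rfl⟩
  rw [← hnV] at hn hE
  have hK1 : (1 : ℝ) ≤ K := by exact_mod_cast hK
  have hn1 : (n : ℝ) ≥ 0 := Nat.cast_nonneg _
  have hKn : K ≤ n := by
    have : (K : ℝ) ≤ n := by nlinarith
    exact_mod_cast this
  by_contra hcon
  push Not at hcon
  have hcon' : ∀ S ∈ powersetCard K V,
      ((X.filter (fun x => ∀ v ∈ S, E x v)).card : ℝ) < (δ / 2) ^ K * X.card := by
    intro S hS
    rw [mem_powersetCard] at hS
    exact hcon S hS.1 hS.2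
  have hne : (powersetCard K V).Nonempty := by
    rw [powersetCard_nonempty]
    omega
  have hXpos : (0 : ℝ) < X.card := by
    obtain ⟨S, hS⟩ := hne
    have h1 := hcon' S hS
    have h2 : (0 : ℝ) ≤ ((X.filter (fun x => ∀ v ∈ S, E x v)).card : ℝ) := Nat.cast_nonneg _
    have h3 : (0 : ℝ) ≤ X.card := Nat.cast_nonneg _
    rcases h3.lt_or_eq with h4 | h4
    · exact h4
    · rw [← h4, mul_zero] at h1
      linarith
  have hsum := sum_lt_sum_of_nonempty hne hcon'
  rw [sum_const, card_powersetCard, nsmul_eq_mul, ← hnV] at hsum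
  have hdc : ∑ S ∈ powersetCard K V, ((X.filter (fun x => ∀ v ∈ S, E x v)).card : ℝ) =
      ∑ x ∈ X, (((V.filter (E x)).card.choose K : ℕ) : ℝ) := by
    have h1 : ∀ S ∈ powersetCard K V, ((X.filter (fun x => ∀ v ∈ S, E x v)).card : ℝ) =
        ∑ x ∈ X, if ∀ v ∈ S, E x v then (1 : ℝ) else 0 := by
      intro S _
      rw [card_filter]
      push_cast
      rfl
    rw [sum_congr rfl h1, sum_comm]
    apply sum_congr rfl
    intro x _
    rw [← card_powersetCard, ← sum_filter, sum_const, nsmul_eq_mul, mul_one]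
    congr 2
    ext S
    simp only [mem_filter, mem_powersetCard]
    constructor
    · rintro ⟨⟨h1, h2⟩, h3⟩
      exact ⟨fun v hv => mem_filter.2 ⟨h1 hv, h3 v hv⟩, h2⟩
    · rintro ⟨h1, h2⟩
      exact ⟨⟨fun v hv => (mem_filter.1 (h1 hv)).1, h2⟩, fun v hv => (mem_filter.1 (h1 hv)).2⟩
  rw [hdc] at hsum
  -- multiply by `K!`
  have hfac : (0 : ℝ) < K.factorial := by exact_mod_cast Nat.factorial_pos K
  have hup : (K.factorial : ℝ) * ∑ x ∈ X, (((V.filter (E x)).card.choose K : ℕ) : ℝ) <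
      (n : ℝ) ^ K * ((δ / 2) ^ K * X.card) := by
    have h1 : (K.factorial : ℝ) * (n.choose K : ℝ) ≤ (n : ℝ) ^ K := by
      have := Nat.descFactorial_le_pow n K
      rw [Nat.descFactorial_eq_factorial_mul_choose] at this
      exact_mod_cast this
    have h2 : (0 : ℝ) ≤ (δ / 2) ^ K * X.card := by positivity
    calc (K.factorial : ℝ) * ∑ x ∈ X, (((V.filter (E x)).card.choose K : ℕ) : ℝ)
        < K.factorial * ((n.choose K : ℝ) * ((δ / 2) ^ K * X.card)) :=
          mul_lt_mul_of_pos_left hsum hfac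
      _ = (K.factorial * (n.choose K : ℝ)) * ((δ / 2) ^ K * X.card) := by ring
      _ ≤ _ := mul_le_mul_of_nonneg_right h1 h2
  obtain ⟨h, hh⟩ : ∃ h : α → ℝ, h = fun x => (((V.filter (E x)).card + 1 - K : ℕ) : ℝ) := ⟨_, rfl⟩
  have hh0 : ∀ x, 0 ≤ h x := fun x => by rw [hh]; positivity
  have hlow : ∑ x ∈ X, h x ^ K ≤
      (K.factorial : ℝ) * ∑ x ∈ X, (((V.filter (E x)).card.choose K : ℕ) : ℝ) := by
    rw [mul_sum]
    apply sum_le_sum
    intro x _
    rw [hh]
    have := Nat.pow_sub_le_descFactorial (V.filter (E x)).card K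
    rw [Nat.descFactorial_eq_factorial_mul_choose] at this
    show (((V.filter (E x)).card + 1 - K : ℕ) : ℝ) ^ K ≤
      (K.factorial : ℝ) * (((V.filter (E x)).card.choose K : ℕ) : ℝ)
    exact_mod_cast this
  have hhs : δ / 2 * (X.card * n) ≤ ∑ x ∈ X, h x := by
    have h1 : ∑ x ∈ X, (((V.filter (E x)).card : ℝ) - K) ≤ ∑ x ∈ X, h x := by
      apply sum_le_sum
      intro x _
      rw [hh]
      have : (V.filter (E x)).card ≤ ((V.filter (E x)).card + 1 - K) + K := by omega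
      have h2 : ((V.filter (E x)).card : ℝ) ≤
          (((V.filter (E x)).card + 1 - K : ℕ) : ℝ) + K := by exact_mod_cast this
      show ((V.filter (E x)).card : ℝ) - K ≤ (((V.filter (E x)).card + 1 - K : ℕ) : ℝ)
      linarith
    rw [sum_sub_distrib, sum_const, nsmul_eq_mul] at h1
    nlinarith
  obtain ⟨k, rfl⟩ : ∃ k : ℕ, K = k + 1 := ⟨K - 1, by omega⟩
  have hpm := pow_sum_div_card_le_sum_pow (s := X) (f := h) (fun x _ => hh0 x) k
  have h5 : (δ / 2 * (X.card * n)) ^ (k + 1) ≤ (∑ x ∈ X, h x) ^ (k + 1) :=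
    pow_le_pow_left₀ (by positivity) hhs _
  have h6 : (δ / 2 * (X.card * n)) ^ (k + 1) / (X.card : ℝ) ^ k =
      (n : ℝ) ^ (k + 1) * ((δ / 2) ^ (k + 1) * X.card) := by
    rw [div_eq_iff (by positivity)]
    ring
  have h7 : (δ / 2 * (X.card * n)) ^ (k + 1) / (X.card : ℝ) ^ k ≤
      (∑ x ∈ X, h x) ^ (k + 1) / (X.card : ℝ) ^ k :=
    div_le_div_of_nonneg_right h5 (by positivity)
  rw [h6] at h7
  linarith

/-- the iterated density -/
noncomputable def dd (K : ℕ) : ℕ → ℝ → ℝ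
  | 0, δ => δ
  | (r + 1), δ => dd K r ((δ / 2) ^ K)

theorem dd_le (K : ℕ) (hK : 1 ≤ K) (r : ℕ) : ∀ δ : ℝ, 0 < δ → δ ≤ 1 → dd K r δ ≤ δ := by
  induction r with
  | zero => intro δ _ _; exact le_rfl
  | succ r ih =>
    intro δ h0 h1
    have h2 : (δ / 2) ^ K ≤ δ := by
      have h3 : (δ / 2) ^ K ≤ (δ / 2) ^ 1 := pow_le_pow_of_le_one (by positivity) (by linarith) hK
      rw [pow_one] at h3
      linarith
    exact (ih _ (by positivity) (h2.trans h1)).trans h2

theorem le_dd (K : ℕ) (hK : 2 ≤ K) (r : ℕ) : ∀ δ : ℝ, 0 < δ → (δ / 4) ^ (K ^ r) ≤ dd K r δ := by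
  induction r with
  | zero => intro δ h; rw [pow_zero, pow_one]; show δ / 4 ≤ δ; linarith
  | succ r ih =>
    intro δ h0
    show (δ / 4) ^ (K ^ (r + 1)) ≤ dd K r ((δ / 2) ^ K)
    refine le_trans ?_ (ih _ (by positivity))
    rw [pow_succ, mul_comm (K ^ r) K, pow_mul]
    apply pow_le_pow_left₀ (by positivity)
    have h1 : (δ / 4) ^ K = (δ / 2) ^ K * (1 / 2) ^ K := by
      rw [← mul_pow]; congr 1; ring
    have h2 : (1 / 2 : ℝ) ^ K ≤ (1 / 2) ^ 2 := pow_le_pow_of_le_one (by norm_num) (by norm_num) hK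
    rw [h1]
    have h3 : 0 < (δ / 2) ^ K := by positivity
    nlinarith

open Classical in
theorem box (K : ℕ) (hK : 1 ≤ K) (r : ℕ) : ∀ (δ : ℝ) (V : Finset ℕ), 0 < δ → δ ≤ 1 →
    2 * (K : ℝ) ≤ dd K r δ * V.card → ∀ E : Finset (Fin (r + 1) → ℕ),
    E ⊆ Fintype.piFinset (fun _ => V) → δ * (V.card : ℝ) ^ (r + 1) ≤ E.card →
    ∃ A : Fin (r + 1) → Finset ℕ, (∀ i, A i ⊆ V ∧ (A i).card = K) ∧ Fintype.piFinset A ⊆ E := by
  induction r with
  | zero =>
    intro δ V hδ hδ1 hn E hEV hE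
    have h1 : (E.image (fun f => f 0)).card = E.card := by
      apply card_image_of_injOn
      intro f _ g _ hfg
      funext i
      have hi : i = 0 := Fin.ext (by omega)
      rw [hi]
      exact hfg
    have h2 : K ≤ (E.image (fun f => f 0)).card := by
      rw [h1]
      have h3 : (2 * (K : ℝ)) ≤ E.card := by
        have : dd K 0 δ = δ := rfl
        rw [this] at hn
        have hE' : δ * (V.card : ℝ) ≤ E.card := by simpa using hE
        linarith
      have h4 : (K : ℝ) ≤ E.card := by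
        have : (0 : ℝ) ≤ K := Nat.cast_nonneg _
        linarith
      exact_mod_cast h4
    obtain ⟨S, hS, hSc⟩ := exists_subset_card_eq h2
    refine ⟨fun _ => S, fun i => ⟨?_, hSc⟩, ?_⟩
    · intro v hv
      obtain ⟨f, hf, rfl⟩ := mem_image.1 (hS hv)
      exact (Fintype.mem_piFinset.1 (hEV hf)) 0
    · intro f hf
      obtain ⟨g, hg, hgf⟩ := mem_image.1 (hS ((Fintype.mem_piFinset.1 hf) 0))
      have : g = f := by
        funext i
        have hi : i = 0 := Fin.ext (by omega)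
        rw [hi]
        exact hgf
      rwa [← this]
  | succ r ih =>
    intro δ V hδ hδ1 hn E hEV hE
    have hnδ : 2 * (K : ℝ) ≤ δ * V.card :=
      hn.trans (mul_le_mul_of_nonneg_right (dd_le K hK _ δ hδ hδ1) (Nat.cast_nonneg _))
    obtain ⟨X, hX⟩ : ∃ X : Finset (Fin (r + 1) → ℕ), X = Fintype.piFinset (fun _ => V) := ⟨_, rfl⟩
    have hXc : X.card = V.card ^ (r + 1) := by
      rw [hX, Fintype.card_piFinset]; simp
    have hfib : (E.card : ℝ) ≤ ∑ x ∈ X,
        ((V.filter (fun v => (Fin.cons v x : Fin (r + 1 + 1) → ℕ) ∈ E)).card : ℝ) := by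
      have h1 : ∀ f ∈ E, Fin.tail f ∈ X := by
        intro f hf
        rw [hX, Fintype.mem_piFinset]
        intro i
        exact (Fintype.mem_piFinset.1 (hEV hf)) i.succ
      rw [card_eq_sum_card_fiberwise h1]
      push_cast
      apply sum_le_sum
      intro x _
      rw [Nat.cast_le]
      refine card_le_card_of_injOn (fun f => f 0) ?_ ?_
      · intro f hf
        rw [mem_coe, mem_filter] at hf
        rw [mem_coe, mem_filter]
        refine ⟨(Fintype.mem_piFinset.1 (hEV hf.1)) 0, ?_⟩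
        show (Fin.cons (f 0) x : Fin (r + 1 + 1) → ℕ) ∈ E
        rw [← hf.2, Fin.cons_self_tail]
        exact hf.1
      · intro f hf g hg hfg
        rw [mem_coe, mem_filter] at hf hg
        rw [← Fin.cons_self_tail f, ← Fin.cons_self_tail g, hf.2, hg.2]
        simp only at hfg
        rw [hfg]
    obtain ⟨S, hS, hSc, hSx⟩ := pairL K hK X V
      (fun x v => (Fin.cons v x : Fin (r + 1 + 1) → ℕ) ∈ E) δ hδ hδ1 hnδ (by
        refine le_trans (le_of_eq ?_) (hE.trans hfib)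
        rw [hXc]
        push_cast
        ring)
    have hd0 : 0 < (δ / 2) ^ K := by positivity
    have hd1 : (δ / 2) ^ K ≤ 1 := pow_le_one₀ (by positivity) (by linarith)
    obtain ⟨A, hA, hAE⟩ := ih ((δ / 2) ^ K) V hd0 hd1 hn
      (X.filter (fun x => ∀ v ∈ S, (Fin.cons v x : Fin (r + 1 + 1) → ℕ) ∈ E)) (by
        rw [hX]; exact filter_subset _ _) (by
        rw [hXc] at hSx
        push_cast at hSx
        exact hSx)
    refine ⟨Fin.cons S A, ?_, ?_⟩
    · intro i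
      refine Fin.cases ?_ (fun j => ?_) i
      · rw [Fin.cons_zero]; exact ⟨hS, hSc⟩
      · rw [Fin.cons_succ]; exact hA j
    · intro f hf
      rw [Fintype.mem_piFinset] at hf
      have h0 : f 0 ∈ S := by have := hf 0; rwa [Fin.cons_zero] at this
      have h1 : Fin.tail f ∈ Fintype.piFinset A := by
        rw [Fintype.mem_piFinset]
        intro i
        have := hf i.succ
        rwa [Fin.cons_succ] at this
      have h2 := (mem_filter.1 (hAE h1)).2 (f 0) h0
      rwa [Fin.cons_self_tail] at h2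

open Classical in
/-- **Erdős's theorem**: `8 K n ^ (r + 1 - 1 / K ^ r)` edges of an `(r + 1)`-partite hypergraph force a box -/
theorem box_pow (K : ℕ) (hK : 2 ≤ K) (r : ℕ) (V : Finset ℕ) (E : Finset (Fin (r + 1) → ℕ))
    (hEV : E ⊆ Fintype.piFinset (fun _ => V)) (hV : V.Nonempty)
    (hE : 8 * (K : ℝ) * (V.card : ℝ) ^ ((r + 1 : ℝ) - 1 / (K : ℝ) ^ r) ≤ E.card) :
    ∃ A : Fin (r + 1) → Finset ℕ, (∀ i, A i ⊆ V ∧ (A i).card = K) ∧ Fintype.piFinset A ⊆ E := by
  obtain ⟨n, hn⟩ : ∃ n : ℕ, n = V.card := ⟨_, rfl⟩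
  have hn1 : 0 < n := by rw [hn]; exact hV.card_pos
  have hnr : (0 : ℝ) < n := by exact_mod_cast hn1
  have hK2 : (2 : ℝ) ≤ K := by exact_mod_cast hK
  obtain ⟨δ, hδd⟩ : ∃ δ : ℝ, δ = 8 * K * (n : ℝ) ^ (-(1 / (K : ℝ) ^ r)) := ⟨_, rfl⟩
  have hnp : (0 : ℝ) < (n : ℝ) ^ (-(1 / (K : ℝ) ^ r)) := Real.rpow_pos_of_pos hnr _
  have hδ : 0 < δ := by rw [hδd]; positivity
  have hδE : δ * (V.card : ℝ) ^ (r + 1) ≤ E.card := by
    refine le_trans (le_of_eq ?_) hE
    rw [← hn, hδd, sub_eq_add_neg, Real.rpow_add hnr]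
    have : (n : ℝ) ^ ((r : ℝ) + 1) = (n : ℝ) ^ (r + 1) := by
      rw [← Real.rpow_natCast]; push_cast; rfl
    rw [this]
    ring
  have hδ1 : δ ≤ 1 := by
    have h1 : (E.card : ℝ) ≤ (V.card : ℝ) ^ (r + 1) := by
      have := card_le_card hEV
      rw [Fintype.card_piFinset] at this
      simp only [prod_const, card_univ, Fintype.card_fin] at this
      exact_mod_cast this
    have h2 : 0 < (V.card : ℝ) ^ (r + 1) := by rw [← hn]; positivity
    have h3 := hδE.trans h1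
    by_contra hlt
    push Not at hlt
    nlinarith
  have hKr : (K : ℝ) ^ r ≠ 0 := by positivity
  refine box K (by omega) r δ V hδ hδ1 ?_ E hEV hδE
  have h1 := le_dd K hK r δ hδ
  have h2 : (δ / 4) ^ (K ^ r) = (2 * K : ℝ) ^ (K ^ r) * (n : ℝ)⁻¹ := by
    have : δ / 4 = (2 * K) * (n : ℝ) ^ (-(1 / (K : ℝ) ^ r)) := by rw [hδd]; ring
    rw [this, mul_pow]
    congr 1
    rw [← Real.rpow_natCast, ← Real.rpow_mul hnr.le, ← Real.rpow_neg_one]
    congr 1
    push_cast
    field_simp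
  have h3 : (2 * K : ℝ) ≤ (2 * K : ℝ) ^ (K ^ r) := by
    have h4 : 1 ≤ K ^ r := Nat.one_le_pow _ _ (by omega)
    calc (2 * K : ℝ) = (2 * K : ℝ) ^ 1 := (pow_one _).symm
      _ ≤ _ := pow_le_pow_right₀ (by linarith) h4
  calc 2 * (K : ℝ) ≤ (2 * K : ℝ) ^ (K ^ r) := h3
    _ = (2 * K : ℝ) ^ (K ^ r) * (n : ℝ)⁻¹ * n := by field_simp
    _ ≤ dd K r δ * n := by
        rw [← h2]
        exact mul_le_mul_of_nonneg_right h1 hnr.le
    _ = dd K r δ * V.card := by rw [hn]

end Pool.Agent.X28.NT
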