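import Mathlib
import Pool.Agent.Y827.GS.LamF
import Pool.Agent.H732R3.DickS
import Pool.Agent.X28.NT.Box

/-! Clusters of linear forms: the classes which are hit lie in one cluster, or two clusters contain primes at the
same time. -/

set_option autoImplicit false

namespace Pool.Agent.X28.NT

open Finset Filter Topology
open Pool.Agent.Y827.GS (Adf lamF0)

open Classical in
theorem clus (κ T M : ℕ) (hκ : 1 ≤ κ) (hT : 1 ≤ T) (hM : (18 / 5 : ℝ) * M < κ * T) :
    ∃ K : ℕ, 1 ≤ K ∧ ∀ (A : ℕ) (η : ℝ), 0 < η → ∀ᶠ N : ℕ in atTop,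
    ∀ (u v : Fin κ → ℤ) (X : Fin T → Fin K → ℤ),
      Function.Injective
        (fun z : (Fin κ × Fin T) × Fin K => ((u z.1.1, v z.1.1 + X z.1.2 z.2) : ℤ × ℤ)) →
      (∀ s g i, Adf A N (u s, v s + X g i)) →
      (∀ p : ℕ, p.Prime → p ≤ κ * T * K → ∃ r : ℤ, ∀ s g i,
        ¬ (p : ℤ) ∣ u s * r + (v s + X g i)) →
      (∃ s s' g g' i i', s ≠ s' ∧
        (N : ℝ) ^ (1 - η) ≤ (((Icc 1 N).filter (fun n : ℕ =>
          (u s * n + (v s + X g i)).toNat.Prime ∧
            (u s' * n + (v s' + X g' i')).toNat.Prime)).card : ℝ)) ∨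
      (∃ (s : Fin κ) (S : Finset (Fin T)) (σ : Fin T → Fin K), M + 1 ≤ S.card ∧
        (N : ℝ) ^ (1 - η) ≤ (((Icc 1 N).filter (fun n : ℕ =>
          ∀ g ∈ S, (u s * n + (v s + X g (σ g))).toNat.Prime)).card : ℝ)) := by
  obtain ⟨K, hK, H⟩ := lamF0 (κ * T) M (Nat.mul_pos hκ hT) (by push_cast; exact hM)
  refine ⟨K, hK, fun A η hη => ?_⟩
  filter_upwards [H A η hη] with N hN u v X hinj hAd hadm
  set cs : Fin (κ * T) → Fin κ := fun j => (finProdFinEquiv.symm j).1 with hcs
  set ct : Fin (κ * T) → Fin T := fun j => (finProdFinEquiv.symm j).2 with hct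
  have hext : ∀ i j, cs i = cs j → ct i = ct j → i = j := by
    intro i j h1 h2
    exact finProdFinEquiv.symm.injective (Prod.ext h1 h2)
  obtain ⟨S, c, hS, hcnt⟩ := hN (fun j i => (u (cs j), v (cs j) + X (ct j) i)) (by
      rintro ⟨j, i⟩ ⟨j', i'⟩ h
      have h1 := hinj (a₁ := ((cs j, ct j), i)) (a₂ := ((cs j', ct j'), i')) h
      simp only [Prod.mk.injEq] at h1
      rw [hext j j' h1.1.1 h1.1.2, h1.2])
    (fun j i => hAd _ _ _) (by
      intro p hp hpk
      obtain ⟨r, hr⟩ := hadm p hp hpk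
      exact ⟨r, fun j i => hr _ _ _⟩)
  by_cases hcase : ∃ j ∈ S, ∃ j' ∈ S, cs j ≠ cs j'
  · left
    obtain ⟨j, hj, j', hj', hne⟩ := hcase
    refine ⟨cs j, cs j', ct j, ct j', c j, c j', hne, hcnt.trans ?_⟩
    rw [Nat.cast_le]
    apply card_le_card
    intro n hn
    rw [mem_filter] at hn ⊢
    exact ⟨hn.1, hn.2 j hj, hn.2 j' hj'⟩
  · right
    push Not at hcase
    have hSne : S.Nonempty := by
      rw [← card_pos]; omega
    obtain ⟨j₀, hj₀⟩ := hSne
    refine ⟨cs j₀, S.image ct, fun g => c (finProdFinEquiv (cs j₀, g)), ?_, hcnt.trans ?_⟩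
    · rw [card_image_of_injOn]
      · exact hS
      · intro j hj j' hj' h
        exact hext j j' (hcase j hj j' hj') h
    · rw [Nat.cast_le]
      apply card_le_card
      intro n hn
      rw [mem_filter] at hn ⊢
      refine ⟨hn.1, fun g hg => ?_⟩
      obtain ⟨j, hj, rfl⟩ := mem_image.1 hg
      have h1 : finProdFinEquiv (cs j₀, ct j) = j := by
        apply hext
        · rw [hcs]; simp only [Equiv.symm_apply_apply]; exact hcase _ hj₀ _ hj
        · rw [hct]; simp only [Equiv.symm_apply_apply]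
      have h2 : (u (cs j) * (n : ℤ) + (v (cs j) + X (ct j) (c j))).toNat.Prime := hn.2 j hj
      show (u (cs j₀) * (n : ℤ) +
        (v (cs j₀) + X (ct j) (c (finProdFinEquiv (cs j₀, ct j))))).toNat.Prime
      rw [h1, hcase _ hj₀ _ hj]
      exact h2

/-- a tuple of integers which does not occupy all the classes modulo a prime -/
def Adm {T : ℕ} (x : Fin T → ℕ) : Prop :=
  ∀ p : ℕ, p.Prime → ∃ r : ℤ, ∀ i, ¬ ((p : ℤ) ∣ r + x i)

open Classical in
/-- at least `N ^ (1 - η)` of the `n ≤ 2 N` are such that all `n + x i` are prime -/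
def Tup {T : ℕ} (N : ℕ) (η : ℝ) (x : Fin T → ℕ) : Prop :=
  (N : ℝ) ^ (1 - η) ≤ (((Icc 1 (2 * N)).filter (fun n : ℕ => ∀ i, (n + x i).Prime)).card : ℝ)

open Classical in
/-- if all classes are hit, almost all tuples are hit -/
theorem dens (r K : ℕ) (L N : ℕ) (η : ℝ)
    (hB : ∀ X : Fin (r + 1) → Fin K → ℕ, (∀ g i, X g i ≤ L) →
      Function.Injective (fun z : Fin (r + 1) × Fin K => X z.1 z.2) →
      (∀ p : ℕ, p.Prime → ∃ r : ℤ, ∀ g i, ¬ ((p : ℤ) ∣ r + X g i)) →
      ∃ σ : Fin (r + 1) → Fin K, Tup N η (fun g => X g (σ g)))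
    (w H : ℕ) (hH : 1 ≤ H) (hwH : w + H ≤ L) :
    (((Fintype.piFinset (fun _ : Fin (r + 1) => Ioc w (w + H))).filter
      (fun x => Function.Injective x ∧ Adm x ∧ ¬ Tup N η x)).card : ℝ) ≤
      ((((r + 1) * (K + 1)).factorial ^ (r + 1) * (8 * (K + 1)) : ℕ) : ℝ) *
        (H : ℝ) ^ ((r + 1 : ℝ) - 1 / ((K + 1 : ℕ) : ℝ) ^ r) := by
  obtain ⟨P, hP⟩ : ∃ P : ℕ, P = ((r + 1) * (K + 1)).factorial := ⟨_, rfl⟩
  have hP0 : 0 < P := by rw [hP]; exact Nat.factorial_pos _
  rw [← hP]
  obtain ⟨Bad, hBad⟩ : ∃ Bad : Finset (Fin (r + 1) → ℕ),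
    Bad = (Fintype.piFinset (fun _ : Fin (r + 1) => Ioc w (w + H))).filter
      (fun x => Function.Injective x ∧ Adm x ∧ ¬ Tup N η x) := ⟨_, rfl⟩
  rw [← hBad]
  by_contra hcon
  push Not at hcon
  obtain ⟨Y, hY⟩ : ∃ Y : ℝ, Y = 8 * ((K + 1 : ℕ) : ℝ) *
    (H : ℝ) ^ ((r + 1 : ℝ) - 1 / ((K + 1 : ℕ) : ℝ) ^ r) := ⟨_, rfl⟩
  have hcon' : (P : ℝ) ^ (r + 1) * Y < Bad.card := by
    refine lt_of_le_of_lt (le_of_eq ?_) hcon
    rw [hY]
    push_cast
    ring
  -- one class of residues
  obtain ⟨ρ, E, hE⟩ : ∃ ρ : Fin (r + 1) → ℕ, ∃ E : Finset (Fin (r + 1) → ℕ),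
      (E = Bad.filter (fun x => (fun i => x i % P) = ρ)) ∧ Y ≤ E.card := by
    by_contra hno
    push Not at hno
    have h1 : ∀ x ∈ Bad, (fun i => x i % P) ∈
        Fintype.piFinset (fun _ : Fin (r + 1) => range P) := by
      intro x _
      rw [Fintype.mem_piFinset]
      intro i
      rw [mem_range]
      exact Nat.mod_lt _ hP0
    have h2 := card_eq_sum_card_fiberwise h1
    have h3 : (Bad.card : ℝ) ≤ ∑ ρ ∈ Fintype.piFinset (fun _ : Fin (r + 1) => range P), Y := by
      rw [h2]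
      push_cast
      apply sum_le_sum
      intro ρ _
      exact (hno ρ _ rfl).le
    rw [sum_const, nsmul_eq_mul, Fintype.card_piFinset] at h3
    simp only [card_range, prod_const, card_univ, Fintype.card_fin] at h3
    push_cast at h3
    linarith
  obtain ⟨hE1, hE2⟩ := hE
  have hEB : E ⊆ Bad := by rw [hE1]; exact filter_subset _ _
  have hEm : ∀ x ∈ E, Function.Injective x ∧ Adm x ∧ ¬ Tup N η x := by
    intro x hx
    have := hEB hx
    rw [hBad] at this
    exact (mem_filter.1 this).2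
  have hEi : ∀ x ∈ E, ∀ i, x i ∈ Ioc w (w + H) := by
    intro x hx
    have := hEB hx
    rw [hBad] at this
    exact Fintype.mem_piFinset.1 (mem_filter.1 this).1
  have hEr : ∀ x ∈ E, ∀ i, x i % P = ρ i := by
    intro x hx i
    rw [hE1] at hx
    exact congrFun (mem_filter.1 hx).2 i
  have hcard : (Ioc w (w + H)).card = H := by rw [Nat.card_Ioc]; omega
  by_cases hK0 : K = 0
  · -- no classes: nothing can be hit by an empty choice
    subst hK0
    obtain ⟨σ, -⟩ := hB (fun _ i => i.elim0) (fun _ i => i.elim0)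
      (by rintro ⟨_, i⟩; exact i.elim0) (fun p _ => ⟨0, fun _ i => i.elim0⟩)
    exact (σ 0).elim0
  obtain ⟨A, hA, hAE⟩ := box_pow (K + 1) (by omega) r (Ioc w (w + H)) E (by
      intro x hx
      rw [Fintype.mem_piFinset]
      exact hEi x hx) (by
      rw [← card_pos, hcard]; omega) (by
      rw [hcard]
      rw [hY] at hE2
      exact hE2)
  obtain ⟨X, hX⟩ : ∃ X : Fin (r + 1) → Fin K → ℕ,
    X = fun g i => (A g).orderEmbOfFin (hA g).2 (Fin.castLE (by omega) i) := ⟨_, rfl⟩
  have hXA : ∀ g i, X g i ∈ A g := by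
    intro g i
    rw [hX]
    exact orderEmbOfFin_mem _ _ _
  have hne : ∀ g, (A g).Nonempty := by
    intro g
    rw [← card_pos, (hA g).2]
    omega
  choose a ha using hne
  have haE : ∀ f : Fin (r + 1) → ℕ, (∀ g, f g ∈ A g) → f ∈ E := fun f hf =>
    hAE (Fintype.mem_piFinset.2 hf)
  have hdisj : ∀ g g', g ≠ g' → ∀ y, y ∈ A g → y ∈ A g' → False := by
    intro g g' hgg y hy hy'
    have h1 : (fun l => if l = g then y else if l = g' then y else a l) ∈ E := by
      apply haE
      intro l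
      split_ifs with h1 h2
      · rw [h1]; exact hy
      · rw [h2]; exact hy'
      · exact ha l
    have h2 := (hEm _ h1).1 (a₁ := g) (a₂ := g') (by simp)
    exact hgg h2
  have hmodX : ∀ g i, X g i % P = ρ g := by
    intro g i
    have h1 : (fun l => if l = g then X g i else a l) ∈ E := by
      apply haE
      intro l
      split_ifs with h1
      · rw [h1]; exact hXA g i
      · exact ha l
    have h2 := hEr _ h1 g
    simpa using h2
  have haE' : a ∈ E := haE a ha
  obtain ⟨σ, hσ⟩ := hB X (fun g i => by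
      have h1 : (fun l => if l = g then X g i else a l) ∈ E := by
        apply haE
        intro l
        split_ifs with h1
        · rw [h1]; exact hXA g i
        · exact ha l
      have h2 := hEi _ h1 g
      simp only [if_true, mem_Ioc] at h2
      omega) (by
      rintro ⟨g, i⟩ ⟨g', i'⟩ h
      simp only at h
      have hg : g = g' := by
        by_contra hne
        exact hdisj g g' hne (X g i) (hXA g i) (by rw [h]; exact hXA g' i')
      subst hg
      rw [hX] at h
      simp only at h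
      have h1 := (orderEmbOfFin (A g) (hA g).2).injective h
      rw [Fin.castLE_inj] at h1
      rw [h1]) (by
      intro p hp
      by_cases hpk : p ≤ (r + 1) * (K + 1)
      · obtain ⟨z, hz⟩ := (hEm a haE').2.1 p hp
        refine ⟨z, fun g i hd => hz g ?_⟩
        have hpP : p ∣ P := by rw [hP]; exact hp.dvd_factorial.2 hpk
        have h1 : X g i ≡ a g [MOD P] := by
          show X g i % P = a g % P
          rw [hmodX g i, hEr a haE' g]
        have h2 : X g i ≡ a g [MOD p] := h1.of_dvd hpP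
        have h3 : ((p : ℕ) : ℤ) ∣ (a g : ℤ) - (X g i : ℤ) := h2.dvd
        have h4 := dvd_add hd h3
        have h5 : z + (X g i : ℤ) + ((a g : ℤ) - (X g i : ℤ)) = z + a g := by ring
        rwa [h5] at h4
      · push Not at hpk
        obtain ⟨z, hz⟩ := Pool.Agent.H732R3.DickS.exists_avoid (ι := Fin (r + 1) × Fin K) hp (by
          rw [Fintype.card_prod, Fintype.card_fin, Fintype.card_fin]
          nlinarith) (fun _ => (1 : ℤ)) (fun w => (X w.1 w.2 : ℤ)) (fun w hw => by
            exfalso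
            have h1 : p ∣ 1 := by exact_mod_cast hw
            exact hp.one_lt.ne' (Nat.dvd_one.1 h1))
        refine ⟨z, fun g i => ?_⟩
        have := hz (g, i)
        rwa [one_mul] at this)
  exact (hEm _ (haE (fun g => X g (σ g)) (fun g => hXA _ _))).2.2 hσ

end Pool.Agent.X28.NT
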