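import Mathlib
import Pool.Agent.X28.NT.Clus

/-! Three clusters far from each other: if the isolated numbers at a scale are not sum-free, then any five classes of
bounded shifts are hit by primes at the same time. -/

set_option autoImplicit false

namespace Pool.Agent.X28.NT

open Finset Filter Topology
open Pool.Agent.Y827.GS (Adf)

open Classical in
/-- the number of primes `p ≤ 2 N` with `p + d` prime is at least `N ^ (1 - η)` -/
def DifS (N : ℕ) (η : ℝ) (d : ℕ) : Prop :=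
  (N : ℝ) ^ (1 - η) ≤ (((Icc 1 (2 * N)).filter (fun p : ℕ => p.Prime ∧ (p + d).Prime)).card : ℝ)

/-- no difference at the scale `N` within distance `C` of `h` -/
def Iso (C N : ℕ) (η : ℝ) (h : ℕ) : Prop :=
  C < h ∧ ∀ d : ℕ, h ≤ d + C → d ≤ h + C → ¬ DifS N η d

open Classical in
/-- `κ` clusters at the positions `t s` -/
theorem farK (κ T M : ℕ) (hκ : 1 ≤ κ) (hT : 1 ≤ T) (hM : (18 / 5 : ℝ) * M < κ * T) :
    ∃ K : ℕ, 1 ≤ K ∧ ∀ (L : ℕ) (η : ℝ), 0 < η → ∀ᶠ N : ℕ in atTop, ∀ t : Fin κ → ℕ,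
      (∀ s, (κ * T * K).factorial ∣ t s) → (∀ s, 4 * t s ≤ 3 * N) →
      (∀ s s', s ≠ s' → t s ≤ t s' → t s + L < t s' ∧
        ∀ d : ℕ, t s' ≤ t s + d + L → t s + d ≤ t s' + L → ¬ DifS N η d) →
      ∀ X : Fin T → Fin K → ℕ, (∀ g i, X g i ≤ L) →
        Function.Injective (fun z : Fin T × Fin K => X z.1 z.2) →
        (∀ p : ℕ, p.Prime → ∃ r : ℤ, ∀ g i, ¬ ((p : ℤ) ∣ r + X g i)) →
        ∃ (S : Finset (Fin T)) (σ : Fin T → Fin K), M + 1 ≤ S.card ∧
          (N : ℝ) ^ (1 - η) ≤ (((Icc 1 (2 * N)).filter (fun n : ℕ =>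
            ∀ g ∈ S, (n + X g (σ g)).Prime)).card : ℝ) := by
  obtain ⟨K, hK, H⟩ := clus κ T M hκ hT hM
  refine ⟨K, hK, fun L η hη => ?_⟩
  filter_upwards [H 1 η hη, eventually_ge_atTop (4 * L + 1)] with N hN hN1
  intro t htP ht4 hcl X hXL hXi hXadm
  have hsep : ∀ s s', s ≠ s' → t s + L < t s' ∨ t s' + L < t s := by
    intro s s' hne
    rcases le_total (t s) (t s') with h | h
    · exact Or.inl (hcl s s' hne h).1
    · exact Or.inr (hcl s' s (Ne.symm hne) h).1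
  have hval : ∀ (s : Fin κ) (g : Fin T) (i : Fin K) (n : ℕ),
      ((1 : ℤ) * n + (((t s : ℕ) : ℤ) + ((X g i : ℕ) : ℤ))).toNat = n + t s + X g i := by
    intro s g i n
    omega
  rcases hN (fun _ => 1) (fun s => (t s : ℤ)) (fun g i => (X g i : ℤ))
    (by
      rintro ⟨⟨s, g⟩, i⟩ ⟨⟨s', g'⟩, i'⟩ h
      simp only [Prod.mk.injEq, true_and] at h
      have l1 := hXL g i
      have l2 := hXL g' i'
      have hs : s = s' := by
        by_contra hne
        rcases hsep s s' hne with h1 | h1 <;> omega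
      subst hs
      have h1 : X g i = X g' i' := by omega
      have h2 := hXi (show (fun z : Fin T × Fin K => X z.1 z.2) (g, i) =
        (fun z : Fin T × Fin K => X z.1 z.2) (g', i') from h1)
      rw [Prod.mk.injEq] at h2
      rw [h2.1, h2.2])
    (by
      intro s g i
      refine ⟨one_ne_zero, by simp, ?_, isCoprime_one_left, ?_⟩
      · have l1 := hXL g i
        have l2 := ht4 s
        show |((t s : ℕ) : ℤ) + ((X g i : ℕ) : ℤ)| ≤ N
        rw [abs_of_nonneg (by positivity)]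
        omega
      · intro y hy1 hy2
        have h1 : (0 : ℝ) ≤ ((t s : ℕ) : ℝ) := Nat.cast_nonneg _
        have h2 : (0 : ℝ) ≤ ((X g i : ℕ) : ℝ) := Nat.cast_nonneg _
        have h3 : (0 : ℝ) ≤ (N : ℝ) := Nat.cast_nonneg _
        push_cast
        linarith)
    (by
      intro p hp hpk
      obtain ⟨r, hr⟩ := hXadm p hp
      refine ⟨r, fun s g i hd => hr g i ?_⟩
      have h1 : p ∣ t s := (hp.dvd_factorial.2 hpk).trans (htP s)
      have h2 : (p : ℤ) ∣ ((t s : ℕ) : ℤ) := by exact_mod_cast h1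
      have h3 := dvd_sub hd h2
      have h4 : 1 * r + (((t s : ℕ) : ℤ) + ((X g i : ℕ) : ℤ)) - ((t s : ℕ) : ℤ) = r + X g i := by
        ring
      rwa [h4] at h3) with h | h
  · exfalso
    obtain ⟨s, s', g, g', i, i', hne, hcnt⟩ := h
    -- order the two clusters
    have key : ∀ (s s' : Fin κ) (g g' : Fin T) (i i' : Fin K), s ≠ s' → t s ≤ t s' →
        (N : ℝ) ^ (1 - η) ≤ (((Icc 1 N).filter (fun n : ℕ =>
          (n + t s + X g i).Prime ∧ (n + t s' + X g' i').Prime)).card : ℝ) → False := by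
      intro s s' g g' i i' hne hle hcnt
      obtain ⟨h1, h2⟩ := hcl s s' hne hle
      have l1 := hXL g i
      have l2 := hXL g' i'
      refine h2 (t s' + X g' i' - (t s + X g i)) (by omega) (by omega) ?_
      unfold DifS
      refine hcnt.trans ?_
      rw [Nat.cast_le]
      refine card_le_card_of_injOn (fun n => n + t s + X g i) ?_ ?_
      · intro n hn
        obtain ⟨h3, h4, h5⟩ := mem_filter.1 hn
        rw [mem_Icc] at h3
        rw [Finset.mem_coe, mem_filter, mem_Icc]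
        have l3 := ht4 s
        refine ⟨⟨?_, ?_⟩, h4, ?_⟩
        · exact h4.one_lt.le
        · show n + t s + X g i ≤ 2 * N
          omega
        · show (n + t s + X g i + (t s' + X g' i' - (t s + X g i))).Prime
          have h6 : n + t s + X g i + (t s' + X g' i' - (t s + X g i)) = n + t s' + X g' i' := by
            omega
          rwa [h6]
      · intro m _ n _ hmn
        simp only at hmn
        omega
    rcases le_total (t s) (t s') with hle | hle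
    · refine key s s' g g' i i' hne hle (hcnt.trans ?_)
      rw [Nat.cast_le]
      apply card_le_card
      intro n hn
      rw [mem_filter] at hn ⊢
      rw [hval, hval] at hn
      exact hn
    · refine key s' s g' g i' i (Ne.symm hne) hle (hcnt.trans ?_)
      rw [Nat.cast_le]
      apply card_le_card
      intro n hn
      rw [mem_filter] at hn ⊢
      rw [hval, hval] at hn
      exact ⟨hn.1, hn.2.2, hn.2.1⟩
  · obtain ⟨s, S, σ, hS, hcnt⟩ := h
    refine ⟨S, σ, hS, hcnt.trans ?_⟩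
    rw [Nat.cast_le]
    refine card_le_card_of_injOn (fun n => n + t s) ?_ ?_
    · intro n hn
      obtain ⟨h3, h4⟩ := mem_filter.1 hn
      rw [mem_Icc] at h3
      rw [Finset.mem_coe, mem_filter, mem_Icc]
      have l3 := ht4 s
      refine ⟨⟨?_, ?_⟩, ?_⟩
      · show 1 ≤ n + t s
        omega
      · show n + t s ≤ 2 * N
        omega
      · intro g hg
        have := h4 g hg
        rwa [hval] at this
    · intro m _ n _ hmn
      simp only at hmn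
      omega

/-- a multiple of `P` just above `h` -/
theorem mul_above (P h : ℕ) (hP : 0 < P) : ∃ t : ℕ, P ∣ t ∧ h ≤ t ∧ t ≤ h + P := by
  refine ⟨P * (h / P + 1), dvd_mul_right _ _, ?_, ?_⟩
  · have h1 := Nat.div_add_mod h P
    have h2 := Nat.mod_lt h hP
    rw [Nat.mul_add, Nat.mul_one]
    omega
  · have h1 := Nat.div_add_mod h P
    rw [Nat.mul_add, Nat.mul_one]
    omega

open Classical in
/-- three clusters -/
theorem far3 (T M : ℕ) (hT : 1 ≤ T) (hM : (18 / 5 : ℝ) * M < 3 * T) :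
    ∃ K : ℕ, 1 ≤ K ∧ ∀ L : ℕ, ∃ C : ℕ, ∀ η : ℝ, 0 < η → ∀ᶠ N : ℕ in atTop,
      (∃ h k : ℕ, 2 * (h + k) ≤ N ∧ Iso C N η h ∧ Iso C N η k ∧ Iso C N η (h + k)) →
      ∀ X : Fin T → Fin K → ℕ, (∀ g i, X g i ≤ L) →
        Function.Injective (fun z : Fin T × Fin K => X z.1 z.2) →
        (∀ p : ℕ, p.Prime → ∃ r : ℤ, ∀ g i, ¬ ((p : ℤ) ∣ r + X g i)) →
        ∃ (S : Finset (Fin T)) (σ : Fin T → Fin K), M + 1 ≤ S.card ∧
          (N : ℝ) ^ (1 - η) ≤ (((Icc 1 (2 * N)).filter (fun n : ℕ =>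
            ∀ g ∈ S, (n + X g (σ g)).Prime)).card : ℝ) := by
  obtain ⟨K, hK, H⟩ := farK 3 T M (by norm_num) hT (by push_cast; exact hM)
  refine ⟨K, hK, fun L => ?_⟩
  obtain ⟨P, hP⟩ : ∃ P : ℕ, P = (3 * T * K).factorial := ⟨_, rfl⟩
  have hP0 : 0 < P := by rw [hP]; exact Nat.factorial_pos _
  refine ⟨2 * P + L, fun η hη => ?_⟩
  filter_upwards [H L η hη, eventually_ge_atTop (8 * P)] with N hN hN1
  rintro ⟨h, k, hhk, ⟨hh0, hh⟩, ⟨hk0, hk⟩, ⟨hs0, hs⟩⟩
  obtain ⟨t, ht1, ht2, ht3⟩ := mul_above P h hP0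
  obtain ⟨t', ht1', ht2', ht3'⟩ := mul_above P k hP0
  obtain ⟨tt, htt⟩ : ∃ tt : Fin 3 → ℕ, tt = fun s => if s = 0 then 0 else if s = 1 then t else t + t' :=
    ⟨_, rfl⟩
  have tt0 : tt 0 = 0 := by rw [htt]; rfl
  have tt1 : tt 1 = t := by rw [htt]; rfl
  have tt2 : tt 2 = t + t' := by rw [htt]; rfl
  have hc : ∀ s : Fin 3, s = 0 ∨ s = 1 ∨ s = 2 := by intro s; omega
  refine hN tt ?_ ?_ ?_
  · intro s
    rw [← hP]
    rcases hc s with rfl | rfl | rfl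
    · rw [tt0]; exact dvd_zero _
    · rw [tt1]; exact ht1
    · rw [tt2]; exact dvd_add ht1 ht1'
  · intro s
    rcases hc s with rfl | rfl | rfl
    · rw [tt0]; omega
    · rw [tt1]; omega
    · rw [tt2]; omega
  · intro s s' hne hle
    rcases hc s with rfl | rfl | rfl <;> rcases hc s' with rfl | rfl | rfl
    · exact absurd rfl hne
    · rw [tt0, tt1]
      exact ⟨by omega, fun d h1 h2 => hh d (by omega) (by omega)⟩
    · rw [tt0, tt2]
      exact ⟨by omega, fun d h1 h2 => hs d (by omega) (by omega)⟩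
    · rw [tt0, tt1] at hle
      omega
    · exact absurd rfl hne
    · rw [tt1, tt2]
      exact ⟨by omega, fun d h1 h2 => hk d (by omega) (by omega)⟩
    · rw [tt0, tt2] at hle
      omega
    · rw [tt1, tt2] at hle
      omega
    · exact absurd rfl hne

open Classical in
/-- five classes, almost all five-tuples -/
theorem five : ∃ K₀ : ℕ, 1 ≤ K₀ ∧ ∀ L : ℕ, ∃ C : ℕ, ∀ η : ℝ, 0 < η → ∀ᶠ N : ℕ in atTop,
      (∃ h k : ℕ, 2 * (h + k) ≤ N ∧ Iso C N η h ∧ Iso C N η k ∧ Iso C N η (h + k)) →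
      ∀ w H : ℕ, 1 ≤ H → w + H ≤ L →
      (((Fintype.piFinset (fun _ : Fin 5 => Ioc w (w + H))).filter
        (fun x => Function.Injective x ∧ Adm x ∧ ¬ Tup N η x)).card : ℝ) ≤
        K₀ * (H : ℝ) ^ ((5 : ℝ) - 1 / (K₀ : ℝ)) := by
  obtain ⟨K, hK, H⟩ := far3 5 4 (by norm_num) (by norm_num)
  obtain ⟨Q, hQ⟩ : ∃ Q : ℕ, Q = ((4 + 1) * (K + 1)).factorial ^ (4 + 1) * (8 * (K + 1)) := ⟨_, rfl⟩
  have hQ1 : 1 ≤ Q := by
    rw [hQ]
    exact Nat.mul_pos (pow_pos (Nat.factorial_pos _) _) (by omega)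
  refine ⟨Q + (K + 1) ^ 4, by omega, fun L => ?_⟩
  obtain ⟨C, HC⟩ := H L
  refine ⟨C, fun η hη => ?_⟩
  filter_upwards [HC η hη] with N hN
  intro hex w W hW hwW
  have hB := hN hex
  have h1 := dens 4 K L N η (by
    intro X h1 h2 h3
    obtain ⟨S, σ, hS, hcnt⟩ := hB X h1 h2 h3
    have hSu : S = univ := by
      apply eq_univ_of_card
      have := card_le_univ S
      rw [Fintype.card_fin] at this ⊢
      omega
    refine ⟨σ, ?_⟩
    unfold Tup
    refine hcnt.trans ?_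
    rw [Nat.cast_le]
    apply card_le_card
    intro n hn
    rw [mem_filter] at hn ⊢
    exact ⟨hn.1, fun i => hn.2 i (by rw [hSu]; exact mem_univ _)⟩) w W hW hwW
  refine h1.trans ?_
  rw [← hQ]
  have hW1 : (1 : ℝ) ≤ W := by exact_mod_cast hW
  have h2 : (W : ℝ) ^ (((4 : ℕ) + 1 : ℝ) - 1 / ((K + 1 : ℕ) : ℝ) ^ 4) ≤
      (W : ℝ) ^ ((5 : ℝ) - 1 / ((Q + (K + 1) ^ 4 : ℕ) : ℝ)) := by
    apply Real.rpow_le_rpow_of_exponent_le hW1
    have h3 : (0 : ℝ) < ((K + 1 : ℕ) : ℝ) ^ 4 := by positivity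
    have h4 : ((K + 1 : ℕ) : ℝ) ^ 4 ≤ ((Q + (K + 1) ^ 4 : ℕ) : ℝ) := by
      push_cast
      have : (0 : ℝ) ≤ Q := Nat.cast_nonneg _
      linarith
    have h5 := one_div_le_one_div_of_le h3 h4
    push_cast at h5 ⊢
    linarith
  have h6 : (Q : ℝ) ≤ ((Q + (K + 1) ^ 4 : ℕ) : ℝ) := by
    push_cast
    have : (0 : ℝ) ≤ ((K : ℝ) + 1) ^ 4 := by positivity
    linarith
  calc (Q : ℝ) * (W : ℝ) ^ (((4 : ℕ) + 1 : ℝ) - 1 / ((K + 1 : ℕ) : ℝ) ^ 4)
      ≤ Q * (W : ℝ) ^ ((5 : ℝ) - 1 / ((Q + (K + 1) ^ 4 : ℕ) : ℝ)) :=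
        mul_le_mul_of_nonneg_left h2 (Nat.cast_nonneg _)
    _ ≤ _ := mul_le_mul_of_nonneg_right h6 (Real.rpow_nonneg (Nat.cast_nonneg _) _)

theorem Iso.mono {C C' N : ℕ} {η : ℝ} {h : ℕ} (hC : C ≤ C') (hi : Iso C' N η h) : Iso C N η h :=
  ⟨lt_of_le_of_lt hC hi.1, fun d h1 h2 => hi.2 d (by omega) (by omega)⟩

open Classical in
theorem main3 : ∃ K₀ : ℕ, 1 ≤ K₀ ∧ ∀ T M : ℕ, 1 ≤ T → 6 * M < 5 * T → ∃ K : ℕ, 1 ≤ K ∧
    ∀ L : ℕ, ∃ C : ℕ, ∀ η : ℝ, 0 < η → ∀ᶠ N : ℕ in atTop,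
      (∀ h k : ℕ, 2 * (h + k) ≤ N → Iso C N η h → Iso C N η k → ¬ Iso C N η (h + k)) ∨
      ((∀ w H : ℕ, 1 ≤ H → w + H ≤ L →
        (((Fintype.piFinset (fun _ : Fin 5 => Ioc w (w + H))).filter
          (fun x => Function.Injective x ∧ Adm x ∧ ¬ Tup N η x)).card : ℝ) ≤
          K₀ * (H : ℝ) ^ ((5 : ℝ) - 1 / (K₀ : ℝ))) ∧
      (∀ X : Fin T → Fin K → ℕ, (∀ g i, X g i ≤ L) →
        Function.Injective (fun z : Fin T × Fin K => X z.1 z.2) →
        (∀ p : ℕ, p.Prime → ∃ r : ℤ, ∀ g i, ¬ ((p : ℤ) ∣ r + X g i)) →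
        ∃ (S : Finset (Fin T)) (σ : Fin T → Fin K), M + 1 ≤ S.card ∧
          (N : ℝ) ^ (1 - η) ≤ (((Icc 1 (2 * N)).filter (fun n : ℕ =>
            ∀ g ∈ S, (n + X g (σ g)).Prime)).card : ℝ))) := by
  obtain ⟨K₀, hK₀, H5⟩ := five
  refine ⟨K₀, hK₀, fun T M hT hTM => ?_⟩
  obtain ⟨K, hK, H3⟩ := far3 T M hT (by
    have : (6 : ℝ) * M < 5 * T := by exact_mod_cast hTM
    linarith)
  refine ⟨K, hK, fun L => ?_⟩
  obtain ⟨C₁, H5⟩ := H5 L
  obtain ⟨C₂, H3⟩ := H3 L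
  refine ⟨C₁ + C₂, fun η hη => ?_⟩
  filter_upwards [H5 η hη, H3 η hη] with N h5 h3
  by_cases hA : ∀ h k : ℕ, 2 * (h + k) ≤ N → Iso (C₁ + C₂) N η h → Iso (C₁ + C₂) N η k →
      ¬ Iso (C₁ + C₂) N η (h + k)
  · exact Or.inl hA
  right
  push Not at hA
  obtain ⟨h, k, hhk, i1, i2, i3⟩ := hA
  exact ⟨h5 ⟨h, k, hhk, i1.mono (by omega), i2.mono (by omega), i3.mono (by omega)⟩,
    h3 ⟨h, k, hhk, i1.mono (by omega), i2.mono (by omega), i3.mono (by omega)⟩⟩

end Pool.Agent.X28.NT
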