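import Mathlib
import Pool.Agent.Y827.GS.LamF

/-! The theorem `Pool.Agent.Y827.GS.lamF0` of the starting files with the range of the variable (the proof is the one
given there). -/

set_option autoImplicit false

namespace Pool.Agent.X28.NT

open Finset Filter Topology
open Pool.Agent.W25.UN
open Pool.Agent.W25.UB (CopAt)
open Pool.Agent.H410R2 (WW)
open Pool.Agent.TH899.UG
open Pool.Agent.TH899.UG.Uni
open Pool.Agent.Y827.LS
open Pool.Agent.Y827.GS

open Classical in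
/-- **the coloured theorem for families of linear forms, uniformly**, with the range of the variable -/
theorem lamR (T M : ℕ) (hT : 1 ≤ T) (hTM : (18 / 5 : ℝ) * M < T) : ∃ K : ℕ, 1 ≤ K ∧ ∀ (A : ℕ)
    (η : ℝ), 0 < η → ∀ᶠ N : ℕ in atTop, ∀ H : Fin T → Fin K → ℤ × ℤ,
    Function.Injective (fun x : Fin T × Fin K => H x.1 x.2) → (∀ g i, Adf A N (H g i)) →
    (∀ p : ℕ, p.Prime → p ≤ T * K → ∃ r : ℤ, ∀ g i, ¬ (p : ℤ) ∣ (H g i).1 * r + (H g i).2) →
    ∃ (S : Finset (Fin T)) (c : Fin T → Fin K), M + 1 ≤ S.card ∧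
      (N : ℝ) ^ (1 - η) ≤ (((Icc 1 N).filter (fun n : ℕ => N ≤ 16 * n ∧ 16 * n ≤ 9 * N ∧
        ∀ g ∈ S, ((H g (c g)).1 * n + (H g (c g)).2).toNat.Prime)).card : ℝ) := by
  obtain ⟨K, hK, D₀, H⟩ := thmG T M hT hTM
  refine ⟨K, by omega, ?_⟩
  intro A η hη
  set D : ℕ := D₀ + A with hD
  set k : ℕ := T * K with hk
  haveI : NeZero K := ⟨by omega⟩
  have hW : 0 < WW D := by
    rw [WW]; exact prod_pos fun p hp => (mem_filter.1 hp).2.pos
  have h2 : ∀ᶠ N : ℕ in atTop, ∀ a ∈ (Fintype.piFinset (fun _ : Fin (T * K) =>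
      Icc (-(A : ℤ)) A)).filter (fun a => ∀ i, a i ≠ 0), ∀ (h : Fin (T * K) → ℤ) (Mo : ℕ),
      HB h Mo N → Nd a h Mo → PosR a h Mo N → ∀ v : ℕ, CopAt a h D Mo v →
      (N : ℝ) ^ (1 - η / 2) ≤ (((Icc 1 N).filter (fun n : ℕ => n ≡ v [MOD (WW D)] ∧
        (N : ℝ) / 16 ≤ n ∧ (n : ℝ) ≤ N / 2 ∧
        M + 1 ≤ (univ.filter (fun g : Fin T => ∃ i, cl i = g ∧
          (Fm a h Mo i n).toNat.Prime)).card)).card : ℝ) := by
    rw [Filter.eventually_all_finset]
    intro a ha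
    obtain ⟨ha1, ha2⟩ := mem_filter.1 ha
    rw [Fintype.mem_piFinset] at ha1
    refine H D (by omega) a cl card_cl (fun _ => trivial) (fun i => ha2 _)
      (fun i => ?_) (η / 2) (by positivity)
    have h3 := mem_Icc.1 (ha1 i)
    omega
  set P : ℕ := 2 ^ T * K ^ T with hP
  have h3 : ∀ᶠ N : ℕ in atTop, (P : ℝ) < (N : ℝ) ^ (η / 2) :=
    ((tendsto_rpow_atTop (by positivity)).comp tendsto_natCast_atTop_atTop).eventually_gt_atTop _
  filter_upwards [h2, h3, eventually_ge_atTop (100 * (A * (WW D * (k + 3)) + WW D * (k + 3))),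
    eventually_ge_atTop 1] with N hN2 hN3 hN4 hN1 f hinj hAd hloc
  have hNpos : (0 : ℝ) < N := by exact_mod_cast hN1
  -- the shift
  obtain ⟨s, hs1, hs2, hs3⟩ := crtF D (fun i : Fin (T * K) => f (cl i) (sx i))
    (fun i => (hAd _ _).2.2.2.1) (fun i => (hAd _ _).1) (by
      intro p hp hpk
      obtain ⟨r, hr⟩ := hloc p hp hpk
      exact ⟨r, fun i => hr _ _⟩)
  set a : Fin (T * K) → ℤ := fun i => (f (cl i) (sx i)).1 with ha
  set h : Fin (T * K) → ℤ := fun i => (f (cl i) (sx i)).2 + (f (cl i) (sx i)).1 * s with hh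
  have hAs : A * s + s ≤ A * (WW D * (k + 3)) + WW D * (k + 3) :=
    Nat.add_le_add (Nat.mul_le_mul_left _ hs1) hs1
  have hAsN : 100 * (A * s + s) ≤ N := (Nat.mul_le_mul_left 100 hAs).trans hN4
  have hAsN' : 100 * ((A : ℤ) * s + s) ≤ N := by exact_mod_cast hAsN
  have has : ∀ i, |(f (cl i) (sx i)).1 * (s : ℤ)| ≤ (A : ℤ) * s := by
    intro i
    rw [abs_mul, abs_of_nonneg (Nat.cast_nonneg s : (0 : ℤ) ≤ (s : ℤ))]
    exact mul_le_mul_of_nonneg_right (hAd _ _).2.1 (Nat.cast_nonneg s)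
  have hHB : HB h 0 N := by
    intro i
    have e1 := (hAd (cl i) (sx i)).2.2.1
    have e2 := has i
    have e3 : |((0 : ℕ) : ℤ) + h i| ≤ |(f (cl i) (sx i)).2| + |(f (cl i) (sx i)).1 * (s : ℤ)| := by
      rw [Nat.cast_zero, zero_add, hh]
      exact abs_add_le _ _
    have e4 : (0 : ℤ) ≤ s := Nat.cast_nonneg s
    linarith
  have hNd : Nd a h 0 := by
    intro j l hjl
    rcases j with _ | j <;> rcases l with _ | l
    · exact absurd rfl hjl
    · simp only [uB, wB]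
      have := hs2 l
      intro h0
      apply this
      have h5 : h l = 0 := by push_cast at h0; linarith
      exact h5
    · simp only [uB, wB]
      have := hs2 j
      intro h0
      apply this
      have h5 : h j = 0 := by push_cast at h0; linarith
      exact h5
    · have hne : j ≠ l := fun h => hjl (by rw [h])
      simp only [uB, wB]
      have hfne : f (cl j) (sx j) ≠ f (cl l) (sx l) := by
        intro h5
        apply hne
        have h6 := hinj (a₁ := (cl j, sx j)) (a₂ := (cl l, sx l)) h5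
        have h7 := Prod.ext_iff.1 h6
        rw [← ix_cl j, ← ix_cl l]
        simp only at h7
        rw [h7.1, h7.2]
      have := (hAd (cl j) (sx j)).np hN1 (hAd (cl l) (sx l)) hfne
      intro h0
      apply this
      push_cast at h0
      simp only [ha, hh] at h0
      linarith
  have hPR : PosR a h 0 N := by
    intro i x hx1 hx2
    have h5 := (hAd (cl i) (sx i)).2.2.2.2 x hx1 hx2
    have h6 := (abs_le.1 (has i)).1
    have h7 : (-((A : ℝ) * s) : ℝ) ≤ (f (cl i) (sx i)).1 * (s : ℝ) := by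
      have : ((-((A : ℤ) * s) : ℤ) : ℝ) ≤ (((f (cl i) (sx i)).1 * (s : ℤ) : ℤ) : ℝ) := by
        exact_mod_cast h6
      push_cast at this
      exact this
    have h8 : 100 * ((A : ℝ) * s + s) ≤ N := by exact_mod_cast hAsN
    have h9 : (0 : ℝ) ≤ s := Nat.cast_nonneg s
    simp only [ha, hh]
    push_cast
    linarith
  have hmem : a ∈ (Fintype.piFinset (fun _ : Fin (T * K) => Icc (-(A : ℤ)) A)).filter
      (fun a => ∀ i, a i ≠ 0) := by
    rw [mem_filter, Fintype.mem_piFinset]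
    exact ⟨fun i => mem_Icc.2 (abs_le.1 (hAd _ _).2.1), fun i => (hAd _ _).1⟩
  have hmain := hN2 a hmem h 0 hHB hNd hPR 1 hs3
  -- pigeonhole
  set Q : Finset (Finset (Fin T) × (Fin T → Fin K)) := univ.filter (fun q => M + 1 ≤ q.1.card)
    with hQ
  set B : Finset (Fin T) × (Fin T → Fin K) → Finset ℕ := fun q => (Icc 1 N).filter (fun n : ℕ =>
    ((N : ℝ) / 16 ≤ n ∧ (n : ℝ) ≤ N / 2) ∧
      ∀ g ∈ q.1, (Fm a h 0 (ix g (q.2 g)) n).toNat.Prime) with hB
  have hsub : (Icc 1 N).filter (fun n : ℕ => n ≡ 1 [MOD (WW D)] ∧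
        (N : ℝ) / 16 ≤ n ∧ (n : ℝ) ≤ N / 2 ∧
        M + 1 ≤ (univ.filter (fun g : Fin T => ∃ i, cl i = g ∧
          (Fm a h 0 i n).toNat.Prime)).card) ⊆ Q.biUnion B := by
    intro n hn
    rw [mem_filter] at hn
    obtain ⟨hn1, -, hn3, hn4, hn5⟩ := hn
    set S : Finset (Fin T) := univ.filter (fun g : Fin T => ∃ i, cl i = g ∧
          (Fm a h 0 i n).toNat.Prime) with hS
    have hex : ∀ g : Fin T, ∃ s : Fin K, g ∈ S → (Fm a h 0 (ix g s) n).toNat.Prime := by
      intro g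
      by_cases hg : g ∈ S
      · obtain ⟨i, hi1, hi2⟩ := (mem_filter.1 hg).2
        refine ⟨sx i, fun _ => ?_⟩
        rw [← hi1, ix_cl]
        exact hi2
      · exact ⟨0, fun h => absurd h hg⟩
    choose σ hσ using hex
    exact mem_biUnion.2 ⟨(S, σ), mem_filter.2 ⟨mem_univ _, hn5⟩,
      mem_filter.2 ⟨hn1, ⟨hn3, hn4⟩, fun g hg => hσ g hg⟩⟩
  have hbig : ∃ q ∈ Q, (N : ℝ) ^ (1 - η) ≤ ((B q).card : ℝ) := by
    by_contra hcon
    push Not at hcon
    have e1 := (Nat.cast_le (α := ℝ)).2 ((card_le_card hsub).trans card_biUnion_le)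
    rw [Nat.cast_sum] at e1
    have e2 : ∑ q ∈ Q, ((B q).card : ℝ) ≤ Q.card • (N : ℝ) ^ (1 - η) :=
      Finset.sum_le_card_nsmul _ _ _ (fun q hq => (hcon q hq).le)
    have e3 : Q.card ≤ P := by
      refine (card_le_univ _).trans ?_
      rw [Fintype.card_prod, Fintype.card_finset, Fintype.card_fun, Fintype.card_fin,
        Fintype.card_fin]
    have e4 : (Q.card : ℝ) ≤ P := by exact_mod_cast e3
    have e5 : (0 : ℝ) < (N : ℝ) ^ (1 - η) := Real.rpow_pos_of_pos hNpos _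
    have e6 : (N : ℝ) ^ (1 - η / 2) = (N : ℝ) ^ (η / 2) * (N : ℝ) ^ (1 - η) := by
      rw [← Real.rpow_add hNpos]
      congr 1
      ring
    rw [nsmul_eq_mul] at e2
    have e7 := hmain.trans (e1.trans (e2.trans (mul_le_mul_of_nonneg_right e4 e5.le)))
    rw [e6] at e7
    have e8 := le_of_mul_le_mul_right e7 e5
    linarith
  obtain ⟨⟨S, σ⟩, hq, hbig⟩ := hbig
  refine ⟨S, σ, (mem_filter.1 hq).2, hbig.trans ?_⟩
  rw [Nat.cast_le, ← card_image_of_injective (B (S, σ)) (add_left_injective s)]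
  apply card_le_card
  intro m hm
  obtain ⟨n, hn, rfl⟩ := mem_image.1 hm
  obtain ⟨hn1, ⟨hn2', hn2⟩, hn3⟩ := mem_filter.1 hn
  rw [mem_Icc] at hn1
  rw [mem_filter, mem_Icc]
  have hs0 : (s : ℝ) ≤ N / 2 := by
    have h8 : 100 * ((A : ℝ) * s + s) ≤ N := by exact_mod_cast hAsN
    have h9 : (0 : ℝ) ≤ (A : ℝ) * s := by positivity
    linarith
  have hns : ((n + s : ℕ) : ℝ) ≤ N := by push_cast; linarith
  have hs16 : (16 * s : ℝ) ≤ N := by
    have h8 : 100 * ((A : ℝ) * s + s) ≤ N := by exact_mod_cast hAsN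
    have h9 : (0 : ℝ) ≤ (A : ℝ) * s := by positivity
    have h10 : (0 : ℝ) ≤ (s : ℝ) := Nat.cast_nonneg s
    linarith
  have hr1 : N ≤ 16 * (n + s) := by
    have : (N : ℝ) ≤ ((16 * (n + s) : ℕ) : ℝ) := by
      push_cast
      have h10 : (0 : ℝ) ≤ (s : ℝ) := Nat.cast_nonneg s
      linarith
    exact_mod_cast this
  have hr2 : 16 * (n + s) ≤ 9 * N := by
    have : ((16 * (n + s) : ℕ) : ℝ) ≤ ((9 * N : ℕ) : ℝ) := by
      push_cast
      linarith
    exact_mod_cast this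
  refine ⟨⟨by omega, by exact_mod_cast hns⟩, hr1, hr2, fun g hg => ?_⟩
  have h5 := hn3 g hg
  have h6 : Fm a h 0 (ix g (σ g)) n = (f g (σ g)).1 * ((n + s : ℕ) : ℤ) + (f g (σ g)).2 := by
    unfold Fm
    simp only [ha, hh]
    have e1 : cl (ix g (σ g)) = g := cl_ix g (σ g)
    have e2 : sx (ix g (σ g)) = σ g := by
      unfold sx ix
      rw [Equiv.symm_apply_apply]
    rw [e1, e2]
    push_cast
    ring
  rw [h6] at h5
  exact h5

end Pool.Agent.X28.NT
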