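import Mathlib
import Pool.Agent.X28.NT.LamR
import Pool.Agent.X28.NT.Clus

/-! Clusters at the places of arbitrary linear forms: either one more form is hit, or all classes are hit. -/

set_option autoImplicit false

namespace Pool.Agent.X28.NT

open Finset Filter Topology
open Pool.Agent.Y827.GS (Adf)

/-- the product of the primes up to `B` -/
def prim (B : ℕ) : ℕ := ∏ p ∈ (range (B + 1)).filter Nat.Prime, p

theorem prim_pos (B : ℕ) : 0 < prim B := prod_pos fun _ hp => (mem_filter.1 hp).2.pos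

theorem dvd_prim {B p : ℕ} (hp : p.Prime) (h : p ≤ B) : p ∣ prim B :=
  dvd_prod_of_mem _ (mem_filter.2 ⟨mem_range.2 (by omega), hp⟩)

/-- the Chinese remainder theorem for the primes up to `B` -/
theorem crtA (B : ℕ) (R : ℕ → ℤ) : ∃ ρ : ℕ, ∀ p : ℕ, p.Prime → p ≤ B → (p : ℤ) ∣ ρ - R p := by
  classical
  obtain ⟨k, hk⟩ := Nat.chineseRemainderOfFinset (fun p => (R p % (p : ℤ)).toNat) (fun p => p)
    ((range (B + 1)).filter Nat.Prime) (fun p hp => (mem_filter.1 hp).2.ne_zero)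
    (by
      intro p hp q hq hne
      rw [Finset.mem_coe, mem_filter] at hp hq
      exact (Nat.coprime_primes hp.2 hq.2).2 hne)
  refine ⟨k, fun p hp hpB => ?_⟩
  have h1 := hk p (mem_filter.2 ⟨mem_range.2 (by omega), hp⟩)
  have hpz : (0 : ℤ) < p := by exact_mod_cast hp.pos
  have h2 : (((R p % (p : ℤ)).toNat : ℕ) : ℤ) = R p % p := Int.toNat_of_nonneg
    (Int.emod_nonneg _ hpz.ne')
  have h3 : (p : ℤ) ∣ (((R p % (p : ℤ)).toNat : ℕ) : ℤ) - (k : ℤ) := h1.dvd
  rw [h2] at h3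
  have h4 : (p : ℤ) ∣ R p - R p % p := Int.dvd_self_sub_emod
  have h5 : (k : ℤ) - R p = -((R p % p - k) + (R p - R p % p)) := by ring
  rw [h5]
  exact (dvd_add h3 h4).neg_right

open Classical in
/-- of `κ` linear forms `j + 1` are prime at the same time, after corrections by at most `C` -/
def Better (κ j A C N : ℕ) (η : ℝ) : Prop :=
  ∀ u v : Fin κ → ℤ, (∀ s, u s ≠ 0 ∧ |u s| ≤ A ∧ 16 * |v s| ≤ 15 * (N : ℤ)) →
    (∀ s, ∀ y : ℝ, (N : ℝ) / 16 ≤ y → y ≤ 9 * N / 16 → (N : ℝ) / 24 ≤ u s * y + v s) →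
    (∀ s s', s ≠ s' → u s = u s' → (C : ℤ) < |v s - v s'|) →
    ∃ (S : Finset (Fin κ)) (e : Fin κ → ℕ), j + 1 ≤ S.card ∧ (∀ s, e s ≤ C) ∧
      (N : ℝ) ^ (1 - η) ≤ (((Icc 1 N).filter (fun n : ℕ =>
        ∀ s ∈ S, (u s * n + (v s + e s)).toNat.Prime)).card : ℝ)

open Classical in
/-- all `n + x i` are prime for at least `N ^ (1 - η)` numbers `n ≤ R` -/
def TupR {T : ℕ} (R N : ℕ) (η : ℝ) (x : Fin T → ℕ) : Prop :=
  (N : ℝ) ^ (1 - η) ≤ (((Icc 1 R).filter (fun n : ℕ => ∀ i, (n + x i).Prime)).card : ℝ)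

open Classical in
theorem genD (κ j T : ℕ) (hj : 1 ≤ j) (hT : 1 ≤ T) (hκ : 18 * (j * T) < 5 * (κ * T) + 18) :
    ∃ K : ℕ, 1 ≤ K ∧ ∀ A L : ℕ, ∃ C : ℕ, ∀ η : ℝ, 0 < η → ∀ᶠ N : ℕ in atTop,
      Better κ j A C N η ∨
      ∀ X : Fin T → Fin K → ℕ, (∀ g i, X g i ≤ L) →
        Function.Injective (fun z : Fin T × Fin K => X z.1 z.2) →
        (∀ p : ℕ, p.Prime → ∃ r : ℤ, ∀ g i, ¬ ((p : ℤ) ∣ r + X g i)) →
        ∃ σ : Fin T → Fin K, TupR ((A + 1) * N) N η (fun g => X g (σ g)) := by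
  have hjT : 1 ≤ j * T := Nat.mul_pos hj hT
  have hκ1 : 1 ≤ κ := by
    rcases Nat.eq_zero_or_pos κ with h | h
    · rw [h] at hκ
      omega
    · exact h
  obtain ⟨M, hM⟩ : ∃ M : ℕ, M + 1 = j * T := ⟨j * T - 1, by omega⟩
  obtain ⟨K, hK, H⟩ := lamR (κ * T) M (Nat.mul_pos hκ1 hT) (by
    have h1 : 18 * M < 5 * (κ * T) := by omega
    have h2 : (18 : ℝ) * M < 5 * ((κ * T : ℕ) : ℝ) := by exact_mod_cast h1
    linarith)
  refine ⟨K, hK, fun A L => ?_⟩
  obtain ⟨B, hB⟩ : ∃ B : ℕ, B = κ * T * K + A := ⟨_, rfl⟩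
  obtain ⟨P, hP⟩ : ∃ P : ℕ, P = prim B := ⟨_, rfl⟩
  have hP0 : 0 < P := by rw [hP]; exact prim_pos _
  have hPz : (0 : ℤ) < P := by exact_mod_cast hP0
  refine ⟨P + L, fun η hη => ?_⟩
  filter_upwards [H A η hη, eventually_ge_atTop (16 * (P + L + 1))] with N hN hN1
  by_cases hA : Better κ j A (P + L) N η
  · exact Or.inl hA
  right
  unfold Better at hA
  push Not at hA
  obtain ⟨u, v, huv, hpos, hsep, hno⟩ := hA
  intro X hXL hXi hXadm
  have hex : ∀ p : ℕ, ∃ r : ℤ, p.Prime → ∀ g i, ¬ ((p : ℤ) ∣ r + X g i) := by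
    intro p
    by_cases hp : p.Prime
    · obtain ⟨r, hr⟩ := hXadm p hp
      exact ⟨r, fun _ => hr⟩
    · exact ⟨0, fun h => absurd h hp⟩
  choose R hR using hex
  obtain ⟨ρ, hρ⟩ := crtA B R
  have hρX : ∀ p : ℕ, p.Prime → p ≤ B → ∀ g i, ¬ ((p : ℤ) ∣ (ρ : ℤ) + X g i) := by
    intro p hp hpB g i hd
    apply hR p hp g i
    have h1 := dvd_sub hd (hρ p hp hpB)
    have h2 : (ρ : ℤ) + X g i - (ρ - R p) = R p + X g i := by ring
    rwa [h2] at h1
  -- the places of the clusters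
  obtain ⟨c, hc⟩ : ∃ c : Fin κ → ℤ, c = fun s => (ρ - v s) % P := ⟨_, rfl⟩
  have hc0 : ∀ s, 0 ≤ c s := fun s => by rw [hc]; exact Int.emod_nonneg _ hPz.ne'
  have hc1 : ∀ s, c s < P := fun s => by rw [hc]; exact Int.emod_lt_of_pos _ hPz
  have hcP : ∀ s, (P : ℤ) ∣ (v s + c s) - ρ := by
    intro s
    have h1 : (P : ℤ) ∣ (ρ - v s) - (ρ - v s) % P := Int.dvd_self_sub_emod
    have h2 : (v s + c s) - ρ = -((ρ - v s) - (ρ - v s) % P) := by rw [hc]; ring
    rw [h2]
    exact h1.neg_right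
  have hnd : ∀ p : ℕ, p.Prime → p ≤ B → ∀ s g i, ¬ ((p : ℤ) ∣ (v s + c s) + X g i) := by
    intro p hp hpB s g i hd
    apply hρX p hp hpB g i
    have h1 : (p : ℤ) ∣ (v s + c s) - ρ := by
      have : (p : ℤ) ∣ (P : ℤ) := by
        rw [hP]; exact_mod_cast dvd_prim hp hpB
      exact this.trans (hcP s)
    have h2 := dvd_sub hd h1
    have h3 : v s + c s + (X g i : ℤ) - (v s + c s - ρ) = ρ + X g i := by ring
    rwa [h3] at h2
  set cs : Fin (κ * T) → Fin κ := fun l => (finProdFinEquiv.symm l).1 with hcs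
  set ct : Fin (κ * T) → Fin T := fun l => (finProdFinEquiv.symm l).2 with hct
  have hext : ∀ i l, cs i = cs l → ct i = ct l → i = l := by
    intro i l h1 h2
    exact finProdFinEquiv.symm.injective (Prod.ext h1 h2)
  have hNz : (16 : ℤ) * (P + L + 1) ≤ N := by exact_mod_cast hN1
  obtain ⟨S, d, hS, hcnt⟩ := hN (fun l i => (u (cs l), (v (cs l) + c (cs l)) + X (ct l) i)) (by
      rintro ⟨l, i⟩ ⟨l', i'⟩ h
      simp only [Prod.mk.injEq] at h
      have l1 := hXL (ct l) i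
      have l2 := hXL (ct l') i'
      have hs : cs l = cs l' := by
        by_contra hne
        have h1 := hsep _ _ hne h.1
        have e1 := hc0 (cs l)
        have e2 := hc1 (cs l)
        have e3 := hc0 (cs l')
        have e4 := hc1 (cs l')
        have h2 : v (cs l) - v (cs l') = c (cs l') + X (ct l') i' - (c (cs l) + X (ct l) i) := by
          linarith [h.2]
        rw [h2] at h1
        push_cast at h1
        rcases lt_abs.1 h1 with h3 | h3
        · have e5 : (X (ct l') i' : ℤ) ≤ L := by exact_mod_cast l2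
          have e6 : (0 : ℤ) ≤ (X (ct l) i : ℤ) := Nat.cast_nonneg _
          linarith
        · have e5 : (X (ct l) i : ℤ) ≤ L := by exact_mod_cast l1
          have e6 : (0 : ℤ) ≤ (X (ct l') i' : ℤ) := Nat.cast_nonneg _
          linarith
      have h1 : X (ct l) i = X (ct l') i' := by
        have h2 := h.2
        rw [hs] at h2
        have h3 : ((X (ct l) i : ℕ) : ℤ) = ((X (ct l') i' : ℕ) : ℤ) := by linarith
        exact_mod_cast h3
      have h2 := hXi (show (fun z : Fin T × Fin K => X z.1 z.2) (ct l, i) =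
        (fun z : Fin T × Fin K => X z.1 z.2) (ct l', i') from h1)
      rw [Prod.mk.injEq] at h2
      rw [hext l l' hs h2.1, h2.2])
    (by
      intro l i
      obtain ⟨h1, h2, h3⟩ := huv (cs l)
      have e1 := hc0 (cs l)
      have e2 := hc1 (cs l)
      have l1 : ((X (ct l) i : ℕ) : ℤ) ≤ L := by exact_mod_cast hXL (ct l) i
      have l2 : (0 : ℤ) ≤ ((X (ct l) i : ℕ) : ℤ) := Nat.cast_nonneg _
      refine ⟨h1, h2, ?_, ?_, ?_⟩
      · show |v (cs l) + c (cs l) + (X (ct l) i : ℤ)| ≤ N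
        have h4 : |v (cs l) + c (cs l) + (X (ct l) i : ℤ)| ≤ |v (cs l)| + (P + L) := by
          rw [add_assoc]
          refine (abs_add_le _ _).trans ?_
          have h5 : |c (cs l) + (X (ct l) i : ℤ)| ≤ P + L := by
            rw [abs_of_nonneg (by linarith)]
            linarith
          linarith
        linarith
      · -- coprimality
        show IsCoprime (u (cs l)) (v (cs l) + c (cs l) + (X (ct l) i : ℤ))
        rw [Int.isCoprime_iff_gcd_eq_one]
        by_contra hg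
        obtain ⟨p, hp, hpd⟩ := Nat.exists_prime_and_dvd hg
        have hd1 : (p : ℤ) ∣ u (cs l) := (Int.natCast_dvd_natCast.2 hpd).trans (Int.gcd_dvd_left _ _)
        have hd2 : (p : ℤ) ∣ v (cs l) + c (cs l) + (X (ct l) i : ℤ) :=
          (Int.natCast_dvd_natCast.2 hpd).trans (Int.gcd_dvd_right _ _)
        have hpA : p ≤ A := by
          have h4 := Int.le_of_dvd (abs_pos.2 h1) ((dvd_abs _ _).2 hd1)
          have h5 : (p : ℤ) ≤ A := h4.trans h2
          exact_mod_cast h5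
        exact hnd p hp (by omega) _ _ _ hd2
      · intro y hy1 hy2
        have h4 := hpos (cs l) y hy1 (by
          have : (0 : ℝ) ≤ N := Nat.cast_nonneg _
          linarith)
        have h5 : (0 : ℝ) ≤ ((c (cs l) : ℤ) : ℝ) := by exact_mod_cast e1
        have h6 : (0 : ℝ) ≤ ((X (ct l) i : ℕ) : ℝ) := Nat.cast_nonneg _
        push_cast
        linarith)
    (by
      intro p hp hpk
      refine ⟨0, fun l i => ?_⟩
      show ¬ (p : ℤ) ∣ u (cs l) * 0 + (v (cs l) + c (cs l) + (X (ct l) i : ℤ))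
      rw [mul_zero, zero_add]
      exact hnd p hp (by omega) _ _ _)
  -- at most `j` clusters are hit
  have hcl : (S.image cs).card ≤ j := by
    by_contra hgt
    push Not at hgt
    have hex2 : ∀ s : Fin κ, ∃ l : Fin (κ * T), s ∈ S.image cs → l ∈ S ∧ cs l = s := by
      intro s
      by_cases hs : s ∈ S.image cs
      · obtain ⟨l, hl, hls⟩ := mem_image.1 hs
        exact ⟨l, fun _ => ⟨hl, hls⟩⟩
      · exact ⟨⟨0, Nat.mul_pos hκ1 hT⟩, fun h => absurd h hs⟩
    choose ℓ hℓ using hex2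
    refine absurd (hcnt.trans ?_) (not_le.2 (hno (S.image cs)
      (fun s => (c s).toNat + X (ct (ℓ s)) (d (ℓ s))) (by omega) (fun s => ?_)))
    · rw [Nat.cast_le]
      apply card_le_card
      intro n hn
      rw [mem_filter] at hn ⊢
      refine ⟨hn.1, fun s hs => ?_⟩
      obtain ⟨h1, h2⟩ := hℓ s hs
      have h3 : (u (cs (ℓ s)) * (n : ℤ) +
        (v (cs (ℓ s)) + c (cs (ℓ s)) + (X (ct (ℓ s)) (d (ℓ s)) : ℤ))).toNat.Prime :=
        hn.2.2.2 (ℓ s) h1
      rw [h2] at h3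
      have h4 : v s + (((c s).toNat + X (ct (ℓ s)) (d (ℓ s)) : ℕ) : ℤ) =
          v s + c s + (X (ct (ℓ s)) (d (ℓ s)) : ℤ) := by
        push_cast
        rw [Int.toNat_of_nonneg (hc0 s)]
        ring
      rw [h4]
      exact h3
    · have e1 := hc1 s
      have e2 := hXL (ct (ℓ s)) (d (ℓ s))
      have e3 := hc0 s
      omega
  -- all classes of a cluster which is hit are hit
  have hall : ∀ s ∈ S.image cs, ∀ g : Fin T, finProdFinEquiv (s, g) ∈ S := by
    by_contra hno2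
    push Not at hno2
    obtain ⟨s₀, hs₀, g₀, hg₀⟩ := hno2
    have h1 : S ⊆ (((S.image cs) ×ˢ (univ : Finset (Fin T))).image
        (fun z => finProdFinEquiv z)).erase (finProdFinEquiv (s₀, g₀)) := by
      intro l hl
      rw [Finset.mem_erase, Finset.mem_image]
      refine ⟨?_, (cs l, ct l), ?_, ?_⟩
      · intro h
        rw [h] at hl
        exact hg₀ hl
      · rw [Finset.mem_product]
        exact ⟨mem_image_of_mem _ hl, mem_univ _⟩
      · exact Equiv.apply_symm_apply finProdFinEquiv l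
    have h2 := card_le_card h1
    rw [card_erase_of_mem (by
      rw [Finset.mem_image]
      exact ⟨(s₀, g₀), by rw [Finset.mem_product]; exact ⟨hs₀, mem_univ _⟩, rfl⟩),
      card_image_of_injective _ finProdFinEquiv.injective, card_product, card_univ,
      Fintype.card_fin] at h2
    have h3 : (S.image cs).card * T ≤ j * T := Nat.mul_le_mul_right T hcl
    omega
  have hSne : S.Nonempty := by
    rw [← card_pos]; omega
  obtain ⟨l₀, hl₀⟩ := hSne
  obtain ⟨s, hs⟩ : ∃ s : Fin κ, s = cs l₀ := ⟨_, rfl⟩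
  have hsm : s ∈ S.image cs := by rw [hs]; exact mem_image_of_mem _ hl₀
  refine ⟨fun g => d (finProdFinEquiv (s, g)), ?_⟩
  unfold TupR
  refine hcnt.trans ?_
  rw [Nat.cast_le]
  obtain ⟨hu0, huA, hvN⟩ := huv s
  have hposm : ∀ n : ℕ, N ≤ 16 * n → 16 * n ≤ 9 * N → 1 ≤ u s * (n : ℤ) + (v s + c s) := by
    intro n h1 h2
    have h1' : (N : ℝ) ≤ 16 * n := by exact_mod_cast h1
    have h2' : (16 : ℝ) * n ≤ 9 * N := by exact_mod_cast h2
    have h3 := hpos s n (by linarith) (by linarith)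
    have hNr : (16 : ℝ) ≤ N := by
      have : 16 ≤ N := by omega
      exact_mod_cast this
    have h4 : (0 : ℝ) < ((u s * (n : ℤ) + v s : ℤ) : ℝ) := by
      push_cast
      linarith
    have h5 : 0 < u s * (n : ℤ) + v s := by exact_mod_cast h4
    have h6 := hc0 s
    linarith
  refine card_le_card_of_injOn (fun n => (u s * (n : ℤ) + (v s + c s)).toNat) ?_ ?_
  · intro n hn
    obtain ⟨h3, h4, h5, h6⟩ := mem_filter.1 hn
    rw [mem_Icc] at h3
    have h7 := hposm n h4 h5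
    rw [Finset.mem_coe, mem_filter, mem_Icc]
    refine ⟨⟨?_, ?_⟩, ?_⟩
    · show 1 ≤ (u s * (n : ℤ) + (v s + c s)).toNat
      omega
    · show (u s * (n : ℤ) + (v s + c s)).toNat ≤ (A + 1) * N
      have h8 : u s * (n : ℤ) ≤ A * n := by
        have : u s ≤ A := (le_abs_self _).trans huA
        exact mul_le_mul_of_nonneg_right this (Nat.cast_nonneg _)
      have h9 : (A : ℤ) * n ≤ A * N := by
        apply mul_le_mul_of_nonneg_left _ (Nat.cast_nonneg _)
        exact_mod_cast h3.2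
      have h10 := le_abs_self (v s)
      have h11 := hc1 s
      have h12 : u s * (n : ℤ) + (v s + c s) ≤ (((A + 1) * N : ℕ) : ℤ) := by
        push_cast
        linarith
      omega
    · intro g
      have h8 : (u (cs (finProdFinEquiv (s, g))) * (n : ℤ) +
        (v (cs (finProdFinEquiv (s, g))) + c (cs (finProdFinEquiv (s, g))) +
          (X (ct (finProdFinEquiv (s, g))) (d (finProdFinEquiv (s, g))) : ℤ))).toNat.Prime :=
        h6 _ (hall s hsm g)
      have h9 : cs (finProdFinEquiv (s, g)) = s := by rw [hcs]; simp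
      have h10 : ct (finProdFinEquiv (s, g)) = g := by rw [hct]; simp
      rw [h9, h10] at h8
      show ((u s * (n : ℤ) + (v s + c s)).toNat + X g (d (finProdFinEquiv (s, g)))).Prime
      have h11 : (u s * (n : ℤ) + (v s + c s)).toNat + X g (d (finProdFinEquiv (s, g))) =
          (u s * (n : ℤ) + (v s + c s + (X g (d (finProdFinEquiv (s, g))) : ℤ))).toNat := by
        omega
      rw [h11]
      exact h8
  · intro m hm n hn hmn
    obtain ⟨-, h4, h5, -⟩ := mem_filter.1 hm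
    obtain ⟨-, h4', h5', -⟩ := mem_filter.1 hn
    have h7 := hposm m h4 h5
    have h7' := hposm n h4' h5'
    simp only at hmn
    have h8 : u s * (m : ℤ) = u s * (n : ℤ) := by omega
    have h9 := mul_left_cancel₀ hu0 h8
    exact_mod_cast h9

open Classical in
/-- if all classes are hit, almost all tuples are hit -/
theorem densQ (r K : ℕ) (L : ℕ) (Q : (Fin (r + 1) → ℕ) → Prop)
    (hB : ∀ X : Fin (r + 1) → Fin K → ℕ, (∀ g i, X g i ≤ L) →
      Function.Injective (fun z : Fin (r + 1) × Fin K => X z.1 z.2) →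
      (∀ p : ℕ, p.Prime → ∃ r : ℤ, ∀ g i, ¬ ((p : ℤ) ∣ r + X g i)) →
      ∃ σ : Fin (r + 1) → Fin K, Q (fun g => X g (σ g)))
    (w H : ℕ) (hH : 1 ≤ H) (hwH : w + H ≤ L) :
    (((Fintype.piFinset (fun _ : Fin (r + 1) => Ioc w (w + H))).filter
      (fun x => Function.Injective x ∧ Adm x ∧ ¬ Q x)).card : ℝ) ≤
      ((((r + 1) * (K + 1)).factorial ^ (r + 1) * (8 * (K + 1)) : ℕ) : ℝ) *
        (H : ℝ) ^ ((r + 1 : ℝ) - 1 / ((K + 1 : ℕ) : ℝ) ^ r) := by
  obtain ⟨P, hP⟩ : ∃ P : ℕ, P = ((r + 1) * (K + 1)).factorial := ⟨_, rfl⟩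
  have hP0 : 0 < P := by rw [hP]; exact Nat.factorial_pos _
  rw [← hP]
  obtain ⟨Bad, hBad⟩ : ∃ Bad : Finset (Fin (r + 1) → ℕ),
    Bad = (Fintype.piFinset (fun _ : Fin (r + 1) => Ioc w (w + H))).filter
      (fun x => Function.Injective x ∧ Adm x ∧ ¬ Q x) := ⟨_, rfl⟩
  rw [← hBad]
  by_contra hcon
  push Not at hcon
  obtain ⟨Y, hY⟩ : ∃ Y : ℝ, Y = 8 * ((K + 1 : ℕ) : ℝ) *
    (H : ℝ) ^ ((r + 1 : ℝ) - 1 / ((K + 1 : ℕ) : ℝ) ^ r) := ⟨_, rfl⟩
  have hcon' : (P : ℝ) ^ (r + 1) * Y < Bad.card := by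
    refine lt_of_le_of_lt (le_of_eq ?_) hcon
    rw [hY]
    push_cast
    ring
  -- one class of residues
  obtain ⟨ρ, E, hE⟩ : ∃ ρ : Fin (r + 1) → ℕ, ∃ E : Finset (Fin (r + 1) → ℕ),
      (E = Bad.filter (fun x => (fun i => x i % P) = ρ)) ∧ Y ≤ E.card := by
    by_contra hno
    push Not at hno
    have h1 : ∀ x ∈ Bad, (fun i => x i % P) ∈
        Fintype.piFinset (fun _ : Fin (r + 1) => range P) := by
      intro x _
      rw [Fintype.mem_piFinset]
      intro i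
      rw [mem_range]
      exact Nat.mod_lt _ hP0
    have h2 := card_eq_sum_card_fiberwise h1
    have h3 : (Bad.card : ℝ) ≤ ∑ ρ ∈ Fintype.piFinset (fun _ : Fin (r + 1) => range P), Y := by
      rw [h2]
      push_cast
      apply sum_le_sum
      intro ρ _
      exact (hno ρ _ rfl).le
    rw [sum_const, nsmul_eq_mul, Fintype.card_piFinset] at h3
    simp only [card_range, prod_const, card_univ, Fintype.card_fin] at h3
    push_cast at h3
    linarith
  obtain ⟨hE1, hE2⟩ := hE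
  have hEB : E ⊆ Bad := by rw [hE1]; exact filter_subset _ _
  have hEm : ∀ x ∈ E, Function.Injective x ∧ Adm x ∧ ¬ Q x := by
    intro x hx
    have := hEB hx
    rw [hBad] at this
    exact (mem_filter.1 this).2
  have hEi : ∀ x ∈ E, ∀ i, x i ∈ Ioc w (w + H) := by
    intro x hx
    have := hEB hx
    rw [hBad] at this
    exact Fintype.mem_piFinset.1 (mem_filter.1 this).1
  have hEr : ∀ x ∈ E, ∀ i, x i % P = ρ i := by
    intro x hx i
    rw [hE1] at hx
    exact congrFun (mem_filter.1 hx).2 i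
  have hcard : (Ioc w (w + H)).card = H := by rw [Nat.card_Ioc]; omega
  by_cases hK0 : K = 0
  · -- no classes: nothing can be hit by an empty choice
    subst hK0
    obtain ⟨σ, -⟩ := hB (fun _ i => i.elim0) (fun _ i => i.elim0)
      (by rintro ⟨_, i⟩; exact i.elim0) (fun p _ => ⟨0, fun _ i => i.elim0⟩)
    exact (σ 0).elim0
  obtain ⟨A, hA, hAE⟩ := box_pow (K + 1) (by omega) r (Ioc w (w + H)) E (by
      intro x hx
      rw [Fintype.mem_piFinset]
      exact hEi x hx) (by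
      rw [← card_pos, hcard]; omega) (by
      rw [hcard]
      rw [hY] at hE2
      exact hE2)
  obtain ⟨X, hX⟩ : ∃ X : Fin (r + 1) → Fin K → ℕ,
    X = fun g i => (A g).orderEmbOfFin (hA g).2 (Fin.castLE (by omega) i) := ⟨_, rfl⟩
  have hXA : ∀ g i, X g i ∈ A g := by
    intro g i
    rw [hX]
    exact orderEmbOfFin_mem _ _ _
  have hne : ∀ g, (A g).Nonempty := by
    intro g
    rw [← card_pos, (hA g).2]
    omega
  choose a ha using hne
  have haE : ∀ f : Fin (r + 1) → ℕ, (∀ g, f g ∈ A g) → f ∈ E := fun f hf =>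
    hAE (Fintype.mem_piFinset.2 hf)
  have hdisj : ∀ g g', g ≠ g' → ∀ y, y ∈ A g → y ∈ A g' → False := by
    intro g g' hgg y hy hy'
    have h1 : (fun l => if l = g then y else if l = g' then y else a l) ∈ E := by
      apply haE
      intro l
      split_ifs with h1 h2
      · rw [h1]; exact hy
      · rw [h2]; exact hy'
      · exact ha l
    have h2 := (hEm _ h1).1 (a₁ := g) (a₂ := g') (by simp)
    exact hgg h2
  have hmodX : ∀ g i, X g i % P = ρ g := by
    intro g i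
    have h1 : (fun l => if l = g then X g i else a l) ∈ E := by
      apply haE
      intro l
      split_ifs with h1
      · rw [h1]; exact hXA g i
      · exact ha l
    have h2 := hEr _ h1 g
    simpa using h2
  have haE' : a ∈ E := haE a ha
  obtain ⟨σ, hσ⟩ := hB X (fun g i => by
      have h1 : (fun l => if l = g then X g i else a l) ∈ E := by
        apply haE
        intro l
        split_ifs with h1
        · rw [h1]; exact hXA g i
        · exact ha l
      have h2 := hEi _ h1 g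
      simp only [if_true, mem_Ioc] at h2
      omega) (by
      rintro ⟨g, i⟩ ⟨g', i'⟩ h
      simp only at h
      have hg : g = g' := by
        by_contra hne
        exact hdisj g g' hne (X g i) (hXA g i) (by rw [h]; exact hXA g' i')
      subst hg
      rw [hX] at h
      simp only at h
      have h1 := (orderEmbOfFin (A g) (hA g).2).injective h
      rw [Fin.castLE_inj] at h1
      rw [h1]) (by
      intro p hp
      by_cases hpk : p ≤ (r + 1) * (K + 1)
      · obtain ⟨z, hz⟩ := (hEm a haE').2.1 p hp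
        refine ⟨z, fun g i hd => hz g ?_⟩
        have hpP : p ∣ P := by rw [hP]; exact hp.dvd_factorial.2 hpk
        have h1 : X g i ≡ a g [MOD P] := by
          show X g i % P = a g % P
          rw [hmodX g i, hEr a haE' g]
        have h2 : X g i ≡ a g [MOD p] := h1.of_dvd hpP
        have h3 : ((p : ℕ) : ℤ) ∣ (a g : ℤ) - (X g i : ℤ) := h2.dvd
        have h4 := dvd_add hd h3
        have h5 : z + (X g i : ℤ) + ((a g : ℤ) - (X g i : ℤ)) = z + a g := by ring
        rwa [h5] at h4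
      · push Not at hpk
        obtain ⟨z, hz⟩ := Pool.Agent.H732R3.DickS.exists_avoid (ι := Fin (r + 1) × Fin K) hp (by
          rw [Fintype.card_prod, Fintype.card_fin, Fintype.card_fin]
          nlinarith) (fun _ => (1 : ℤ)) (fun w => (X w.1 w.2 : ℤ)) (fun w hw => by
            exfalso
            have h1 : p ∣ 1 := by exact_mod_cast hw
            exact hp.one_lt.ne' (Nat.dvd_one.1 h1))
        refine ⟨z, fun g i => ?_⟩
        have := hz (g, i)
        rwa [one_mul] at this)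
  exact (hEm _ (haE (fun g => X g (σ g)) (fun g => hXA _ _))).2.2 hσ

open Classical in
theorem mainD (κ j T : ℕ) (hj : 1 ≤ j) (hT : 1 ≤ T) (hκ : 18 * (j * T) < 5 * (κ * T) + 18) :
    ∃ K₀ : ℕ, 1 ≤ K₀ ∧ ∀ A L : ℕ, ∃ C : ℕ, ∀ η : ℝ, 0 < η → ∀ᶠ N : ℕ in atTop,
      Better κ j A C N η ∨ ∀ w H : ℕ, 1 ≤ H → w + H ≤ L →
      (((Fintype.piFinset (fun _ : Fin T => Ioc w (w + H))).filter
        (fun x => Function.Injective x ∧ Adm x ∧ ¬ TupR ((A + 1) * N) N η x)).card : ℝ) ≤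
        K₀ * (H : ℝ) ^ ((T : ℝ) - 1 / (K₀ : ℝ)) := by
  obtain ⟨K, hK, H⟩ := genD κ j T hj hT hκ
  obtain ⟨r, rfl⟩ : ∃ r : ℕ, T = r + 1 := ⟨T - 1, by omega⟩
  obtain ⟨Q, hQ⟩ : ∃ Q : ℕ, Q = ((r + 1) * (K + 1)).factorial ^ (r + 1) * (8 * (K + 1)) := ⟨_, rfl⟩
  have hQ1 : 1 ≤ Q := by
    rw [hQ]
    exact Nat.mul_pos (pow_pos (Nat.factorial_pos _) _) (by omega)
  refine ⟨Q + (K + 1) ^ r, by omega, fun A L => ?_⟩
  obtain ⟨C, HC⟩ := H A L
  refine ⟨C, fun η hη => ?_⟩
  filter_upwards [HC η hη] with N hN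
  rcases hN with hA | hB
  · exact Or.inl hA
  right
  intro w W hW hwW
  have h1 := densQ r K L (TupR ((A + 1) * N) N η) hB w W hW hwW
  refine h1.trans ?_
  rw [← hQ]
  have hW1 : (1 : ℝ) ≤ W := by exact_mod_cast hW
  have h2 : (W : ℝ) ^ ((r + 1 : ℝ) - 1 / ((K + 1 : ℕ) : ℝ) ^ r) ≤
      (W : ℝ) ^ (((r + 1 : ℕ) : ℝ) - 1 / ((Q + (K + 1) ^ r : ℕ) : ℝ)) := by
    apply Real.rpow_le_rpow_of_exponent_le hW1
    have h3 : (0 : ℝ) < ((K + 1 : ℕ) : ℝ) ^ r := by positivity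
    have h4 : ((K + 1 : ℕ) : ℝ) ^ r ≤ ((Q + (K + 1) ^ r : ℕ) : ℝ) := by
      push_cast
      have : (0 : ℝ) ≤ Q := Nat.cast_nonneg _
      linarith
    have h5 := one_div_le_one_div_of_le h3 h4
    push_cast at h5 ⊢
    linarith
  have h6 : (Q : ℝ) ≤ ((Q + (K + 1) ^ r : ℕ) : ℝ) := by
    push_cast
    have : (0 : ℝ) ≤ ((K : ℝ) + 1) ^ r := by positivity
    linarith
  calc (Q : ℝ) * (W : ℝ) ^ ((r + 1 : ℝ) - 1 / ((K + 1 : ℕ) : ℝ) ^ r)
      ≤ Q * (W : ℝ) ^ (((r + 1 : ℕ) : ℝ) - 1 / ((Q + (K + 1) ^ r : ℕ) : ℝ)) :=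
        mul_le_mul_of_nonneg_left h2 (Nat.cast_nonneg _)
    _ ≤ _ := mul_le_mul_of_nonneg_right h6 (Real.rpow_nonneg (Nat.cast_nonneg _) _)

theorem Better.mono {κ j A C N : ℕ} {η η' : ℝ} (hN : 1 ≤ N) (h : η ≤ η')
    (hb : Better κ j A C N η) : Better κ j A C N η' := by
  intro u v h1 h2 h3
  obtain ⟨S, e, hS, he, hc⟩ := hb u v h1 h2 h3
  refine ⟨S, e, hS, he, le_trans ?_ hc⟩
  exact Real.rpow_le_rpow_of_exponent_le (by exact_mod_cast hN) (by linarith)

open Classical in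
/-- infinitely often prime, and not too rarely at arbitrarily large scales -/
def Oft {T : ℕ} (x : Fin T → ℕ) : Prop :=
  ∀ η : ℝ, 0 < η → ∃ᶠ N : ℕ in atTop,
    (N : ℝ) ^ (1 - η) ≤ (((Icc 1 N).filter (fun n : ℕ => ∀ i, (n + x i).Prime)).card : ℝ)

theorem pos_min {α : Type*} (Z : Finset α) (f : α → ℝ) (hf : ∀ x ∈ Z, 0 < f x) (a : ℝ) (ha : 0 < a) :
    ∃ η : ℝ, 0 < η ∧ η ≤ a ∧ ∀ x ∈ Z, η ≤ f x := by
  classical
  induction Z using Finset.induction_on with
  | empty => exact ⟨a, ha, le_rfl, fun x hx => absurd hx (Finset.notMem_empty x)⟩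
  | insert y Z _ ih =>
    obtain ⟨η, h1, h2, h3⟩ := ih (fun x hx => hf x (Finset.mem_insert_of_mem hx))
    refine ⟨min η (f y), lt_min h1 (hf y (Finset.mem_insert_self _ _)),
      (min_le_left _ _).trans h2, fun x hx => ?_⟩
    rcases Finset.mem_insert.1 hx with rfl | hx
    · exact min_le_right _ _
    · exact (min_le_left _ _).trans (h3 x hx)

open Classical in
theorem limD : (∀ A : ℕ, ∃ C : ℕ, ∀ η : ℝ, 0 < η → ∀ᶠ N : ℕ in atTop, Better 18 5 A C N η) ∨
    (∀ T : ℕ, 1 ≤ T → ∃ K₀ : ℕ, 1 ≤ K₀ ∧ ∀ w H : ℕ, 1 ≤ H →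
      (((Fintype.piFinset (fun _ : Fin T => Ioc w (w + H))).filter
        (fun x => Function.Injective x ∧ Adm x ∧ ¬ Oft x)).card : ℝ) ≤
        K₀ * (H : ℝ) ^ ((T : ℝ) - 1 / (K₀ : ℝ))) := by
  by_cases hA : ∀ A : ℕ, ∃ C : ℕ, ∀ η : ℝ, 0 < η → ∀ᶠ N : ℕ in atTop, Better 18 5 A C N η
  · exact Or.inl hA
  right
  push Not at hA
  obtain ⟨A, hA⟩ := hA
  intro T hT
  obtain ⟨K₀, hK₀, H⟩ := mainD 18 5 T (by norm_num) hT (by
    have : 18 * (5 * T) = 5 * (18 * T) := by ring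
    omega)
  refine ⟨K₀, hK₀, fun w W hW => ?_⟩
  obtain ⟨C, HC⟩ := H A (w + W)
  obtain ⟨η₀, hη₀, hfr⟩ := hA C
  by_contra hcon
  push Not at hcon
  obtain ⟨Z, hZ⟩ : ∃ Z : Finset (Fin T → ℕ), Z =
    (Fintype.piFinset (fun _ : Fin T => Ioc w (w + W))).filter
        (fun x => Function.Injective x ∧ Adm x ∧ ¬ Oft x) := ⟨_, rfl⟩
  rw [← hZ] at hcon
  have hex : ∀ x : Fin T → ℕ, ∃ η : ℝ, x ∈ Z → 0 < η ∧ ∀ᶠ N : ℕ in atTop,
      (((Icc 1 N).filter (fun n : ℕ => ∀ i, (n + x i).Prime)).card : ℝ) < (N : ℝ) ^ (1 - η) := by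
    intro x
    by_cases hx : x ∈ Z
    · have h1 : ¬ Oft x := by
        rw [hZ] at hx
        exact (mem_filter.1 hx).2.2.2
      unfold Oft at h1
      push Not at h1
      obtain ⟨η, h2, h3⟩ := h1
      exact ⟨η, fun _ => ⟨h2, h3⟩⟩
    · exact ⟨0, fun h => absurd h hx⟩
  choose f hf using hex
  obtain ⟨η, hη, hηη₀, hηf⟩ := pos_min Z f (fun x hx => (hf x hx).1) η₀ hη₀
  -- the tuples of `Z` are bad at all large scales
  have hbad : ∀ᶠ N : ℕ in atTop, ∀ x ∈ Z, ¬ TupR ((A + 1) * N) N (η / 2) x := by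
    rw [Filter.eventually_all_finset]
    intro x hx
    obtain ⟨h1, h2⟩ := hf x hx
    have h3 : Tendsto (fun N : ℕ => (A + 1) * N) atTop atTop :=
      tendsto_id.const_mul_atTop' (Nat.succ_pos A)
    have h4 : ∀ᶠ N : ℕ in atTop, ((A + 1 : ℕ) : ℝ) ≤ (N : ℝ) ^ (η / 2) :=
      ((tendsto_rpow_atTop (by positivity)).comp tendsto_natCast_atTop_atTop).eventually_ge_atTop _
    filter_upwards [h3.eventually h2, h4, eventually_ge_atTop 1] with N e1 e2 e3
    unfold TupR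
    rw [not_le]
    refine e1.trans_le ?_
    have hNpos : (0 : ℝ) < N := by exact_mod_cast e3
    have hN1 : (1 : ℝ) ≤ N := by exact_mod_cast e3
    have hA1 : (1 : ℝ) ≤ ((A + 1 : ℕ) : ℝ) := by
      have : 1 ≤ A + 1 := by omega
      exact_mod_cast this
    have e4 : (((A + 1) * N : ℕ) : ℝ) ^ (1 - f x) = ((A + 1 : ℕ) : ℝ) ^ (1 - f x) * (N : ℝ) ^ (1 - f x) := by
      rw [Nat.cast_mul, Real.mul_rpow (by positivity) hNpos.le]
    have e5 : ((A + 1 : ℕ) : ℝ) ^ (1 - f x) ≤ ((A + 1 : ℕ) : ℝ) := by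
      calc ((A + 1 : ℕ) : ℝ) ^ (1 - f x) ≤ ((A + 1 : ℕ) : ℝ) ^ (1 : ℝ) :=
            Real.rpow_le_rpow_of_exponent_le hA1 (by linarith)
        _ = _ := Real.rpow_one _
    have e6 : (N : ℝ) ^ (1 - f x) ≤ (N : ℝ) ^ (1 - η) :=
      Real.rpow_le_rpow_of_exponent_le hN1 (by linarith [hηf x hx])
    rw [e4]
    calc ((A + 1 : ℕ) : ℝ) ^ (1 - f x) * (N : ℝ) ^ (1 - f x)
        ≤ (N : ℝ) ^ (η / 2) * (N : ℝ) ^ (1 - η) :=
          mul_le_mul (e5.trans e2) e6 (Real.rpow_nonneg hNpos.le _) (Real.rpow_nonneg hNpos.le _)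
      _ = (N : ℝ) ^ (1 - η / 2) := by
          rw [← Real.rpow_add hNpos]
          congr 1
          ring
  obtain ⟨N, hN1, hN2, hN3, hN4⟩ := (hfr.and_eventually
    ((HC (η / 2) (by positivity)).and (hbad.and (eventually_ge_atTop 1)))).exists
  rcases hN2 with hb | hb
  · exact hN1 (hb.mono hN4 (by linarith))
  · have h1 := hb w W hW le_rfl
    have h2 : Z ⊆ (Fintype.piFinset (fun _ : Fin T => Ioc w (w + W))).filter
        (fun x => Function.Injective x ∧ Adm x ∧ ¬ TupR ((A + 1) * N) N (η / 2) x) := by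
      intro x hx
      have h3 := hN3 x hx
      rw [hZ] at hx
      obtain ⟨h4, h5, h6, -⟩ := mem_filter.1 hx
      exact mem_filter.2 ⟨h4, h5, h6, h3⟩
    have h3 : (Z.card : ℝ) ≤ K₀ * (W : ℝ) ^ ((T : ℝ) - 1 / (K₀ : ℝ)) :=
      le_trans (by exact_mod_cast card_le_card h2) h1
    linarith

end Pool.Agent.X28.NT
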