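import Mathlib
import Pool.Agent.X28.NT.Om
import Pool.Agent.X28.NT.Far3

/-! Clusters of shifts in a residue class in which all the other shifts are composite. -/

set_option autoImplicit false

namespace Pool.Agent.X28.NT

open Finset Filter Topology
open Pool.Agent.W25.UN
open Pool.Agent.W25.UB (CopAt)
open Pool.Agent.H410R2 (WW)
open Pool.Agent.TH899.UG
open Pool.Agent.TH899.UG.Uni
open Pool.Agent.Y827.LS
open Pool.Agent.Y827.GS

open Classical in
/-- `κ` clusters at the positions `t s`, all other shifts up to `L` are blocked -/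
theorem farC (κ T M : ℕ) (hκ : 1 ≤ κ) (hT : 1 ≤ T) (hM : (18 / 5 : ℝ) * M < κ * T) :
    ∃ K : ℕ, 1 ≤ K ∧ ∀ L : ℕ, ∃ P : ℕ, 0 < P ∧ ∀ η : ℝ, 0 < η → ∀ᶠ N : ℕ in atTop,
      ∀ t : Fin κ → ℕ, (∀ s, P ∣ t s) → (∀ s, 4 * t s ≤ 3 * N) →
      (∀ s s', s ≠ s' → t s ≤ t s' → t s + L < t s' ∧
        ∀ d : ℕ, t s' ≤ t s + d + L → t s + d ≤ t s' + L → ¬ DifS N η d) →
      ∀ X : Fin T → Fin K → ℕ, (∀ g i, X g i ≤ L) →
        Function.Injective (fun z : Fin T × Fin K => X z.1 z.2) →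
        (∀ p : ℕ, p.Prime → ∃ r : ℤ, ∀ g i, ¬ ((p : ℤ) ∣ r + X g i)) →
        ∃ (S : Finset (Fin T)) (σ : Fin T → Fin K), M + 1 ≤ S.card ∧
          (N : ℝ) ^ (1 - η) ≤ (((Icc 1 (2 * N)).filter (fun n : ℕ =>
            (∀ g ∈ S, (n + X g (σ g)).Prime) ∧
            ∀ y : ℕ, y ≤ L → (∀ g i, X g i ≠ y) → ¬ (n + y).Prime)).card : ℝ) := by
  obtain ⟨K, hK, D₀, H⟩ := thmG (κ * T) M (Nat.mul_pos hκ hT) (by push_cast; exact hM)
  refine ⟨K, by omega, fun L => ?_⟩
  -- the blocking primes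
  obtain ⟨B, hB⟩ : ∃ B : ℕ, B = L + 1 + κ * T * K := ⟨_, rfl⟩
  obtain ⟨pp, hpp⟩ : ∃ pp : ℕ → ℕ, pp = fun y => Nat.nth Nat.Prime (B + y) := ⟨_, rfl⟩
  have hppP : ∀ y, (pp y).Prime := fun y => by rw [hpp]; exact Nat.prime_nth_prime _
  have hppB : ∀ y, B < pp y := fun y => by
    rw [hpp]
    have h1 := Nat.add_two_le_nth_prime (B + y)
    show B < Nat.nth Nat.Prime (B + y)
    omega
  have hppi : ∀ y z, pp y = pp z → y = z := fun y z h => by
    rw [hpp] at h
    have := Nat.nth_injective Nat.infinite_setOfPred_prime h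
    omega
  obtain ⟨D, hD⟩ : ∃ D : ℕ, D = D₀ + 1 + ∑ y ∈ range (L + 1), pp y := ⟨_, rfl⟩
  have hppD : ∀ y, y ≤ L → pp y ≤ D := fun y hy => by
    have h1 : pp y ≤ ∑ y ∈ range (L + 1), pp y :=
      single_le_sum (f := pp) (fun i _ => Nat.zero_le _) (mem_range.2 (by omega))
    omega
  obtain ⟨W, hW⟩ : ∃ W : ℕ, W = WW D := ⟨_, rfl⟩
  have hW0 : 0 < W := by
    rw [hW, WW]; exact prod_pos fun p hp => (mem_filter.1 hp).2.pos
  have hWd : ∀ p : ℕ, p.Prime → p ≤ D → p ∣ W := by
    intro p hp hpD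
    rw [hW, WW]
    exact dvd_prod_of_mem _ (mem_filter.2 ⟨mem_Icc.2 ⟨hp.one_lt.le, hpD⟩, hp⟩)
  refine ⟨W, hW0, fun η hη => ?_⟩
  have h2 := H D (by omega) (fun _ : Fin (κ * T * K) => (1 : ℤ)) cl card_cl (fun _ => trivial)
    (fun _ => one_ne_zero) (fun _ => by simp; omega) (η / 2) (by positivity)
  set Pc : ℕ := 2 ^ (κ * T) * K ^ (κ * T) with hPc
  have h3 : ∀ᶠ N : ℕ in atTop, (Pc : ℝ) < (N : ℝ) ^ (η / 2) :=
    ((tendsto_rpow_atTop (by positivity)).comp tendsto_natCast_atTop_atTop).eventually_gt_atTop _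
  filter_upwards [h2, h3, eventually_ge_atTop (16 * (2 * W + L + D + 1))] with N hN hN3 hN1
  intro t htW ht4 hcl X hXL hXi hXadm
  have hNpos : (0 : ℝ) < N := by
    have : 0 < N := by omega
    exact_mod_cast this
  have : NeZero K := ⟨by omega⟩
  -- the residues
  have hex : ∀ p : ℕ, ∃ r : ℤ, p.Prime → ∀ g i, ¬ ((p : ℤ) ∣ r + X g i) := by
    intro p
    by_cases hp : p.Prime
    · obtain ⟨r, hr⟩ := hXadm p hp
      exact ⟨r, fun _ => hr⟩
    · exact ⟨0, fun h => absurd h hp⟩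
  choose R hR using hex
  obtain ⟨R', hR'⟩ : ∃ R' : ℕ → ℤ,
      (∀ p : ℕ, p.Prime → ∀ g i, ¬ ((p : ℤ) ∣ R' p + X g i)) ∧
      ∀ y : ℕ, y ≤ L → (∀ g i, X g i ≠ y) → R' (pp y) = -(y : ℤ) := by
    refine ⟨fun p => if h : ∃ y : ℕ, y ≤ L ∧ (∀ g i, X g i ≠ y) ∧ pp y = p then
      -((Classical.choose h : ℕ) : ℤ) else R p, ?_, ?_⟩
    · intro p hp g i
      by_cases h : ∃ y : ℕ, y ≤ L ∧ (∀ g i, X g i ≠ y) ∧ pp y = p
      · simp only [dif_pos h]
        obtain ⟨h4, h5, h6⟩ := Classical.choose_spec h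
        set y := Classical.choose h with hy
        intro hd
        have h7 := hXL g i
        have h8 := h5 g i
        have h9 : ((X g i : ℤ) - y) ≠ 0 := by
          intro h10
          apply h8
          have : (X g i : ℤ) = y := by linarith
          exact_mod_cast this
        have h10 : (p : ℤ) ∣ (X g i : ℤ) - y := by
          have : -(y : ℤ) + X g i = (X g i : ℤ) - y := by ring
          rwa [this] at hd
        have h11 := Int.le_of_dvd (abs_pos.2 h9) ((dvd_abs _ _).2 h10)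
        have h12 : |(X g i : ℤ) - y| ≤ L := by
          rw [abs_le]
          constructor <;> omega
        have h13 := hppB y
        rw [h6] at h13
        omega
      · simp only [dif_neg h]
        exact hR p hp g i
    · intro y hy hyX
      have h : ∃ y' : ℕ, y' ≤ L ∧ (∀ g i, X g i ≠ y') ∧ pp y' = pp y := ⟨y, hy, hyX, rfl⟩
      simp only [dif_pos h]
      have h5 := (Classical.choose_spec h).2.2
      rw [hppi _ _ h5]
  obtain ⟨hR1, hR2⟩ := hR'
  obtain ⟨c₀, hc₀⟩ := crtA D (fun p => R' p - 1)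
  -- the shift
  obtain ⟨c, hc⟩ : ∃ c : ℕ, c = c₀ % W + W := ⟨_, rfl⟩
  have hc1 : 1 ≤ c := by omega
  have hc2 : c ≤ 2 * W := by
    have := Nat.mod_lt c₀ hW0
    omega
  have hcp : ∀ p : ℕ, p.Prime → p ≤ D → (p : ℤ) ∣ ((c : ℕ) : ℤ) - (R' p - 1) := by
    intro p hp hpD
    have h4 : (p : ℤ) ∣ (W : ℤ) := by exact_mod_cast hWd p hp hpD
    have h5 : (W : ℤ) ∣ ((c : ℕ) : ℤ) - c₀ := by
      have h6 : (((c₀ % W : ℕ) : ℕ) : ℤ) = (c₀ : ℤ) % (W : ℤ) := by push_cast; rfl
      have h7 : (W : ℤ) ∣ (c₀ : ℤ) - (c₀ : ℤ) % (W : ℤ) := Int.dvd_self_sub_emod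
      rw [hc]
      push_cast
      have h8 : (c₀ : ℤ) % (W : ℤ) + W - c₀ = -((c₀ : ℤ) - (c₀ : ℤ) % (W : ℤ)) + W := by ring
      rw [h8]
      exact dvd_add h7.neg_right dvd_rfl
    have h6 := dvd_add (h4.trans h5) (hc₀ p hp hpD)
    have h7 : ((c : ℕ) : ℤ) - c₀ + (((c₀ : ℕ) : ℤ) - (R' p - 1)) = c - (R' p - 1) := by ring
    rwa [h7] at h6
  have htp : ∀ p : ℕ, p.Prime → p ≤ D → ∀ s, (p : ℤ) ∣ ((t s : ℕ) : ℤ) := by
    intro p hp hpD s
    have : p ∣ t s := (hWd p hp hpD).trans (htW s)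
    exact_mod_cast this
  set cs : Fin (κ * T) → Fin κ := fun l => (finProdFinEquiv.symm l).1 with hcs
  set ct : Fin (κ * T) → Fin T := fun l => (finProdFinEquiv.symm l).2 with hct
  have hext : ∀ i l, cs i = cs l → ct i = ct l → i = l := by
    intro i l h1 h2
    exact finProdFinEquiv.symm.injective (Prod.ext h1 h2)
  have hsep : ∀ s s', s ≠ s' → t s + L < t s' ∨ t s' + L < t s := by
    intro s s' hne
    rcases le_total (t s) (t s') with h | h
    · exact Or.inl (hcl s s' hne h).1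
    · exact Or.inr (hcl s' s (Ne.symm hne) h).1
  obtain ⟨hh, hhd⟩ : ∃ hh : Fin (κ * T * K) → ℤ, hh = fun i =>
    (((c + t (cs (cl i)) + X (ct (cl i)) (sx i) : ℕ) : ℕ) : ℤ) := ⟨_, rfl⟩
  have hhne : ∀ i l, i ≠ l → hh i ≠ hh l := by
    intro i l hne he
    rw [hhd] at he
    simp only at he
    have he' : c + t (cs (cl i)) + X (ct (cl i)) (sx i) =
        c + t (cs (cl l)) + X (ct (cl l)) (sx l) := by exact_mod_cast he
    have l1 := hXL (ct (cl i)) (sx i)
    have l2 := hXL (ct (cl l)) (sx l)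
    have hs : cs (cl i) = cs (cl l) := by
      by_contra hne2
      rcases hsep _ _ hne2 with h1 | h1 <;> omega
    rw [hs] at he'
    have h1 : X (ct (cl i)) (sx i) = X (ct (cl l)) (sx l) := by omega
    have h2 := hXi (show (fun z : Fin T × Fin K => X z.1 z.2) (ct (cl i), sx i) =
        (fun z : Fin T × Fin K => X z.1 z.2) (ct (cl l), sx l) from h1)
    rw [Prod.mk.injEq] at h2
    apply hne
    rw [← ix_cl i, ← ix_cl l, hext _ _ hs h2.1, h2.2]
  have hmain := hN hh 0 (by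
      intro i
      rw [hhd]
      have l1 := hXL (ct (cl i)) (sx i)
      have l2 := ht4 (cs (cl i))
      show 16 * |((0 : ℕ) : ℤ) + (((c + t (cs (cl i)) + X (ct (cl i)) (sx i) : ℕ) : ℕ) : ℤ)| ≤
        21 * (N : ℤ)
      rw [Nat.cast_zero, zero_add, abs_of_nonneg (Nat.cast_nonneg _)]
      omega) (by
      intro j l hjl
      rcases j with _ | j <;> rcases l with _ | l
      · exact absurd rfl hjl
      · simp only [uB, wB]
        rw [hhd]
        intro h0
        push_cast at h0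
        have e1 : (0 : ℤ) ≤ (t (cs (cl l)) : ℤ) := Nat.cast_nonneg _
        have e2 : (0 : ℤ) ≤ (X (ct (cl l)) (sx l) : ℤ) := Nat.cast_nonneg _
        have e3 : (1 : ℤ) ≤ (c : ℤ) := by exact_mod_cast hc1
        linarith
      · simp only [uB, wB]
        rw [hhd]
        intro h0
        push_cast at h0
        have e1 : (0 : ℤ) ≤ (t (cs (cl j)) : ℤ) := Nat.cast_nonneg _
        have e2 : (0 : ℤ) ≤ (X (ct (cl j)) (sx j) : ℤ) := Nat.cast_nonneg _
        have e3 : (1 : ℤ) ≤ (c : ℤ) := by exact_mod_cast hc1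
        linarith
      · have hne : l ≠ j := fun h => hjl (by rw [h])
        simp only [uB, wB]
        intro h0
        apply hhne l j hne
        push_cast at h0
        linarith) (by
      intro i y hy1 hy2
      rw [hhd]
      have e1 : (0 : ℝ) ≤ (((c + t (cs (cl i)) + X (ct (cl i)) (sx i) : ℕ) : ℕ) : ℝ) :=
        Nat.cast_nonneg _
      have e2 : (N : ℝ) / 32 ≤ N / 16 := by linarith
      push_cast at e1 ⊢
      linarith) 1 (by
      intro j n hn
      have eW : ((WW D : ℕ) : ℤ) = ∏ p ∈ (Icc 1 D).filter Nat.Prime, (p : ℤ) := by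
        rw [WW]; push_cast; rfl
      rw [eW]
      refine IsCoprime.prod_right fun p hp => ?_
      have hpp0 := (mem_filter.1 hp).2
      have hpD : p ≤ D := (mem_Icc.1 (mem_filter.1 hp).1).2
      have hpp1 := Nat.prime_iff_prime_int.1 hpp0
      have hpW : (p : ℤ) ∣ ((WW D : ℕ) : ℤ) := by
        rw [← hW]; exact_mod_cast hWd p hpp0 hpD
      have hn1 : (p : ℤ) ∣ n - 1 := by
        have h1 := (Int.modEq_iff_dvd.1 hn.symm)
        exact hpW.trans (by exact_mod_cast h1)
      refine (hpp1.coprime_iff_not_dvd.2 ?_).symm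
      rcases j with _ | i
      · intro hd
        have h1 : (p : ℤ) ∣ n := by
          have : uB (fun _ : Fin (κ * T * K) => (1 : ℤ)) none * n + wB hh 0 none = n := by
            simp [uB, wB]
          rwa [this] at hd
        have h2 : (p : ℤ) ∣ 1 := by
          have := dvd_sub h1 hn1
          rwa [sub_sub_cancel] at this
        exact hpp1.not_isUnit (isUnit_of_dvd_one h2)
      · intro hd
        have e0 : uB (fun _ : Fin (κ * T * K) => (1 : ℤ)) (some i) * n + wB hh 0 (some i) =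
            n + ((c : ℤ) + (t (cs (cl i)) : ℤ) + (X (ct (cl i)) (sx i) : ℤ)) := by
          simp only [uB, wB, hhd]
          push_cast
          ring
        rw [e0] at hd
        apply hR1 p hpp0 (ct (cl i)) (sx i)
        have h4 := hcp p hpp0 hpD
        have h5 := htp p hpp0 hpD (cs (cl i))
        have h6 := dvd_sub hd (dvd_add (dvd_add hn1 h4) h5)
        have h7 : n + ((c : ℤ) + (t (cs (cl i)) : ℤ) + (X (ct (cl i)) (sx i) : ℤ)) -
            ((n - 1) + ((c : ℤ) - (R' p - 1)) + (t (cs (cl i)) : ℤ)) =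
            R' p + X (ct (cl i)) (sx i) := by ring
        rwa [h7] at h6)
  -- pigeonhole
  set Q : Finset (Finset (Fin (κ * T)) × (Fin (κ * T) → Fin K)) :=
    univ.filter (fun q => M + 1 ≤ q.1.card) with hQ
  set Bq : Finset (Fin (κ * T)) × (Fin (κ * T) → Fin K) → Finset ℕ := fun q =>
    (Icc 1 N).filter (fun n : ℕ => (n ≡ 1 [MOD (WW D)] ∧ (N : ℝ) / 16 ≤ n) ∧
      ∀ l ∈ q.1, (n + (c + t (cs l) + X (ct l) (q.2 l))).Prime) with hBq
  have hsub : (Icc 1 N).filter (fun n : ℕ => n ≡ 1 [MOD (WW D)] ∧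
        (N : ℝ) / 16 ≤ n ∧ (n : ℝ) ≤ N / 2 ∧
        M + 1 ≤ (univ.filter (fun g : Fin (κ * T) => ∃ i, cl i = g ∧
          (Fm (fun _ : Fin (κ * T * K) => (1 : ℤ)) hh 0 i n).toNat.Prime)).card) ⊆ Q.biUnion Bq := by
    intro n hn
    rw [mem_filter] at hn
    obtain ⟨hn1, hn2, hn3, hn4, hn5⟩ := hn
    set S : Finset (Fin (κ * T)) := univ.filter (fun g : Fin (κ * T) => ∃ i, cl i = g ∧
          (Fm (fun _ : Fin (κ * T * K) => (1 : ℤ)) hh 0 i n).toNat.Prime) with hS
    have hex : ∀ g : Fin (κ * T), ∃ s : Fin K, g ∈ S →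
        (n + (c + t (cs g) + X (ct g) s)).Prime := by
      intro g
      by_cases hg : g ∈ S
      · obtain ⟨i, hi1, hi2⟩ := (mem_filter.1 hg).2
        refine ⟨sx i, fun _ => ?_⟩
        have h4 : (Fm (fun _ : Fin (κ * T * K) => (1 : ℤ)) hh 0 i n).toNat =
            n + (c + t (cs g) + X (ct g) (sx i)) := by
          unfold Fm
          rw [hhd]
          simp only [hi1]
          omega
        rwa [h4] at hi2
      · exact ⟨0, fun h => absurd h hg⟩
    choose σ hσ using hex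
    exact mem_biUnion.2 ⟨(S, σ), mem_filter.2 ⟨mem_univ _, hn5⟩,
      mem_filter.2 ⟨hn1, ⟨hn2, hn3⟩, fun g hg => hσ g hg⟩⟩
  have hbig : ∃ q ∈ Q, (N : ℝ) ^ (1 - η) ≤ ((Bq q).card : ℝ) := by
    by_contra hcon
    push Not at hcon
    have e1 := (Nat.cast_le (α := ℝ)).2 ((card_le_card hsub).trans card_biUnion_le)
    rw [Nat.cast_sum] at e1
    have e2 : ∑ q ∈ Q, ((Bq q).card : ℝ) ≤ Q.card • (N : ℝ) ^ (1 - η) :=
      Finset.sum_le_card_nsmul _ _ _ (fun q hq => (hcon q hq).le)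
    have e3 : Q.card ≤ Pc := by
      refine (card_le_univ _).trans ?_
      rw [Fintype.card_prod, Fintype.card_finset, Fintype.card_fun, Fintype.card_fin,
        Fintype.card_fin]
    have e4 : (Q.card : ℝ) ≤ Pc := by exact_mod_cast e3
    have e5 : (0 : ℝ) < (N : ℝ) ^ (1 - η) := Real.rpow_pos_of_pos hNpos _
    have e6 : (N : ℝ) ^ (1 - η / 2) = (N : ℝ) ^ (η / 2) * (N : ℝ) ^ (1 - η) := by
      rw [← Real.rpow_add hNpos]
      congr 1
      ring
    rw [nsmul_eq_mul] at e2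
    have e7 := hmain.trans (e1.trans (e2.trans (mul_le_mul_of_nonneg_right e4 e5.le)))
    rw [e6] at e7
    have e8 := le_of_mul_le_mul_right e7 e5
    linarith
  obtain ⟨⟨S, d⟩, hq, hbig⟩ := hbig
  have hScard : M + 1 ≤ S.card := (mem_filter.1 hq).2
  -- all the classes which are hit are in one cluster
  have key : ∀ l ∈ S, ∀ l' ∈ S, cs l ≠ cs l' → t (cs l) ≤ t (cs l') → False := by
    intro l hl l' hl' hne hle
    obtain ⟨h1, h2⟩ := hcl _ _ hne hle
    have l1 := hXL (ct l) (d l)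
    have l2 := hXL (ct l') (d l')
    refine h2 (t (cs l') + X (ct l') (d l') - (t (cs l) + X (ct l) (d l))) (by omega) (by omega) ?_
    unfold DifS
    refine hbig.trans ?_
    rw [Nat.cast_le]
    refine card_le_card_of_injOn (fun n => n + (c + t (cs l) + X (ct l) (d l))) ?_ ?_
    · intro n hn
      obtain ⟨h3, -, h5⟩ := mem_filter.1 hn
      rw [mem_Icc] at h3
      rw [Finset.mem_coe, mem_filter, mem_Icc]
      have l3 := ht4 (cs l)
      have h6 : (n + (c + t (cs l) + X (ct l) (d l))).Prime := h5 l hl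
      have h7 : (n + (c + t (cs l') + X (ct l') (d l'))).Prime := h5 l' hl'
      refine ⟨⟨?_, ?_⟩, h6, ?_⟩
      · exact h6.one_lt.le
      · show n + (c + t (cs l) + X (ct l) (d l)) ≤ 2 * N
        omega
      · show (n + (c + t (cs l) + X (ct l) (d l)) +
          (t (cs l') + X (ct l') (d l') - (t (cs l) + X (ct l) (d l)))).Prime
        have h8 : n + (c + t (cs l) + X (ct l) (d l)) +
          (t (cs l') + X (ct l') (d l') - (t (cs l) + X (ct l) (d l))) =
          n + (c + t (cs l') + X (ct l') (d l')) := by omega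
        rwa [h8]
    · intro m _ n _ hmn
      simp only at hmn
      omega
  have hsame : ∀ l ∈ S, ∀ l' ∈ S, cs l = cs l' := by
    intro l hl l' hl'
    by_contra hne
    rcases le_total (t (cs l)) (t (cs l')) with h | h
    · exact key l hl l' hl' hne h
    · exact key l' hl' l hl (Ne.symm hne) h
  have hSne : S.Nonempty := by
    rw [← card_pos]; omega
  obtain ⟨l₀, hl₀⟩ := hSne
  obtain ⟨s, hs⟩ : ∃ s : Fin κ, s = cs l₀ := ⟨_, rfl⟩
  refine ⟨S.image ct, fun g => d (finProdFinEquiv (s, g)), ?_, hbig.trans ?_⟩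
  · rw [card_image_of_injOn]
    · exact hScard
    · intro l hl l' hl' h
      exact hext l l' (hsame l hl l' hl') h
  · rw [Nat.cast_le]
    refine card_le_card_of_injOn (fun n => n + c + t s) ?_ ?_
    · intro n hn
      obtain ⟨h3, ⟨h4, h4'⟩, h5⟩ := mem_filter.1 hn
      rw [mem_Icc] at h3
      rw [Finset.mem_coe, mem_filter, mem_Icc]
      have l3 := ht4 s
      refine ⟨⟨?_, ?_⟩, ?_, ?_⟩
      · show 1 ≤ n + c + t s
        omega
      · show n + c + t s ≤ 2 * N
        omega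
      · intro g hg
        obtain ⟨l, hl, rfl⟩ := mem_image.1 hg
        have h6 : finProdFinEquiv (s, ct l) = l := by
          rw [hs, hsame l₀ hl₀ l hl]
          exact Equiv.apply_symm_apply finProdFinEquiv l
        show (n + c + t s + X (ct l) (d (finProdFinEquiv (s, ct l)))).Prime
        rw [h6, hs, hsame l₀ hl₀ l hl]
        have h7 : (n + (c + t (cs l) + X (ct l) (d l))).Prime := h5 l hl
        have h8 : n + c + t (cs l) + X (ct l) (d l) = n + (c + t (cs l) + X (ct l) (d l)) := by ring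
        rwa [h8]
      · intro y hy hyX hpr
        have hpr' : (n + c + t s + y).Prime := hpr
        have hpD := hppD y hy
        have hpy := hppP y
        have h6 : (pp y : ℤ) ∣ ((n + c + t s + y : ℕ) : ℤ) := by
          have e1 : (pp y : ℤ) ∣ (n : ℤ) - 1 := by
            have h7 : (pp y : ℤ) ∣ ((WW D : ℕ) : ℤ) := by
              rw [← hW]; exact_mod_cast hWd _ hpy hpD
            have h8 : ((WW D : ℕ) : ℤ) ∣ (n : ℤ) - ((1 : ℕ) : ℤ) := h4.symm.dvd
            exact h7.trans (by exact_mod_cast h8)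
          have e2 := hcp _ hpy hpD
          rw [hR2 y hy hyX] at e2
          have e3 := htp _ hpy hpD s
          have e4 := dvd_add (dvd_add e1 e2) e3
          have e5 : (n : ℤ) - 1 + ((c : ℤ) - (-(y : ℤ) - 1)) + (t s : ℤ) =
              ((n + c + t s + y : ℕ) : ℤ) := by push_cast; ring
          rwa [e5] at e4
        have h7 : pp y ∣ n + c + t s + y := by exact_mod_cast h6
        have h8 := (Nat.prime_dvd_prime_iff_eq hpy hpr').1 h7
        have h9 : N ≤ 16 * n := by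
          have : (N : ℝ) ≤ ((16 * n : ℕ) : ℝ) := by push_cast; linarith
          exact_mod_cast this
        omega
    · intro m _ n _ hmn
      simp only at hmn
      omega

end Pool.Agent.X28.NT
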