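import Mathlib
import Pool.Agent.X28.NT.Cons
import Pool.Agent.TH880.GPc
import Pool.Agent.TH880.GPe

/-! At every scale: every interval up to half of the scale contains a difference of two primes, or almost all
even numbers of bounded size are gaps between consecutive primes. -/

set_option autoImplicit false

namespace Pool.Agent.X28.NT

open Finset Filter Topology
open Pool.Agent.H732R3.DickS

open Classical in
/-- at least `N ^ (1 - η)` primes `p ≤ 3 N` are followed by the next prime at the distance `d` -/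
def GapS (N : ℕ) (η : ℝ) (d : ℕ) : Prop :=
  (N : ℝ) ^ (1 - η) ≤ (((Icc 1 (3 * N)).filter (fun p : ℕ => p.Prime ∧ (p + d).Prime ∧
    ∀ m : ℕ, p < m → m < p + d → ¬ m.Prime)).card : ℝ)

open Classical in
/-- two classes: the windows -/
theorem windowsG (K : ℕ) (hK : 1 ≤ K) (L N : ℕ) (η : ℝ)
    (hB : ∀ X : Fin 2 → Fin K → ℕ, (∀ g i, X g i ≤ 2 * L) →
        Function.Injective (fun z : Fin 2 × Fin K => X z.1 z.2) →
        (∀ p : ℕ, p.Prime → ∃ r : ℤ, ∀ g i, ¬ ((p : ℤ) ∣ r + X g i)) →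
        (∀ i j, X 0 i < X 1 j) →
        ∃ i j, GapS N η (X 1 j - X 0 i)) (u H : ℕ) (hH : 1 ≤ H) (huH : u + H ≤ L) :
    (((Ioc u (u + H)).filter (fun k : ℕ => ¬ GapS N η (2 * k))).card : ℝ) ≤
      8 * ((2 * K + 1).factorial * K : ℕ) *
        (H : ℝ) ^ (1 - 1 / (((2 * K + 1).factorial * K : ℕ) : ℝ)) := by
  obtain ⟨P, hP⟩ : ∃ P : ℕ, P = (2 * K + 1).factorial := ⟨_, rfl⟩
  have hP0 : 0 < P := by rw [hP]; exact Nat.factorial_pos _
  rw [← hP]
  haveI : NeZero K := ⟨by omega⟩
  have h1 := Pool.Agent.TH880.GP.kst (P * K) (Nat.mul_pos hP0 hK)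
    {z : ℤ | 0 < z ∧ z ≤ L ∧ ¬ GapS N η (2 * z.toNat)} (by
    intro X Y hX hY
    by_contra hcon
    push Not at hcon
    obtain ⟨x₀, x, hxi, hxX, hxa⟩ := Pool.Agent.TH880.GP.one_class P K hP0 X hX
    obtain ⟨y₀, y, hyi, hyY, hyb⟩ := Pool.Agent.TH880.GP.one_class P K hP0 Y hY
    have hxy : ∀ i j, 0 < x i + y j ∧ x i + y j ≤ L ∧ ¬ GapS N η (2 * (x i + y j).toNat) :=
      fun i j => hcon _ (hxX i) _ (hyY j)
    obtain ⟨i₀, -, hi₀⟩ := exists_max_image (univ : Finset (Fin K)) x ⟨0, mem_univ _⟩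
    obtain ⟨m, hm⟩ : ∃ m : ℤ, m = x i₀ := ⟨_, rfl⟩
    have hmx : ∀ i, x i ≤ m := fun i => by rw [hm]; exact hi₀ i (mem_univ i)
    obtain ⟨XX, hXX⟩ : ∃ XX : Fin 2 → Fin K → ℕ, XX = fun g i =>
      if g = 0 then (2 * (m - x i)).toNat else (2 * (y i + m)).toNat := ⟨_, rfl⟩
    have hX0 : ∀ i, ((XX 0 i : ℕ) : ℤ) = 2 * (m - x i) := by
      intro i
      rw [hXX]
      have := hmx i
      simp only [if_true]
      exact Int.toNat_of_nonneg (by linarith)
    have hX1 : ∀ i, ((XX 1 i : ℕ) : ℤ) = 2 * (y i + m) := by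
      intro i
      rw [hXX]
      have := (hxy i₀ i).1
      rw [← hm] at this
      simp only [one_ne_zero, if_false]
      exact Int.toNat_of_nonneg (by linarith)
    obtain ⟨i₁, j₁, hcnt⟩ := hB XX (by
      intro g i
      have e1 := hxy i i
      have e2 := hxy i₀ i
      rw [← hm] at e2
      have e3 : g = 0 ∨ g = 1 := by omega
      rcases e3 with rfl | rfl
      · have := hX0 i
        omega
      · have := hX1 i
        omega) (by
      rintro ⟨g, i⟩ ⟨g', i'⟩ h
      simp only at h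
      have hz : ((XX g i : ℕ) : ℤ) = ((XX g' i' : ℕ) : ℤ) := by rw [h]
      have e3 : g = 0 ∨ g = 1 := by omega
      have e4 : g' = 0 ∨ g' = 1 := by omega
      rcases e3 with rfl | rfl <;> rcases e4 with rfl | rfl
      · rw [hX0, hX0] at hz
        rw [hxi (show x i = x i' by linarith)]
      · exfalso
        rw [hX0, hX1] at hz
        have := (hxy i i').1
        linarith
      · exfalso
        rw [hX0, hX1] at hz
        have := (hxy i' i).1
        linarith
      · rw [hX1, hX1] at hz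
        rw [hyi (show y i = y i' by linarith)]) (by
      intro p hp
      by_cases hp2 : p = 2
      · subst hp2
        refine ⟨1, fun g i hd => ?_⟩
        have e3 : g = 0 ∨ g = 1 := by omega
        rcases e3 with rfl | rfl
        · rw [hX0] at hd
          omega
        · rw [hX1] at hd
          omega
      · by_cases hpB : p ≤ 2 * K + 1
        · obtain ⟨z, hz⟩ := exists_avoid (ι := Fin 2) hp (by
            rw [Fintype.card_fin]
            have := hp.two_le
            omega) (fun _ => (1 : ℤ)) (fun g => if g = 0 then 2 * (m - x₀) else 2 * (y₀ + m))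
            (fun w hw => by
              exfalso
              have h1 : p ∣ 1 := by exact_mod_cast hw
              exact hp.one_lt.ne' (Nat.dvd_one.1 h1))
          have hpP : (p : ℤ) ∣ P := by
            rw [hP]
            exact_mod_cast hp.dvd_factorial.2 hpB
          refine ⟨z, fun g i hd => ?_⟩
          have e3 : g = 0 ∨ g = 1 := by omega
          rcases e3 with rfl | rfl
          · apply hz 0
            rw [hX0] at hd
            have h2 := dvd_add hd ((hpP.trans (hxa i)).mul_left 2)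
            have h3 : z + 2 * (m - x i) + 2 * (x i - x₀) = 1 * z + 2 * (m - x₀) := by ring
            rw [h3] at h2
            simpa using h2
          · apply hz 1
            rw [hX1] at hd
            have h2 := dvd_sub hd ((hpP.trans (hyb i)).mul_left 2)
            have h3 : z + 2 * (y i + m) - 2 * (y i - y₀) = 1 * z + 2 * (y₀ + m) := by ring
            rw [h3] at h2
            simpa using h2
        · push Not at hpB
          obtain ⟨z, hz⟩ := exists_avoid (ι := Fin 2 × Fin K) hp (by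
            rw [Fintype.card_prod, Fintype.card_fin, Fintype.card_fin]
            omega) (fun _ => (1 : ℤ)) (fun w => (XX w.1 w.2 : ℤ)) (fun w hw => by
              exfalso
              have h1 : p ∣ 1 := by exact_mod_cast hw
              exact hp.one_lt.ne' (Nat.dvd_one.1 h1))
          refine ⟨z, fun g i => ?_⟩
          have := hz (g, i)
          rwa [one_mul] at this) (by
      intro i j
      have e0 := hX0 i
      have e1 := hX1 j
      have e2 := (hxy i j).1
      omega)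
    apply (hxy i₁ j₁).2.2
    have e0 := hX0 i₁
    have e1 := hX1 j₁
    have e2 := (hxy i₁ j₁).1
    have h5 : 2 * (x i₁ + y j₁).toNat = XX 1 j₁ - XX 0 i₁ := by omega
    rw [h5]
    exact hcnt) (u : ℤ) H hH
    (((Ioc u (u + H)).filter (fun k : ℕ => ¬ GapS N η (2 * k))).map
      ⟨fun k : ℕ => (k : ℤ), Nat.cast_injective⟩) (by
    intro z hz
    rw [Finset.mem_map] at hz
    obtain ⟨k, hk, rfl⟩ := hz
    rw [Finset.mem_filter, Finset.mem_Ioc] at hk
    refine ⟨⟨?_, ?_, ?_⟩, ?_, ?_⟩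
    · show (0 : ℤ) < ((k : ℕ) : ℤ)
      omega
    · show ((k : ℕ) : ℤ) ≤ L
      omega
    · show ¬ GapS N η (2 * ((k : ℕ) : ℤ).toNat)
      rw [Int.toNat_natCast]
      exact hk.2
    · show (u : ℤ) < ((k : ℕ) : ℤ)
      omega
    · show ((k : ℕ) : ℤ) ≤ (u : ℤ) + H
      omega)
  rwa [Finset.card_map] at h1


open Classical in
theorem mainG : ∃ K₀ : ℕ, 1 ≤ K₀ ∧ ∀ L : ℕ, ∃ C : ℕ, ∀ η : ℝ, 0 < η → ∀ᶠ N : ℕ in atTop,
      (∀ h : ℕ, 2 * h ≤ N → ∃ d : ℕ, h ≤ d ∧ d ≤ h + C ∧ DifS N η d) ∨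
      (∀ u H : ℕ, 1 ≤ H → u + H ≤ L →
        (((Ioc u (u + H)).filter (fun k : ℕ => ¬ GapS N η (2 * k))).card : ℝ) ≤
          8 * K₀ * (H : ℝ) ^ (1 - 1 / (K₀ : ℝ))) := by
  obtain ⟨K, hK, H⟩ := farC 2 2 1 (by norm_num) (by norm_num) (by norm_num)
  refine ⟨(2 * K + 1).factorial * K, Nat.mul_pos (Nat.factorial_pos _) hK, fun L => ?_⟩
  obtain ⟨P, hP0, H⟩ := H (2 * L)
  refine ⟨P + 4 * L + 1, fun η hη => ?_⟩
  have h3 : ∀ᶠ N : ℕ in atTop, ((K ^ 2 : ℕ) : ℝ) < (N : ℝ) ^ (η / 2) :=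
    ((tendsto_rpow_atTop (by positivity)).comp tendsto_natCast_atTop_atTop).eventually_gt_atTop _
  filter_upwards [H (η / 2) (by positivity), h3, eventually_ge_atTop (16 * (P + 4 * L + 1))]
    with N hN hN3 hN1
  have hNpos : (0 : ℝ) < N := by
    have : 0 < N := by omega
    exact_mod_cast this
  have hN1r : (1 : ℝ) ≤ N := by
    have : 1 ≤ N := by omega
    exact_mod_cast this
  by_cases hA : ∀ h : ℕ, 2 * h ≤ N → ∃ d : ℕ, h ≤ d ∧ d ≤ h + (P + 4 * L + 1) ∧ DifS N η d
  · exact Or.inl hA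
  right
  push Not at hA
  obtain ⟨h, hh, hno⟩ := hA
  obtain ⟨t, ht1, ht2, ht3⟩ := mul_above P (h + 2 * L + 1) hP0
  obtain ⟨tt, htt⟩ : ∃ tt : Fin 2 → ℕ, tt = fun s => if s = 0 then 0 else t := ⟨_, rfl⟩
  have tt0 : tt 0 = 0 := by rw [htt]; rfl
  have tt1 : tt 1 = t := by rw [htt]; rfl
  have hc : ∀ s : Fin 2, s = 0 ∨ s = 1 := by intro s; omega
  have hmono : ∀ d : ℕ, DifS N (η / 2) d → DifS N η d := by
    intro d hd
    unfold DifS at hd ⊢
    exact (Real.rpow_le_rpow_of_exponent_le hN1r (by linarith)).trans hd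
  have hB := hN tt (by
      intro s
      rcases hc s with rfl | rfl
      · rw [tt0]; exact dvd_zero _
      · rw [tt1]; exact ht1) (by
      intro s
      rcases hc s with rfl | rfl
      · rw [tt0]; omega
      · rw [tt1]; omega) (by
      intro s s' hne hle
      rcases hc s with rfl | rfl <;> rcases hc s' with rfl | rfl
      · exact absurd rfl hne
      · rw [tt0, tt1]
        exact ⟨by omega, fun d h1 h2 hd => hno d (by omega) (by omega) (hmono d hd)⟩
      · rw [tt0, tt1] at hle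
        omega
      · exact absurd rfl hne)
  intro u W hW huW
  refine windowsG K hK L N η ?_ u W hW huW
  intro X hXL hXi hXadm hord
  obtain ⟨S, σ, hS, hcnt⟩ := hB X hXL hXi hXadm
  have hSu : S = univ := by
    apply eq_univ_of_card
    have := card_le_univ S
    rw [Fintype.card_fin] at this ⊢
    omega
  have hs0 : (0 : Fin 2) ∈ S := by rw [hSu]; exact mem_univ _
  have hs1 : (1 : Fin 2) ∈ S := by rw [hSu]; exact mem_univ _
  obtain ⟨F, hF⟩ : ∃ F : Finset ℕ, F = (Icc 1 (2 * N)).filter (fun n : ℕ =>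
            (∀ g ∈ S, (n + X g (σ g)).Prime) ∧
            ∀ y : ℕ, y ≤ 2 * L → (∀ g i, X g i ≠ y) → ¬ (n + y).Prime) := ⟨_, rfl⟩
  rw [← hF] at hcnt
  obtain ⟨G, hG⟩ : ∃ G : Fin K × Fin K → Finset ℕ, G = fun q => (Icc 1 (2 * N)).filter
    (fun n : ℕ => (n + X 0 q.1).Prime ∧ (n + X 1 q.2).Prime ∧
      ∀ m : ℕ, n + X 0 q.1 < m → m < n + X 1 q.2 → ¬ m.Prime) := ⟨_, rfl⟩
  have hsub : F ⊆ (univ : Finset (Fin K × Fin K)).biUnion G := by
    intro n hn
    rw [hF, mem_filter] at hn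
    obtain ⟨hn1, hn2, hn3⟩ := hn
    have p0 := hn2 0 hs0
    have p1 := hn2 1 hs1
    obtain ⟨i, hi, hi2⟩ := exists_max_image ((univ : Finset (Fin K)).filter
      (fun i => (n + X 0 i).Prime)) (fun i => X 0 i) ⟨σ 0, mem_filter.2 ⟨mem_univ _, p0⟩⟩
    obtain ⟨j, hj, hj2⟩ := exists_min_image ((univ : Finset (Fin K)).filter
      (fun j => (n + X 1 j).Prime)) (fun j => X 1 j) ⟨σ 1, mem_filter.2 ⟨mem_univ _, p1⟩⟩
    rw [mem_biUnion]
    refine ⟨(i, j), mem_univ _, ?_⟩
    rw [hG]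
    refine mem_filter.2 ⟨hn1, (mem_filter.1 hi).2, (mem_filter.1 hj).2, ?_⟩
    intro m hm1 hm2 hm3
    have hm4 : n + (m - n) = m := by
      have : n + X 0 i < m := hm1
      omega
    by_cases hyX : ∃ g l, X g l = m - n
    · obtain ⟨g, l, hgl⟩ := hyX
      have hg : g = 0 ∨ g = 1 := by omega
      rcases hg with rfl | rfl
      · have h4 := hi2 l (mem_filter.2 ⟨mem_univ _, by rw [hgl, hm4]; exact hm3⟩)
        simp only at h4 hm1
        omega
      · have h4 := hj2 l (mem_filter.2 ⟨mem_univ _, by rw [hgl, hm4]; exact hm3⟩)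
        simp only at h4 hm2
        omega
    · push Not at hyX
      have h5 := hXL 1 j
      simp only at hm2
      exact hn3 (m - n) (by omega) hyX (by rw [hm4]; exact hm3)
  have hbig : ∃ q : Fin K × Fin K, (N : ℝ) ^ (1 - η) ≤ ((G q).card : ℝ) := by
    by_contra hcon
    push Not at hcon
    have e1 := (Nat.cast_le (α := ℝ)).2 ((card_le_card hsub).trans card_biUnion_le)
    rw [Nat.cast_sum] at e1
    have e2 : ∑ q ∈ (univ : Finset (Fin K × Fin K)), ((G q).card : ℝ) ≤
        (univ : Finset (Fin K × Fin K)).card • (N : ℝ) ^ (1 - η) :=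
      Finset.sum_le_card_nsmul _ _ _ (fun q _ => (hcon q).le)
    have e3 : (univ : Finset (Fin K × Fin K)).card = K ^ 2 := by
      rw [card_univ, Fintype.card_prod, Fintype.card_fin]; ring
    have e5 : (0 : ℝ) < (N : ℝ) ^ (1 - η) := Real.rpow_pos_of_pos hNpos _
    have e6 : (N : ℝ) ^ (1 - η / 2) = (N : ℝ) ^ (η / 2) * (N : ℝ) ^ (1 - η) := by
      rw [← Real.rpow_add hNpos]
      congr 1
      ring
    rw [nsmul_eq_mul, e3] at e2
    have e7 := hcnt.trans (e1.trans e2)
    rw [e6] at e7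
    have e8 := le_of_mul_le_mul_right e7 e5
    linarith
  obtain ⟨⟨i, j⟩, hbig⟩ := hbig
  refine ⟨i, j, ?_⟩
  unfold GapS
  refine hbig.trans ?_
  rw [Nat.cast_le, hG]
  have hij := hord i j
  refine card_le_card_of_injOn (fun n => n + X 0 i) ?_ ?_
  · intro n hn
    obtain ⟨h3, h4, h5, h6⟩ := mem_filter.1 hn
    rw [mem_Icc] at h3
    rw [Finset.mem_coe, mem_filter, mem_Icc]
    have h7 := hXL 0 i
    have h8 : n + X 0 i + (X 1 j - X 0 i) = n + X 1 j := by omega
    refine ⟨⟨?_, ?_⟩, h4, ?_, ?_⟩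
    · exact h4.one_lt.le
    · show n + X 0 i ≤ 3 * N
      omega
    · show (n + X 0 i + (X 1 j - X 0 i)).Prime
      rw [h8]
      exact h5
    · intro m hm1 hm2
      rw [h8] at hm2
      exact h6 m hm1 hm2
  · intro m _ n _ hmn
    exact Nat.add_right_cancel hmn

end Pool.Agent.X28.NT
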