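import Mathlib
import Pool.Agent.TH899.UG.ExL
import Pool.Agent.H732R3.DickS
import Pool.Agent.TH880.GPc
import Pool.Agent.TH880.GPe

/-! At every scale: either all short intervals up to half of the scale contain a difference of two primes, or more
than one half of any classes of bounded shifts are hit simultaneously by primes. -/

set_option autoImplicit false

namespace Pool.Agent.X28.NT

open Finset Filter Topology
open Pool.Agent.H732R3.DickS

open Classical in
/-- the number of primes `p ≤ 2 N` with `p + d` prime is at least `N ^ (1 - η)` -/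
def Dif (N : ℕ) (η : ℝ) (d : ℕ) : Prop :=
  (N : ℝ) ^ (1 - η) ≤ (((Icc 1 (2 * N)).filter (fun p : ℕ => p.Prime ∧ (p + d).Prime)).card : ℝ)

open Classical in
theorem far {c : ℝ} (hQ : ∀ T M : ℕ, 1 ≤ T → (4 - c) * M < T →
    ∃ K : ℕ, 1 ≤ K ∧ ∀ A : ℕ, ∀ η : ℝ, 0 < η → ∀ᶠ N : ℕ in atTop,
    ∀ a b : Fin T → Fin K → ℤ, (∀ g i, a g i ≠ 0) → (∀ g i, |a g i| ≤ A) →
      (∀ g i, 5 * |b g i| ≤ 6 * (N : ℤ)) →
      (∀ g i, ∀ y : ℝ, (N : ℝ) / 16 ≤ y → y ≤ N / 2 → (N : ℝ) / 30 ≤ a g i * y + b g i) →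
      Function.Injective (fun x : Fin T × Fin K => (a x.1 x.2, b x.1 x.2)) →
      (∀ p : ℕ, p.Prime → ∃ n : ℤ, ∀ g i, ¬ ((p : ℤ) ∣ a g i * n + b g i)) →
      ∃ (S : Finset (Fin T)) (σ : Fin T → Fin K), M + 1 ≤ S.card ∧
        (N : ℝ) ^ (1 - η) ≤ (((Icc 1 N).filter (fun n : ℕ => N ≤ 16 * n ∧ 16 * n ≤ 9 * N ∧
          ∀ g ∈ S, (a g (σ g) * n + b g (σ g)).toNat.Prime)).card : ℝ)) :
    ∀ T M : ℕ, 1 ≤ T → (4 - c) * M < 2 * T → ∃ K : ℕ, 1 ≤ K ∧
    ∀ L : ℕ, ∃ C : ℕ, ∀ η : ℝ, 0 < η → ∀ᶠ N : ℕ in atTop, ∀ C' : ℕ, C ≤ C' →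
      (∀ h : ℕ, 2 * h ≤ N → ∃ d : ℕ, h ≤ d ∧ d ≤ h + C' ∧ Dif N η d) ∨
      (∀ X : Fin T → Fin K → ℕ, (∀ g i, X g i ≤ L) →
        Function.Injective (fun z : Fin T × Fin K => X z.1 z.2) →
        (∀ p : ℕ, p.Prime → ∃ r : ℤ, ∀ g i, ¬ ((p : ℤ) ∣ r + X g i)) →
        ∃ (S : Finset (Fin T)) (σ : Fin T → Fin K), M + 1 ≤ S.card ∧
          (N : ℝ) ^ (1 - η) ≤ (((Icc 1 (2 * N)).filter (fun n : ℕ => n + L ≤ 2 * N ∧
            ∀ g ∈ S, (n + X g (σ g)).Prime)).card : ℝ)) := by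
  intro T M hT hTM
  obtain ⟨K, hK, H⟩ := hQ (T * 2) M (by omega) (by push_cast; linarith)
  refine ⟨K, hK, fun L => ?_⟩
  obtain ⟨B, hB⟩ : ∃ B : ℕ, B = T * 2 * K := ⟨_, rfl⟩
  obtain ⟨P, hP⟩ : ∃ P : ℕ, P = B.factorial := ⟨_, rfl⟩
  have hP0 : 0 < P := by rw [hP]; exact Nat.factorial_pos _
  refine ⟨P + 2 * L + 1, fun η hη => ?_⟩
  filter_upwards [H 1 η hη, eventually_ge_atTop (100 * (P + 2 * L + 2))] with N hN hN1
  intro C' hC'
  by_cases hA : ∀ h : ℕ, 2 * h ≤ N → ∃ d : ℕ, h ≤ d ∧ d ≤ h + C' ∧ Dif N η d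
  · exact Or.inl hA
  right
  push Not at hA
  obtain ⟨h, hh, hno⟩ := hA
  intro X hXL hXi hXadm
  obtain ⟨h', hh1, hh2, k, hk⟩ : ∃ h' : ℕ, h + L + 1 ≤ h' ∧ h' ≤ h + L + P ∧ P ∣ h' := by
    refine ⟨P * ((h + L) / P + 1), ?_, ?_, dvd_mul_right _ _⟩
    · have h1 := Nat.div_add_mod (h + L) P
      have h2 := Nat.mod_lt (h + L) hP0
      rw [Nat.mul_add, Nat.mul_one]
      omega
    · have h1 := Nat.div_add_mod (h + L) P
      rw [Nat.mul_add, Nat.mul_one]
      omega
  set cl : Fin (T * 2) → Fin T := fun i => (finProdFinEquiv.symm i).1 with hcl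
  set sx : Fin (T * 2) → Fin 2 := fun i => (finProdFinEquiv.symm i).2 with hsx
  have hext : ∀ i j, cl i = cl j → sx i = sx j → i = j := by
    intro i j h1 h2
    exact finProdFinEquiv.symm.injective (Prod.ext h1 h2)
  set sh : Fin 2 → ℕ := fun s => if s = 0 then 0 else h' with hsh
  have hsh0 : sh 0 = 0 := by rw [hsh]; simp
  have hsh1 : sh 1 = h' := by rw [hsh]; simp
  have hshle : ∀ s, sh s ≤ h' := by
    intro s
    rw [hsh]
    dsimp only
    split_ifs <;> omega
  set bb : Fin (T * 2) → Fin K → ℕ := fun g i => X (cl g) i + sh (sx g) with hbb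
  have hbbL : ∀ g i, bb g i ≤ L + h' := by
    intro g i
    rw [hbb]
    exact Nat.add_le_add (hXL _ _) (hshle _)
  obtain ⟨S, σ, hS, hcnt⟩ := hN (fun _ _ => 1) (fun g i => (bb g i : ℤ)) (fun _ _ => one_ne_zero)
    (fun _ _ => by simp)
    (fun g i => by
      have h1 := hbbL g i
      rw [abs_of_nonneg (by positivity)]
      omega)
    (fun g i y hy1 hy2 => by
      have h1 : (0 : ℝ) ≤ ((bb g i : ℤ) : ℝ) := by positivity
      push_cast at h1 ⊢
      have h2 : (0 : ℝ) ≤ (N : ℝ) := Nat.cast_nonneg _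
      linarith)
    (by
      rintro ⟨g, i⟩ ⟨g', i'⟩ he
      simp only [Prod.mk.injEq, true_and, Nat.cast_inj] at he
      rw [hbb] at he
      dsimp only at he
      have h1 := hXL (cl g) i
      have h2 := hXL (cl g') i'
      have h3 : sx g = sx g' := by
        by_contra hne
        have h4 : (sx g = 0 ∧ sx g' = 1) ∨ (sx g = 1 ∧ sx g' = 0) := by omega
        rcases h4 with ⟨h5, h6⟩ | ⟨h5, h6⟩
        · rw [h5, h6, hsh0, hsh1] at he
          omega
        · rw [h5, h6, hsh0, hsh1] at he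
          omega
      rw [h3] at he
      have h4 : X (cl g) i = X (cl g') i' := by omega
      have h5 := hXi (show (fun z : Fin T × Fin K => X z.1 z.2) (cl g, i) =
        (fun z : Fin T × Fin K => X z.1 z.2) (cl g', i') from h4)
      rw [Prod.mk.injEq] at h5
      rw [hext g g' h5.1 h3, h5.2])
    (by
      intro p hp
      by_cases hpB : p ≤ B
      · obtain ⟨r, hr⟩ := hXadm p hp
        refine ⟨r, fun g i hd => hr (cl g) i ?_⟩
        have hph : p ∣ h' := by
          have h1 : p ∣ P := by rw [hP]; exact hp.dvd_factorial.2 hpB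
          exact h1.trans ⟨k, hk⟩
        have hps : (p : ℤ) ∣ (sh (sx g) : ℤ) := by
          have : p ∣ sh (sx g) := by
            rw [hsh]
            dsimp only
            split_ifs
            · exact dvd_zero _
            · exact hph
          exact_mod_cast this
        have h2 := dvd_sub hd hps
        rw [hbb] at h2
        push_cast at h2
        have h3 : 1 * r + ((X (cl g) i : ℤ) + (sh (sx g) : ℤ)) - (sh (sx g) : ℤ) =
          r + X (cl g) i := by ring
        rwa [h3] at h2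
      · push Not at hpB
        obtain ⟨z, hz⟩ := exists_avoid (ι := Fin (T * 2) × Fin K) hp (by
          rw [Fintype.card_prod, Fintype.card_fin, Fintype.card_fin]
          omega) (fun _ => (1 : ℤ)) (fun w => (bb w.1 w.2 : ℤ)) (fun w hw => by
            exfalso
            have h1 : p ∣ 1 := by exact_mod_cast hw
            exact hp.one_lt.ne' (Nat.dvd_one.1 h1))
        exact ⟨z, fun g i => hz (g, i)⟩)
  set F : Finset ℕ := (Icc 1 N).filter (fun n : ℕ => N ≤ 16 * n ∧ 16 * n ≤ 9 * N ∧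
    ∀ g ∈ S, (1 * (n : ℤ) + (bb g (σ g) : ℤ)).toNat.Prime) with hF
  have hFp : ∀ n ∈ F, 16 * n ≤ 9 * N ∧ ∀ g ∈ S, (n + bb g (σ g)).Prime := by
    intro n hn
    obtain ⟨-, -, h1, h2⟩ := mem_filter.1 hn
    refine ⟨h1, fun g hg => ?_⟩
    have h3 := h2 g hg
    have h4 : (1 * (n : ℤ) + (bb g (σ g) : ℤ)).toNat = n + bb g (σ g) := by omega
    rwa [h4] at h3
  -- the two clusters are not hit at the same time
  have hcross : ∀ g ∈ S, ∀ g' ∈ S, sx g = 0 → sx g' = 1 → False := by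
    intro g hg g' hg' h0 h1
    have e0 : bb g (σ g) = X (cl g) (σ g) := by
      rw [hbb]
      dsimp only
      rw [h0, hsh0, Nat.add_zero]
    have e1 : bb g' (σ g') = X (cl g') (σ g') + h' := by
      rw [hbb]
      dsimp only
      rw [h1, hsh1]
    have l0 := hXL (cl g) (σ g)
    have l1 := hXL (cl g') (σ g')
    obtain ⟨d, hd⟩ : ∃ d : ℕ, d = X (cl g') (σ g') + h' - X (cl g) (σ g) := ⟨_, rfl⟩
    refine hno d (by omega) (by omega) ?_
    refine hcnt.trans ?_
    rw [Nat.cast_le]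
    refine card_le_card_of_injOn (fun n => n + bb g (σ g)) ?_ ?_
    · intro n hn
      obtain ⟨h2, h3⟩ := hFp n hn
      have p0 := h3 g hg
      have p1 := h3 g' hg'
      rw [Finset.mem_coe, mem_filter, mem_Icc]
      refine ⟨⟨?_, ?_⟩, p0, ?_⟩
      · exact p0.one_lt.le
      · show n + bb g (σ g) ≤ 2 * N
        omega
      · show (n + bb g (σ g) + d).Prime
        have h4 : n + bb g (σ g) + d = n + bb g' (σ g') := by omega
        rwa [h4]
    · intro m _ n _ hmn
      exact Nat.add_right_cancel hmn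
  -- all the classes which are hit are in one cluster
  obtain ⟨s, hs⟩ : ∃ s : Fin 2, ∀ g ∈ S, sx g = s := by
    by_cases h0 : ∃ g ∈ S, sx g = 0
    · obtain ⟨g, hg, hg0⟩ := h0
      refine ⟨0, fun g' hg' => ?_⟩
      by_contra hne
      exact hcross g hg g' hg' hg0 (by omega)
    · push Not at h0
      refine ⟨1, fun g' hg' => ?_⟩
      have := h0 g' hg'
      omega
  refine ⟨S.image cl, fun t => σ (finProdFinEquiv (t, s)), ?_, ?_⟩
  · rw [card_image_of_injOn]
    · exact hS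
    · intro g hg g' hg' he
      exact hext g g' he ((hs g hg).trans (hs g' hg').symm)
  · refine hcnt.trans ?_
    rw [Nat.cast_le]
    refine card_le_card_of_injOn (fun n => n + sh s) ?_ ?_
    · intro n hn
      obtain ⟨h2, h3⟩ := hFp n hn
      have hn1 := (mem_Icc.1 (mem_filter.1 hn).1).1
      rw [Finset.mem_coe, mem_filter, mem_Icc]
      have hs' := hshle s
      refine ⟨⟨?_, ?_⟩, ?_, ?_⟩
      · show 1 ≤ n + sh s
        omega
      · show n + sh s ≤ 2 * N
        omega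
      · show n + sh s + L ≤ 2 * N
        omega
      · intro t ht
        obtain ⟨g, hg, rfl⟩ := mem_image.1 ht
        have h4 := h3 g hg
        have h5 : finProdFinEquiv (cl g, s) = g := by
          apply hext
          · rw [hcl]; simp
          · rw [hs g hg, hsx]; simp
        show (n + sh s + X (cl g) (σ (finProdFinEquiv (cl g, s)))).Prime
        rw [h5]
        have h6 : n + sh s + X (cl g) (σ g) = n + bb g (σ g) := by
          rw [hbb]
          dsimp only
          rw [hs g hg]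
          ring
        rwa [h6]
    · intro m _ n _ hmn
      exact Nat.add_right_cancel hmn

open Classical in
/-- two classes: the windows -/
theorem windows (K : ℕ) (hK : 1 ≤ K) (L N : ℕ) (η : ℝ)
    (hB : ∀ X : Fin 2 → Fin K → ℕ, (∀ g i, X g i ≤ 2 * L) →
        Function.Injective (fun z : Fin 2 × Fin K => X z.1 z.2) →
        (∀ p : ℕ, p.Prime → ∃ r : ℤ, ∀ g i, ¬ ((p : ℤ) ∣ r + X g i)) →
        ∃ (S : Finset (Fin 2)) (σ : Fin 2 → Fin K), 1 + 1 ≤ S.card ∧
          (N : ℝ) ^ (1 - η) ≤ (((Icc 1 (2 * N)).filter (fun n : ℕ => n + 2 * L ≤ 2 * N ∧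
            ∀ g ∈ S, (n + X g (σ g)).Prime)).card : ℝ)) (u H : ℕ) (hH : 1 ≤ H) (huH : u + H ≤ L) :
    (((Ioc u (u + H)).filter (fun k : ℕ => ¬ Dif N η (2 * k))).card : ℝ) ≤
      8 * ((2 * K + 1).factorial * K : ℕ) *
        (H : ℝ) ^ (1 - 1 / (((2 * K + 1).factorial * K : ℕ) : ℝ)) := by
  obtain ⟨P, hP⟩ : ∃ P : ℕ, P = (2 * K + 1).factorial := ⟨_, rfl⟩
  have hP0 : 0 < P := by rw [hP]; exact Nat.factorial_pos _
  rw [← hP]
  haveI : NeZero K := ⟨by omega⟩
  have h1 := Pool.Agent.TH880.GP.kst (P * K) (Nat.mul_pos hP0 hK)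
    {z : ℤ | 0 < z ∧ z ≤ L ∧ ¬ Dif N η (2 * z.toNat)} (by
    intro X Y hX hY
    by_contra hcon
    push Not at hcon
    obtain ⟨x₀, x, hxi, hxX, hxa⟩ := Pool.Agent.TH880.GP.one_class P K hP0 X hX
    obtain ⟨y₀, y, hyi, hyY, hyb⟩ := Pool.Agent.TH880.GP.one_class P K hP0 Y hY
    have hxy : ∀ i j, 0 < x i + y j ∧ x i + y j ≤ L ∧ ¬ Dif N η (2 * (x i + y j).toNat) :=
      fun i j => hcon _ (hxX i) _ (hyY j)
    obtain ⟨i₀, -, hi₀⟩ := exists_max_image (univ : Finset (Fin K)) x ⟨0, mem_univ _⟩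
    obtain ⟨m, hm⟩ : ∃ m : ℤ, m = x i₀ := ⟨_, rfl⟩
    have hmx : ∀ i, x i ≤ m := fun i => by rw [hm]; exact hi₀ i (mem_univ i)
    obtain ⟨XX, hXX⟩ : ∃ XX : Fin 2 → Fin K → ℕ, XX = fun g i =>
      if g = 0 then (2 * (m - x i)).toNat else (2 * (y i + m)).toNat := ⟨_, rfl⟩
    have hX0 : ∀ i, ((XX 0 i : ℕ) : ℤ) = 2 * (m - x i) := by
      intro i
      rw [hXX]
      have := hmx i
      simp only [if_true]
      exact Int.toNat_of_nonneg (by linarith)
    have hX1 : ∀ i, ((XX 1 i : ℕ) : ℤ) = 2 * (y i + m) := by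
      intro i
      rw [hXX]
      have := (hxy i₀ i).1
      rw [← hm] at this
      simp only [one_ne_zero, if_false]
      exact Int.toNat_of_nonneg (by linarith)
    obtain ⟨S, σ, hS, hcnt⟩ := hB XX (by
      intro g i
      have e1 := hxy i i
      have e2 := hxy i₀ i
      rw [← hm] at e2
      have e3 : g = 0 ∨ g = 1 := by omega
      rcases e3 with rfl | rfl
      · have := hX0 i
        omega
      · have := hX1 i
        omega) (by
      rintro ⟨g, i⟩ ⟨g', i'⟩ h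
      simp only at h
      have hz : ((XX g i : ℕ) : ℤ) = ((XX g' i' : ℕ) : ℤ) := by rw [h]
      have e3 : g = 0 ∨ g = 1 := by omega
      have e4 : g' = 0 ∨ g' = 1 := by omega
      rcases e3 with rfl | rfl <;> rcases e4 with rfl | rfl
      · rw [hX0, hX0] at hz
        rw [hxi (show x i = x i' by linarith)]
      · exfalso
        rw [hX0, hX1] at hz
        have := (hxy i i').1
        linarith
      · exfalso
        rw [hX0, hX1] at hz
        have := (hxy i' i).1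
        linarith
      · rw [hX1, hX1] at hz
        rw [hyi (show y i = y i' by linarith)]) (by
      intro p hp
      by_cases hp2 : p = 2
      · subst hp2
        refine ⟨1, fun g i hd => ?_⟩
        have e3 : g = 0 ∨ g = 1 := by omega
        rcases e3 with rfl | rfl
        · rw [hX0] at hd
          omega
        · rw [hX1] at hd
          omega
      · by_cases hpB : p ≤ 2 * K + 1
        · obtain ⟨z, hz⟩ := exists_avoid (ι := Fin 2) hp (by
            rw [Fintype.card_fin]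
            have := hp.two_le
            omega) (fun _ => (1 : ℤ)) (fun g => if g = 0 then 2 * (m - x₀) else 2 * (y₀ + m))
            (fun w hw => by
              exfalso
              have h1 : p ∣ 1 := by exact_mod_cast hw
              exact hp.one_lt.ne' (Nat.dvd_one.1 h1))
          have hpP : (p : ℤ) ∣ P := by
            rw [hP]
            exact_mod_cast hp.dvd_factorial.2 hpB
          refine ⟨z, fun g i hd => ?_⟩
          have e3 : g = 0 ∨ g = 1 := by omega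
          rcases e3 with rfl | rfl
          · apply hz 0
            rw [hX0] at hd
            have h2 := dvd_add hd ((hpP.trans (hxa i)).mul_left 2)
            have h3 : z + 2 * (m - x i) + 2 * (x i - x₀) = 1 * z + 2 * (m - x₀) := by ring
            rw [h3] at h2
            simpa using h2
          · apply hz 1
            rw [hX1] at hd
            have h2 := dvd_sub hd ((hpP.trans (hyb i)).mul_left 2)
            have h3 : z + 2 * (y i + m) - 2 * (y i - y₀) = 1 * z + 2 * (y₀ + m) := by ring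
            rw [h3] at h2
            simpa using h2
        · push Not at hpB
          obtain ⟨z, hz⟩ := exists_avoid (ι := Fin 2 × Fin K) hp (by
            rw [Fintype.card_prod, Fintype.card_fin, Fintype.card_fin]
            omega) (fun _ => (1 : ℤ)) (fun w => (XX w.1 w.2 : ℤ)) (fun w hw => by
              exfalso
              have h1 : p ∣ 1 := by exact_mod_cast hw
              exact hp.one_lt.ne' (Nat.dvd_one.1 h1))
          refine ⟨z, fun g i => ?_⟩
          have := hz (g, i)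
          rwa [one_mul] at this)
    have hSu : S = univ := by
      apply eq_univ_of_card
      have := card_le_univ S
      rw [Fintype.card_fin] at this ⊢
      omega
    have hs0 : (0 : Fin 2) ∈ S := by rw [hSu]; exact mem_univ _
    have hs1 : (1 : Fin 2) ∈ S := by rw [hSu]; exact mem_univ _
    apply (hxy (σ 0) (σ 1)).2.2
    unfold Dif
    refine hcnt.trans ?_
    rw [Nat.cast_le]
    have hb0 : XX 0 (σ 0) ≤ 2 * L := by
      have := hX0 (σ 0)
      have e1 := hxy (σ 0) (σ 0)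
      have e2 := hxy i₀ (σ 0)
      rw [← hm] at e2
      omega
    refine card_le_card_of_injOn (fun n => n + XX 0 (σ 0)) ?_ ?_
    · intro n hn
      obtain ⟨h2, h3, h4⟩ := mem_filter.1 hn
      have p0 := h4 0 hs0
      have p1 := h4 1 hs1
      rw [Finset.mem_coe, mem_filter, mem_Icc]
      refine ⟨⟨?_, ?_⟩, p0, ?_⟩
      · exact p0.one_lt.le
      · show n + XX 0 (σ 0) ≤ 2 * N
        omega
      · show (n + XX 0 (σ 0) + 2 * (x (σ 0) + y (σ 1)).toNat).Prime
        have e0 := hX0 (σ 0)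
        have e1 := hX1 (σ 1)
        have e2 := (hxy (σ 0) (σ 1)).1
        have h5 : n + XX 0 (σ 0) + 2 * (x (σ 0) + y (σ 1)).toNat = n + XX 1 (σ 1) := by omega
        rwa [h5]
    · intro m _ n _ hmn
      exact Nat.add_right_cancel hmn) (u : ℤ) H hH
    (((Ioc u (u + H)).filter (fun k : ℕ => ¬ Dif N η (2 * k))).map
      ⟨fun k : ℕ => (k : ℤ), Nat.cast_injective⟩) (by
    intro z hz
    rw [Finset.mem_map] at hz
    obtain ⟨k, hk, rfl⟩ := hz
    rw [Finset.mem_filter, Finset.mem_Ioc] at hk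
    refine ⟨⟨?_, ?_, ?_⟩, ?_, ?_⟩
    · show (0 : ℤ) < ((k : ℕ) : ℤ)
      omega
    · show ((k : ℕ) : ℤ) ≤ L
      omega
    · show ¬ Dif N η (2 * ((k : ℕ) : ℤ).toNat)
      rw [Int.toNat_natCast]
      exact hk.2
    · show (u : ℤ) < ((k : ℕ) : ℤ)
      omega
    · show ((k : ℕ) : ℤ) ≤ (u : ℤ) + H
      omega)
  rwa [Finset.card_map] at h1

open Classical in
theorem main : ∃ c : ℝ, 0 < c ∧ c < 1 ∧ ∃ K₀ : ℕ, 1 ≤ K₀ ∧
    ∀ T M : ℕ, 1 ≤ T → (4 - c) * M < 2 * T → ∃ K : ℕ, 1 ≤ K ∧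
    ∀ L : ℕ, ∃ C : ℕ, ∀ η : ℝ, 0 < η → ∀ᶠ N : ℕ in atTop,
      (∀ h : ℕ, 2 * h ≤ N → ∃ d : ℕ, h ≤ d ∧ d ≤ h + C ∧ Dif N η d) ∨
      ((∀ u H : ℕ, 1 ≤ H → u + H ≤ L →
        (((Ioc u (u + H)).filter (fun k : ℕ => ¬ Dif N η (2 * k))).card : ℝ) ≤
          8 * K₀ * (H : ℝ) ^ (1 - 1 / (K₀ : ℝ))) ∧
      (∀ X : Fin T → Fin K → ℕ, (∀ g i, X g i ≤ L) →
        Function.Injective (fun z : Fin T × Fin K => X z.1 z.2) →
        (∀ p : ℕ, p.Prime → ∃ r : ℤ, ∀ g i, ¬ ((p : ℤ) ∣ r + X g i)) →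
        ∃ (S : Finset (Fin T)) (σ : Fin T → Fin K), M + 1 ≤ S.card ∧
          (N : ℝ) ^ (1 - η) ≤ (((Icc 1 (2 * N)).filter (fun n : ℕ =>
            ∀ g ∈ S, (n + X g (σ g)).Prime)).card : ℝ))) := by
  obtain ⟨c, hc, hc1, H⟩ := Pool.Agent.TH899.UG.Uni.exactL
  have hfar := far H
  obtain ⟨K₂, hK₂, H2⟩ := hfar 2 1 (by norm_num) (by push_cast; linarith)
  refine ⟨c, hc, hc1, (2 * K₂ + 1).factorial * K₂,
    Nat.mul_pos (Nat.factorial_pos _) hK₂, fun T M hT hTM => ?_⟩
  obtain ⟨K, hK, H1⟩ := hfar T M hT hTM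
  refine ⟨K, hK, fun L => ?_⟩
  obtain ⟨C₁, H1⟩ := H1 L
  obtain ⟨C₂, H2⟩ := H2 (2 * L)
  refine ⟨C₁ + C₂, fun η hη => ?_⟩
  filter_upwards [H1 η hη, H2 η hη] with N h1 h2
  rcases h1 (C₁ + C₂) (by omega) with hA | hB1
  · exact Or.inl hA
  rcases h2 (C₁ + C₂) (by omega) with hA | hB2
  · exact Or.inl hA
  right
  refine ⟨fun u H hH huH => windows K₂ hK₂ L N η hB2 u H hH huH, ?_⟩
  intro X hX1 hX2 hX3
  obtain ⟨S, σ, hS, hcnt⟩ := hB1 X hX1 hX2 hX3
  refine ⟨S, σ, hS, hcnt.trans ?_⟩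
  rw [Nat.cast_le]
  apply card_le_card
  intro n hn
  rw [mem_filter] at hn ⊢
  exact ⟨hn.1, hn.2.2⟩

end Pool.Agent.X28.NT
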