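import Mathlib
import Pool.Agent.X28.NT.Om

/-! Clusters at the places of arbitrary linear forms, with the range of the variable: either one more form is hit, or
many classes of one cluster are hit at once. -/

set_option autoImplicit false

namespace Pool.Agent.X28.NT

open Finset Filter Topology
open Pool.Agent.Y827.GS (Adf)

open Classical in
/-- of `κ` linear forms `j + 1` are prime at the same time, after corrections by at most `C`, for `n` in the middle
range -/
def BetR (κ j A C N : ℕ) (η : ℝ) : Prop :=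
  ∀ u v : Fin κ → ℤ, (∀ s, u s ≠ 0 ∧ |u s| ≤ A ∧ 16 * |v s| ≤ 15 * (N : ℤ)) →
    (∀ s, ∀ y : ℝ, (N : ℝ) / 16 ≤ y → y ≤ 9 * N / 16 → (N : ℝ) / 24 ≤ u s * y + v s) →
    (∀ s s', s ≠ s' → u s = u s' → (C : ℤ) < |v s - v s'|) →
    ∃ (S : Finset (Fin κ)) (e : Fin κ → ℕ), j + 1 ≤ S.card ∧ (∀ s, e s ≤ C) ∧
      (N : ℝ) ^ (1 - η) ≤ (((Icc 1 N).filter (fun n : ℕ => N ≤ 16 * n ∧ 16 * n ≤ 9 * N ∧
        ∀ s ∈ S, (u s * n + (v s + e s)).toNat.Prime)).card : ℝ)

open Classical in
/-- all `n + x i` are prime, for `i` in `G`, for at least `N ^ (1 - η)` numbers `n ≤ R` -/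
def TupG {T : ℕ} (R N : ℕ) (η : ℝ) (x : Fin T → ℕ) (G : Finset (Fin T)) : Prop :=
  (N : ℝ) ^ (1 - η) ≤ (((Icc 1 R).filter (fun n : ℕ => ∀ i ∈ G, (n + x i).Prime)).card : ℝ)

open Classical in
theorem coreR (κ j T M : ℕ) (hj : 1 ≤ j) (hT : 1 ≤ T) (hκ : 18 * M < 5 * (κ * T)) :
    ∃ K : ℕ, 1 ≤ K ∧ ∀ A L : ℕ, ∃ C : ℕ, ∀ η : ℝ, 0 < η → ∀ᶠ N : ℕ in atTop,
      BetR κ j A C N η ∨
      ∀ X : Fin T → Fin K → ℕ, (∀ g i, X g i ≤ L) →
        Function.Injective (fun z : Fin T × Fin K => X z.1 z.2) →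
        (∀ p : ℕ, p.Prime → ∃ r : ℤ, ∀ g i, ¬ ((p : ℤ) ∣ r + X g i)) →
        ∃ (G : Finset (Fin T)) (σ : Fin T → Fin K), M + 1 ≤ j * G.card ∧
          TupG ((A + 1) * N) N η (fun g => X g (σ g)) G := by
  have hκ1 : 1 ≤ κ := by
    rcases Nat.eq_zero_or_pos κ with h | h
    · rw [h] at hκ
      omega
    · exact h
  obtain ⟨K, hK, H⟩ := lamR (κ * T) M (Nat.mul_pos hκ1 hT) (by
    have h2 : (18 : ℝ) * M < 5 * ((κ * T : ℕ) : ℝ) := by exact_mod_cast hκ
    linarith)
  refine ⟨K, hK, fun A L => ?_⟩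
  obtain ⟨B, hB⟩ : ∃ B : ℕ, B = κ * T * K + A := ⟨_, rfl⟩
  obtain ⟨P, hP⟩ : ∃ P : ℕ, P = prim B := ⟨_, rfl⟩
  have hP0 : 0 < P := by rw [hP]; exact prim_pos _
  have hPz : (0 : ℤ) < P := by exact_mod_cast hP0
  refine ⟨P + L, fun η hη => ?_⟩
  filter_upwards [H A η hη, eventually_ge_atTop (16 * (P + L + 1))] with N hN hN1
  by_cases hA : BetR κ j A (P + L) N η
  · exact Or.inl hA
  right
  unfold BetR at hA
  push Not at hA
  obtain ⟨u, v, huv, hpos, hsep, hno⟩ := hA
  intro X hXL hXi hXadm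
  have hex : ∀ p : ℕ, ∃ r : ℤ, p.Prime → ∀ g i, ¬ ((p : ℤ) ∣ r + X g i) := by
    intro p
    by_cases hp : p.Prime
    · obtain ⟨r, hr⟩ := hXadm p hp
      exact ⟨r, fun _ => hr⟩
    · exact ⟨0, fun h => absurd h hp⟩
  choose R hR using hex
  obtain ⟨ρ, hρ⟩ := crtA B R
  have hρX : ∀ p : ℕ, p.Prime → p ≤ B → ∀ g i, ¬ ((p : ℤ) ∣ (ρ : ℤ) + X g i) := by
    intro p hp hpB g i hd
    apply hR p hp g i
    have h1 := dvd_sub hd (hρ p hp hpB)
    have h2 : (ρ : ℤ) + X g i - (ρ - R p) = R p + X g i := by ring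
    rwa [h2] at h1
  -- the places of the clusters
  obtain ⟨c, hc⟩ : ∃ c : Fin κ → ℤ, c = fun s => (ρ - v s) % P := ⟨_, rfl⟩
  have hc0 : ∀ s, 0 ≤ c s := fun s => by rw [hc]; exact Int.emod_nonneg _ hPz.ne'
  have hc1 : ∀ s, c s < P := fun s => by rw [hc]; exact Int.emod_lt_of_pos _ hPz
  have hcP : ∀ s, (P : ℤ) ∣ (v s + c s) - ρ := by
    intro s
    have h1 : (P : ℤ) ∣ (ρ - v s) - (ρ - v s) % P := Int.dvd_self_sub_emod
    have h2 : (v s + c s) - ρ = -((ρ - v s) - (ρ - v s) % P) := by rw [hc]; ring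
    rw [h2]
    exact h1.neg_right
  have hnd : ∀ p : ℕ, p.Prime → p ≤ B → ∀ s g i, ¬ ((p : ℤ) ∣ (v s + c s) + X g i) := by
    intro p hp hpB s g i hd
    apply hρX p hp hpB g i
    have h1 : (p : ℤ) ∣ (v s + c s) - ρ := by
      have : (p : ℤ) ∣ (P : ℤ) := by
        rw [hP]; exact_mod_cast dvd_prim hp hpB
      exact this.trans (hcP s)
    have h2 := dvd_sub hd h1
    have h3 : v s + c s + (X g i : ℤ) - (v s + c s - ρ) = ρ + X g i := by ring
    rwa [h3] at h2
  set cs : Fin (κ * T) → Fin κ := fun l => (finProdFinEquiv.symm l).1 with hcs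
  set ct : Fin (κ * T) → Fin T := fun l => (finProdFinEquiv.symm l).2 with hct
  have hext : ∀ i l, cs i = cs l → ct i = ct l → i = l := by
    intro i l h1 h2
    exact finProdFinEquiv.symm.injective (Prod.ext h1 h2)
  have hNz : (16 : ℤ) * (P + L + 1) ≤ N := by exact_mod_cast hN1
  obtain ⟨S, d, hS, hcnt⟩ := hN (fun l i => (u (cs l), (v (cs l) + c (cs l)) + X (ct l) i)) (by
      rintro ⟨l, i⟩ ⟨l', i'⟩ h
      simp only [Prod.mk.injEq] at h
      have l1 := hXL (ct l) i
      have l2 := hXL (ct l') i'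
      have hs : cs l = cs l' := by
        by_contra hne
        have h1 := hsep _ _ hne h.1
        have e1 := hc0 (cs l)
        have e2 := hc1 (cs l)
        have e3 := hc0 (cs l')
        have e4 := hc1 (cs l')
        have h2 : v (cs l) - v (cs l') = c (cs l') + X (ct l') i' - (c (cs l) + X (ct l) i) := by
          linarith [h.2]
        rw [h2] at h1
        push_cast at h1
        rcases lt_abs.1 h1 with h3 | h3
        · have e5 : (X (ct l') i' : ℤ) ≤ L := by exact_mod_cast l2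
          have e6 : (0 : ℤ) ≤ (X (ct l) i : ℤ) := Nat.cast_nonneg _
          linarith
        · have e5 : (X (ct l) i : ℤ) ≤ L := by exact_mod_cast l1
          have e6 : (0 : ℤ) ≤ (X (ct l') i' : ℤ) := Nat.cast_nonneg _
          linarith
      have h1 : X (ct l) i = X (ct l') i' := by
        have h2 := h.2
        rw [hs] at h2
        have h3 : ((X (ct l) i : ℕ) : ℤ) = ((X (ct l') i' : ℕ) : ℤ) := by linarith
        exact_mod_cast h3
      have h2 := hXi (show (fun z : Fin T × Fin K => X z.1 z.2) (ct l, i) =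
        (fun z : Fin T × Fin K => X z.1 z.2) (ct l', i') from h1)
      rw [Prod.mk.injEq] at h2
      rw [hext l l' hs h2.1, h2.2])
    (by
      intro l i
      obtain ⟨h1, h2, h3⟩ := huv (cs l)
      have e1 := hc0 (cs l)
      have e2 := hc1 (cs l)
      have l1 : ((X (ct l) i : ℕ) : ℤ) ≤ L := by exact_mod_cast hXL (ct l) i
      have l2 : (0 : ℤ) ≤ ((X (ct l) i : ℕ) : ℤ) := Nat.cast_nonneg _
      refine ⟨h1, h2, ?_, ?_, ?_⟩
      · show |v (cs l) + c (cs l) + (X (ct l) i : ℤ)| ≤ N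
        have h4 : |v (cs l) + c (cs l) + (X (ct l) i : ℤ)| ≤ |v (cs l)| + (P + L) := by
          rw [add_assoc]
          refine (abs_add_le _ _).trans ?_
          have h5 : |c (cs l) + (X (ct l) i : ℤ)| ≤ P + L := by
            rw [abs_of_nonneg (by linarith)]
            linarith
          linarith
        linarith
      · -- coprimality
        show IsCoprime (u (cs l)) (v (cs l) + c (cs l) + (X (ct l) i : ℤ))
        rw [Int.isCoprime_iff_gcd_eq_one]
        by_contra hg
        obtain ⟨p, hp, hpd⟩ := Nat.exists_prime_and_dvd hg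
        have hd1 : (p : ℤ) ∣ u (cs l) := (Int.natCast_dvd_natCast.2 hpd).trans (Int.gcd_dvd_left _ _)
        have hd2 : (p : ℤ) ∣ v (cs l) + c (cs l) + (X (ct l) i : ℤ) :=
          (Int.natCast_dvd_natCast.2 hpd).trans (Int.gcd_dvd_right _ _)
        have hpA : p ≤ A := by
          have h4 := Int.le_of_dvd (abs_pos.2 h1) ((dvd_abs _ _).2 hd1)
          have h5 : (p : ℤ) ≤ A := h4.trans h2
          exact_mod_cast h5
        exact hnd p hp (by omega) _ _ _ hd2
      · intro y hy1 hy2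
        have h4 := hpos (cs l) y hy1 (by
          have : (0 : ℝ) ≤ N := Nat.cast_nonneg _
          linarith)
        have h5 : (0 : ℝ) ≤ ((c (cs l) : ℤ) : ℝ) := by exact_mod_cast e1
        have h6 : (0 : ℝ) ≤ ((X (ct l) i : ℕ) : ℝ) := Nat.cast_nonneg _
        push_cast
        linarith)
    (by
      intro p hp hpk
      refine ⟨0, fun l i => ?_⟩
      show ¬ (p : ℤ) ∣ u (cs l) * 0 + (v (cs l) + c (cs l) + (X (ct l) i : ℤ))
      rw [mul_zero, zero_add]
      exact hnd p hp (by omega) _ _ _)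
  -- at most `j` clusters are hit
  have hcl : (S.image cs).card ≤ j := by
    by_contra hgt
    push Not at hgt
    have hex2 : ∀ s : Fin κ, ∃ l : Fin (κ * T), s ∈ S.image cs → l ∈ S ∧ cs l = s := by
      intro s
      by_cases hs : s ∈ S.image cs
      · obtain ⟨l, hl, hls⟩ := mem_image.1 hs
        exact ⟨l, fun _ => ⟨hl, hls⟩⟩
      · exact ⟨⟨0, Nat.mul_pos hκ1 hT⟩, fun h => absurd h hs⟩
    choose ℓ hℓ using hex2
    refine absurd (hcnt.trans ?_) (not_le.2 (hno (S.image cs)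
      (fun s => (c s).toNat + X (ct (ℓ s)) (d (ℓ s))) (by omega) (fun s => ?_)))
    · rw [Nat.cast_le]
      apply card_le_card
      intro n hn
      rw [mem_filter] at hn ⊢
      refine ⟨hn.1, hn.2.1, hn.2.2.1, fun s hs => ?_⟩
      obtain ⟨h1, h2⟩ := hℓ s hs
      have h3 : (u (cs (ℓ s)) * (n : ℤ) +
        (v (cs (ℓ s)) + c (cs (ℓ s)) + (X (ct (ℓ s)) (d (ℓ s)) : ℤ))).toNat.Prime :=
        hn.2.2.2 (ℓ s) h1
      rw [h2] at h3
      have h4 : v s + (((c s).toNat + X (ct (ℓ s)) (d (ℓ s)) : ℕ) : ℤ) =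
          v s + c s + (X (ct (ℓ s)) (d (ℓ s)) : ℤ) := by
        push_cast
        rw [Int.toNat_of_nonneg (hc0 s)]
        ring
      rw [h4]
      exact h3
    · have e1 := hc1 s
      have e2 := hXL (ct (ℓ s)) (d (ℓ s))
      have e3 := hc0 s
      omega
  -- one cluster has many classes which are hit
  obtain ⟨s, hsm⟩ : ∃ s : Fin κ, M + 1 ≤ j * (S.filter (fun l => cs l = s)).card := by
    by_contra hno2
    push Not at hno2
    have h1 : S.card = ∑ s ∈ S.image cs, (S.filter (fun l => cs l = s)).card :=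
      card_eq_sum_card_image cs S
    have h2 : j * S.card ≤ j * M := by
      rw [h1, mul_sum]
      calc ∑ s ∈ S.image cs, j * (S.filter (fun l => cs l = s)).card ≤ ∑ _s ∈ S.image cs, M :=
            sum_le_sum fun s _ => by
              have := hno2 s
              omega
        _ = (S.image cs).card * M := by rw [sum_const, smul_eq_mul]
        _ ≤ j * M := Nat.mul_le_mul_right _ hcl
    have h3 := Nat.le_of_mul_le_mul_left h2 (by omega)
    omega
  obtain ⟨G, hG⟩ : ∃ G : Finset (Fin T), G = univ.filter (fun g => finProdFinEquiv (s, g) ∈ S) := ⟨_, rfl⟩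
  have hGc : (S.filter (fun l => cs l = s)).card ≤ G.card := by
    refine card_le_card_of_injOn ct ?_ ?_
    · intro l hl
      rw [Finset.mem_coe, mem_filter] at hl
      rw [Finset.mem_coe, hG, mem_filter]
      refine ⟨mem_univ _, ?_⟩
      have h1 : finProdFinEquiv (s, ct l) = l := by
        rw [← hl.2]
        exact Equiv.apply_symm_apply finProdFinEquiv l
      rw [h1]
      exact hl.1
    · intro l hl l' hl' h
      rw [Finset.mem_coe, mem_filter] at hl hl'
      exact hext l l' (by rw [hl.2, hl'.2]) h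
  refine ⟨G, fun g => d (finProdFinEquiv (s, g)), hsm.trans (Nat.mul_le_mul_left _ hGc), ?_⟩
  unfold TupG
  refine hcnt.trans ?_
  rw [Nat.cast_le]
  obtain ⟨hu0, huA, hvN⟩ := huv s
  have hposm : ∀ n : ℕ, N ≤ 16 * n → 16 * n ≤ 9 * N → 1 ≤ u s * (n : ℤ) + (v s + c s) := by
    intro n h1 h2
    have h1' : (N : ℝ) ≤ 16 * n := by exact_mod_cast h1
    have h2' : (16 : ℝ) * n ≤ 9 * N := by exact_mod_cast h2
    have h3 := hpos s n (by linarith) (by linarith)
    have hNr : (16 : ℝ) ≤ N := by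
      have : 16 ≤ N := by omega
      exact_mod_cast this
    have h4 : (0 : ℝ) < ((u s * (n : ℤ) + v s : ℤ) : ℝ) := by
      push_cast
      linarith
    have h5 : 0 < u s * (n : ℤ) + v s := by exact_mod_cast h4
    have h6 := hc0 s
    linarith
  refine card_le_card_of_injOn (fun n => (u s * (n : ℤ) + (v s + c s)).toNat) ?_ ?_
  · intro n hn
    obtain ⟨h3, h4, h5, h6⟩ := mem_filter.1 hn
    rw [mem_Icc] at h3
    have h7 := hposm n h4 h5
    rw [Finset.mem_coe, mem_filter, mem_Icc]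
    refine ⟨⟨?_, ?_⟩, ?_⟩
    · show 1 ≤ (u s * (n : ℤ) + (v s + c s)).toNat
      omega
    · show (u s * (n : ℤ) + (v s + c s)).toNat ≤ (A + 1) * N
      have h8 : u s * (n : ℤ) ≤ A * n := by
        have : u s ≤ A := (le_abs_self _).trans huA
        exact mul_le_mul_of_nonneg_right this (Nat.cast_nonneg _)
      have h9 : (A : ℤ) * n ≤ A * N := by
        apply mul_le_mul_of_nonneg_left _ (Nat.cast_nonneg _)
        exact_mod_cast h3.2
      have h10 := le_abs_self (v s)
      have h11 := hc1 s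
      have h12 : u s * (n : ℤ) + (v s + c s) ≤ (((A + 1) * N : ℕ) : ℤ) := by
        push_cast
        linarith
      omega
    · intro g hg
      have h8 : (u (cs (finProdFinEquiv (s, g))) * (n : ℤ) +
        (v (cs (finProdFinEquiv (s, g))) + c (cs (finProdFinEquiv (s, g))) +
          (X (ct (finProdFinEquiv (s, g))) (d (finProdFinEquiv (s, g))) : ℤ))).toNat.Prime :=
        h6 _ (by rw [hG, mem_filter] at hg; exact hg.2)
      have h9 : cs (finProdFinEquiv (s, g)) = s := by rw [hcs]; simp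
      have h10 : ct (finProdFinEquiv (s, g)) = g := by rw [hct]; simp
      rw [h9, h10] at h8
      show ((u s * (n : ℤ) + (v s + c s)).toNat + X g (d (finProdFinEquiv (s, g)))).Prime
      have h11 : (u s * (n : ℤ) + (v s + c s)).toNat + X g (d (finProdFinEquiv (s, g))) =
          (u s * (n : ℤ) + (v s + c s + (X g (d (finProdFinEquiv (s, g))) : ℤ))).toNat := by
        omega
      rw [h11]
      exact h8
  · intro m hm n hn hmn
    obtain ⟨-, h4, h5, -⟩ := mem_filter.1 hm
    obtain ⟨-, h4', h5', -⟩ := mem_filter.1 hn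
    have h7 := hposm m h4 h5
    have h7' := hposm n h4' h5'
    simp only at hmn
    have h8 : u s * (m : ℤ) = u s * (n : ℤ) := by omega
    have h9 := mul_left_cancel₀ hu0 h8
    exact_mod_cast h9


end Pool.Agent.X28.NT
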