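import Mathlib
import Pool.Agent.X28.NT.Gb
import Pool.Agent.X28.NT.Far3

/-! Numbers far from all sums of two primes at the scale `N`. -/

set_option autoImplicit false

namespace Pool.Agent.X28.NT

open Finset Filter Topology
open Pool.Agent.H732R3.DickS

/-- for `18 j < 5 κ` always `j + 1` of `κ` forms are prime at once -/
theorem betU (κ j : ℕ) (hj : 1 ≤ j) (hκ : 18 * j < 5 * κ) (A : ℕ) : ∃ C : ℕ, ∀ η : ℝ, 0 < η →
    ∀ᶠ N : ℕ in atTop, BetR κ j A C N η := by
  obtain ⟨K, hK, H⟩ := coreR κ j 1 j hj (by norm_num) (by omega)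
  obtain ⟨C, H⟩ := H A (K * K.factorial)
  refine ⟨C, fun η hη => ?_⟩
  filter_upwards [H η hη] with N hN
  rcases hN with h | h
  · exact h
  exfalso
  have hf : 0 < K.factorial := Nat.factorial_pos _
  obtain ⟨G, σ, hG, -⟩ := h (fun _ i => i * K.factorial) (fun _ i => Nat.mul_le_mul_right _ i.2.le) (by
    rintro ⟨g, i⟩ ⟨g', i'⟩ h
    simp only at h
    have h1 := Nat.eq_of_mul_eq_mul_right hf h
    have h2 : g = g' := Subsingleton.elim _ _
    rw [h2, Fin.ext h1]) (by
    intro p hp
    by_cases hpK : p ≤ K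
    · refine ⟨1, fun g i hd => ?_⟩
      have h1 : (p : ℤ) ∣ ((i * K.factorial : ℕ) : ℤ) := by
        exact_mod_cast (hp.dvd_factorial.2 hpK).mul_left _
      have h2 : (p : ℤ) ∣ 1 := (dvd_add_left h1).1 hd
      have h3 : p ∣ 1 := by exact_mod_cast h2
      exact hp.one_lt.ne' (Nat.dvd_one.1 h3)
    · push Not at hpK
      obtain ⟨z, hz⟩ := exists_avoid (ι := Fin K) hp (by rw [Fintype.card_fin]; omega)
        (fun _ => (1 : ℤ)) (fun i => ((i * K.factorial : ℕ) : ℤ)) (fun w hw => by
          exfalso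
          have h1 : p ∣ 1 := by exact_mod_cast hw
          exact hp.one_lt.ne' (Nat.dvd_one.1 h1))
      refine ⟨z, fun g i => ?_⟩
      have := hz i
      rwa [one_mul] at this)
  have h1 : G.card ≤ 1 := by
    have := card_le_univ G
    rwa [Fintype.card_fin] at this
  have h2 : j * G.card ≤ j * 1 := Nat.mul_le_mul_left _ h1
  omega

open Classical in
/-- `m` is a sum of two primes greater than `N / 24` in at least `N ^ (1 - η)` ways -/
def GolS (N : ℕ) (η : ℝ) (m : ℕ) : Prop :=
  (N : ℝ) ^ (1 - η) ≤ (((Icc 1 m).filter (fun p : ℕ => p.Prime ∧ (m - p).Prime ∧ N ≤ 24 * p ∧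
    N ≤ 24 * (m - p))).card : ℝ)

/-- no sum of two primes within distance `C` -/
def Exc (C N : ℕ) (η : ℝ) (m : ℕ) : Prop :=
  29 * N ≤ 48 * m ∧ 16 * m ≤ 15 * N ∧ ∀ m' : ℕ, m' ≤ m + C → m ≤ m' + C → ¬ GolS N η m'

open Classical in
theorem gb (r C N : ℕ) (η : ℝ) (hB : BetR (r + 1) 1 1 C N η) (hN : 16 * (C + 1) ≤ N) (m : Fin r → ℕ)
    (h1 : ∀ i, 29 * N ≤ 48 * m i ∧ 16 * m i ≤ 15 * N)
    (h2 : ∀ i j, i ≠ j → m i + C < m j ∨ m j + C < m i) :
    (∃ i, ∃ m' : ℕ, m' ≤ m i + 2 * C ∧ m i ≤ m' + 2 * C ∧ GolS N η m') ∨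
    ∃ i j, m i + C < m j ∧ ∃ d : ℕ, m j ≤ m i + d + C ∧ m i + d ≤ m j + C ∧ DifS N η d := by
  have hNz : (16 : ℤ) * (C + 1) ≤ N := by exact_mod_cast hN
  obtain ⟨S, e, hS, he, hc⟩ := hB (Fin.cons 1 (fun _ => -1)) (Fin.cons 0 (fun i => (m i : ℤ))) (by
    intro s
    refine Fin.cases ?_ (fun i => ?_) s
    · simp
    · rw [Fin.cons_succ, Fin.cons_succ]
      refine ⟨by norm_num, by norm_num, ?_⟩
      rw [abs_of_nonneg (Nat.cast_nonneg _)]
      exact_mod_cast (h1 i).2) (by
    intro s y hy1 hy2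
    have hN0 : (0 : ℝ) ≤ N := Nat.cast_nonneg _
    refine Fin.cases ?_ (fun i => ?_) s
    · rw [Fin.cons_zero, Fin.cons_zero]
      push_cast
      linarith
    · rw [Fin.cons_succ, Fin.cons_succ]
      have h3 : (29 : ℝ) * N ≤ 48 * m i := by exact_mod_cast (h1 i).1
      push_cast
      linarith) (by
    intro s s'
    refine Fin.cases ?_ (fun i => ?_) s
    · refine Fin.cases ?_ (fun i' => ?_) s'
      · intro h; exact absurd rfl h
      · intro _ h
        rw [Fin.cons_zero, Fin.cons_succ] at h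
        norm_num at h
    · refine Fin.cases ?_ (fun i' => ?_) s'
      · intro _ h
        rw [Fin.cons_zero, Fin.cons_succ] at h
        norm_num at h
      · intro h _
        rw [Fin.cons_succ, Fin.cons_succ, lt_abs]
        have h3 : i ≠ i' := fun hh => h (by rw [hh])
        rcases h2 i i' h3 with h4 | h4
        · right
          have : (m i : ℤ) + C < m i' := by exact_mod_cast h4
          linarith
        · left
          have : (m i' : ℤ) + C < m i := by exact_mod_cast h4
          linarith)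
  obtain ⟨s, hs, s', hs', hne⟩ := one_lt_card.1 (show 1 < S.card by omega)
  -- the two kinds of pairs
  have key1 : ∀ i : Fin r, (0 : Fin (r + 1)) ∈ S → i.succ ∈ S →
      ∃ m' : ℕ, m' ≤ m i + 2 * C ∧ m i ≤ m' + 2 * C ∧ GolS N η m' := by
    intro i h0 hi
    have e0 := he 0
    have ei := he i.succ
    refine ⟨m i + e 0 + e i.succ, by omega, by omega, ?_⟩
    unfold GolS
    refine hc.trans ?_
    rw [Nat.cast_le]
    refine card_le_card_of_injOn (fun n => n + e 0) ?_ ?_
    · intro n hn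
      obtain ⟨g1, g2, g3, g4⟩ := mem_filter.1 hn
      rw [mem_Icc] at g1
      have p0 := g4 0 h0
      have pi := g4 i.succ hi
      rw [Fin.cons_zero, Fin.cons_zero] at p0
      rw [Fin.cons_succ, Fin.cons_succ] at pi
      have h3 := (h1 i).1
      have q0 : (1 * (n : ℤ) + (0 + (e 0 : ℤ))).toNat = n + e 0 := by omega
      have qi : (-1 * (n : ℤ) + ((m i : ℤ) + (e i.succ : ℤ))).toNat = m i + e i.succ - n := by omega
      rw [q0] at p0
      rw [qi] at pi
      rw [Finset.mem_coe, mem_filter, mem_Icc]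
      have h5 : m i + e 0 + e i.succ - (n + e 0) = m i + e i.succ - n := by omega
      refine ⟨⟨?_, ?_⟩, p0, ?_, ?_, ?_⟩
      · show 1 ≤ n + e 0
        omega
      · show n + e 0 ≤ m i + e 0 + e i.succ
        omega
      · show (m i + e 0 + e i.succ - (n + e 0)).Prime
        rw [h5]
        exact pi
      · show N ≤ 24 * (n + e 0)
        omega
      · show N ≤ 24 * (m i + e 0 + e i.succ - (n + e 0))
        omega
    · intro a _ b _ hab
      exact Nat.add_right_cancel hab
  have key2 : ∀ i j : Fin r, i.succ ∈ S → j.succ ∈ S → m i + C < m j →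
      ∃ i j, m i + C < m j ∧ ∃ d : ℕ, m j ≤ m i + d + C ∧ m i + d ≤ m j + C ∧ DifS N η d := by
    intro i j hi hj hij
    have ei := he i.succ
    have ej := he j.succ
    refine ⟨i, j, hij, m j + e j.succ - (m i + e i.succ), by omega, by omega, ?_⟩
    unfold DifS
    refine hc.trans ?_
    rw [Nat.cast_le]
    refine card_le_card_of_injOn (fun n => m i + e i.succ - n) ?_ ?_
    · intro n hn
      obtain ⟨g1, g2, g3, g4⟩ := mem_filter.1 hn
      rw [mem_Icc] at g1
      have pi := g4 i.succ hi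
      have pj := g4 j.succ hj
      rw [Fin.cons_succ, Fin.cons_succ] at pi pj
      have h3 := h1 i
      have h4 := h1 j
      have qi : (-1 * (n : ℤ) + ((m i : ℤ) + (e i.succ : ℤ))).toNat = m i + e i.succ - n := by omega
      have qj : (-1 * (n : ℤ) + ((m j : ℤ) + (e j.succ : ℤ))).toNat = m j + e j.succ - n := by omega
      rw [qi] at pi
      rw [qj] at pj
      rw [Finset.mem_coe, mem_filter, mem_Icc]
      have h5 : m i + e i.succ - n + (m j + e j.succ - (m i + e i.succ)) = m j + e j.succ - n := by omega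
      refine ⟨⟨?_, ?_⟩, pi, ?_⟩
      · show 1 ≤ m i + e i.succ - n
        omega
      · show m i + e i.succ - n ≤ 2 * N
        omega
      · show (m i + e i.succ - n + (m j + e j.succ - (m i + e i.succ))).Prime
        rw [h5]
        exact pj
    · intro a ha b hb hab
      obtain ⟨g1, g2, g3, g4⟩ := mem_filter.1 ha
      obtain ⟨g1', g2', g3', g4'⟩ := mem_filter.1 hb
      have h3 := (h1 i).1
      simp only at hab
      omega
  revert hs hs' hne
  refine Fin.cases ?_ (fun i => ?_) s
  · refine Fin.cases ?_ (fun i' => ?_) s'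
    · intro _ _ h; exact absurd rfl h
    · intro h0 hi _
      exact Or.inl ⟨i', key1 i' h0 hi⟩
  · refine Fin.cases ?_ (fun i' => ?_) s'
    · intro hi h0 _
      exact Or.inl ⟨i, key1 i h0 hi⟩
    · intro hi hi' hne
      have h3 : i ≠ i' := fun hh => hne (by rw [hh])
      rcases h2 i i' h3 with h4 | h4
      · exact Or.inr (key2 i i' hi hi' h4)
      · exact Or.inr (key2 i' i hi' hi h4)

end Pool.Agent.X28.NT
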