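import Mathlib
import Pool.Agent.X28.NT.GbW

/-! Numbers far from all sums of two primes at the scale `N`: the dichotomy. -/

set_option autoImplicit false

namespace Pool.Agent.X28.NT

open Finset Filter Topology

theorem Exc.mono {C C' N : ℕ} {η : ℝ} {m : ℕ} (h : Exc C' N η m) (hC : C ≤ C') : Exc C N η m :=
  ⟨h.1, h.2.1, fun m' h1 h2 => h.2.2 m' (by omega) (by omega)⟩

/-- no two forms at once, from two exceptional numbers -/
theorem not_bet {C N : ℕ} {η : ℝ} (hN : 16 * (C + 1) ≤ N) {m m' : ℕ} (hm : m + C < m')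
    (h1 : Exc (2 * C) N η m) (h2 : Exc (2 * C) N η m')
    (h3 : ∀ d : ℕ, m' ≤ m + d + C → m + d ≤ m' + C → ¬ DifS N η d) : ¬ BetR 3 1 1 C N η := by
  intro hB
  have h := gb 2 C N η hB hN (fun i => if i = 0 then m else m') (by
    intro i
    have hi : i = 0 ∨ i = 1 := by omega
    rcases hi with rfl | rfl
    · exact ⟨h1.1, h1.2.1⟩
    · exact ⟨h2.1, h2.2.1⟩) (by
    intro i j hij
    have hi : i = 0 ∨ i = 1 := by omega
    have hj : j = 0 ∨ j = 1 := by omega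
    rcases hi with rfl | rfl <;> rcases hj with rfl | rfl
    · exact absurd rfl hij
    · exact Or.inl hm
    · exact Or.inr hm
    · exact absurd rfl hij)
  rcases h with ⟨i, m'', e1, e2, e3⟩ | ⟨i, j, e1, d, e2, e3, e4⟩
  · have hi : i = 0 ∨ i = 1 := by omega
    rcases hi with rfl | rfl
    · exact h1.2.2 m'' e1 e2 e3
    · exact h2.2.2 m'' e1 e2 e3
  · have hi : i = 0 ∨ i = 1 := by omega
    have hj : j = 0 ∨ j = 1 := by omega
    rcases hi with rfl | rfl <;> rcases hj with rfl | rfl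
    · simp only [if_true] at e1
      omega
    · exact h3 d e2 e3 e4
    · simp only [if_true, one_ne_zero, if_false] at e1
      omega
    · simp only [one_ne_zero, if_false] at e1
      omega

open Classical in
theorem mainB : ∃ K₀ : ℕ, 1 ≤ K₀ ∧ ∀ T M : ℕ, 1 ≤ T → 6 * M < 5 * T → ∃ K : ℕ, 1 ≤ K ∧
    ∀ L : ℕ, ∃ C : ℕ, ∀ η : ℝ, 0 < η → ∀ᶠ N : ℕ in atTop,
      (∀ m₁ m₂ m₃ : ℕ, m₁ + C < m₂ → m₂ + C < m₃ → Exc C N η m₁ → Exc C N η m₂ → Exc C N η m₃ →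
        ∃ d : ℕ, DifS N η d ∧ ((m₂ ≤ m₁ + d + C ∧ m₁ + d ≤ m₂ + C) ∨ (m₃ ≤ m₂ + d + C ∧ m₂ + d ≤ m₃ + C) ∨
          (m₃ ≤ m₁ + d + C ∧ m₁ + d ≤ m₃ + C))) ∧
      ((∀ m₁ m₂ : ℕ, m₁ + C < m₂ → Exc C N η m₁ → Exc C N η m₂ →
        ∃ d : ℕ, DifS N η d ∧ m₂ ≤ m₁ + d + C ∧ m₁ + d ≤ m₂ + C) ∨
      ((∀ w H : ℕ, 1 ≤ H → w + H ≤ L →
        (((Fintype.piFinset (fun _ : Fin 5 => Ioc w (w + H))).filter
          (fun x => Function.Injective x ∧ Adm x ∧ ¬ Tup N η x)).card : ℝ) ≤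
          K₀ * (H : ℝ) ^ ((5 : ℝ) - 1 / (K₀ : ℝ))) ∧
      (∀ X : Fin T → Fin K → ℕ, (∀ g i, X g i ≤ L) →
        Function.Injective (fun z : Fin T × Fin K => X z.1 z.2) →
        (∀ p : ℕ, p.Prime → ∃ r : ℤ, ∀ g i, ¬ ((p : ℤ) ∣ r + X g i)) →
        ∃ (S : Finset (Fin T)) (σ : Fin T → Fin K), M + 1 ≤ S.card ∧
          (N : ℝ) ^ (1 - η) ≤ (((Icc 1 (2 * N)).filter (fun n : ℕ =>
            ∀ g ∈ S, (n + X g (σ g)).Prime)).card : ℝ)))) := by
  obtain ⟨K, hK, H5⟩ := coreR 3 1 5 4 (by norm_num) (by norm_num) (by norm_num)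
  obtain ⟨Q, hQ⟩ : ∃ Q : ℕ, Q = ((4 + 1) * (K + 1)).factorial ^ (4 + 1) * (8 * (K + 1)) := ⟨_, rfl⟩
  have hQ1 : 1 ≤ Q := by
    rw [hQ]
    exact Nat.mul_pos (pow_pos (Nat.factorial_pos _) _) (by omega)
  refine ⟨Q + (K + 1) ^ 4, by omega, fun T M hT hTM => ?_⟩
  obtain ⟨K', hK', H3⟩ := coreR 3 1 T M (by norm_num) hT (by omega)
  refine ⟨K', hK', fun L => ?_⟩
  obtain ⟨C₁, H4⟩ := betU 4 1 (by norm_num) (by norm_num) 1
  obtain ⟨C₂, H5⟩ := H5 1 L
  obtain ⟨C₃, H3⟩ := H3 1 L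
  refine ⟨2 * (C₁ + C₂ + C₃), fun η hη => ?_⟩
  filter_upwards [H4 η hη, H5 η hη, H3 η hη, eventually_ge_atTop (16 * (C₁ + C₂ + C₃ + 1))] with N h4 h5 h3 hN
  refine ⟨?_, ?_⟩
  · intro m₁ m₂ m₃ hm1 hm2 e1 e2 e3
    have h := gb 3 C₁ N η h4 (by omega) (fun i => if i = 0 then m₁ else if i = 1 then m₂ else m₃) (by
      intro i
      have hi : i = 0 ∨ i = 1 ∨ i = 2 := by omega
      rcases hi with rfl | rfl | rfl
      · exact ⟨e1.1, e1.2.1⟩
      · exact ⟨e2.1, e2.2.1⟩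
      · exact ⟨e3.1, e3.2.1⟩) (by
      intro i j hij
      have hi : i = 0 ∨ i = 1 ∨ i = 2 := by omega
      have hj : j = 0 ∨ j = 1 ∨ j = 2 := by omega
      rcases hi with rfl | rfl | rfl <;> rcases hj with rfl | rfl | rfl
      · exact absurd rfl hij
      · left; show m₁ + C₁ < m₂; omega
      · left; show m₁ + C₁ < m₃; omega
      · right; show m₁ + C₁ < m₂; omega
      · exact absurd rfl hij
      · left; show m₂ + C₁ < m₃; omega
      · right; show m₁ + C₁ < m₃; omega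
      · right; show m₂ + C₁ < m₃; omega
      · exact absurd rfl hij)
    rcases h with ⟨i, m'', g1, g2, g3⟩ | ⟨i, j, g1, d, g2, g3, g4⟩
    · exfalso
      have hi : i = 0 ∨ i = 1 ∨ i = 2 := by omega
      rcases hi with rfl | rfl | rfl
      · have g1' : m'' ≤ m₁ + 2 * C₁ := g1
        have g2' : m₁ ≤ m'' + 2 * C₁ := g2
        exact e1.2.2 m'' (by omega) (by omega) g3
      · have g1' : m'' ≤ m₂ + 2 * C₁ := g1
        have g2' : m₂ ≤ m'' + 2 * C₁ := g2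
        exact e2.2.2 m'' (by omega) (by omega) g3
      · have g1' : m'' ≤ m₃ + 2 * C₁ := g1
        have g2' : m₃ ≤ m'' + 2 * C₁ := g2
        exact e3.2.2 m'' (by omega) (by omega) g3
    · refine ⟨d, g4, ?_⟩
      have hi : i = 0 ∨ i = 1 ∨ i = 2 := by omega
      have hj : j = 0 ∨ j = 1 ∨ j = 2 := by omega
      rcases hi with rfl | rfl | rfl <;> rcases hj with rfl | rfl | rfl
      · have g1' : m₁ + C₁ < m₁ := g1
        omega
      · have g2' : m₂ ≤ m₁ + d + C₁ := g2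
        have g3' : m₁ + d ≤ m₂ + C₁ := g3
        left; constructor <;> omega
      · have g2' : m₃ ≤ m₁ + d + C₁ := g2
        have g3' : m₁ + d ≤ m₃ + C₁ := g3
        right; right; constructor <;> omega
      · have g1' : m₂ + C₁ < m₁ := g1
        omega
      · have g1' : m₂ + C₁ < m₂ := g1
        omega
      · have g2' : m₃ ≤ m₂ + d + C₁ := g2
        have g3' : m₂ + d ≤ m₃ + C₁ := g3
        right; left; constructor <;> omega
      · have g1' : m₃ + C₁ < m₁ := g1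
        omega
      · have g1' : m₃ + C₁ < m₂ := g1
        omega
      · have g1' : m₃ + C₁ < m₃ := g1
        omega
  by_cases hA : ∀ m₁ m₂ : ℕ, m₁ + 2 * (C₁ + C₂ + C₃) < m₂ → Exc (2 * (C₁ + C₂ + C₃)) N η m₁ →
      Exc (2 * (C₁ + C₂ + C₃)) N η m₂ → ∃ d : ℕ, DifS N η d ∧ m₂ ≤ m₁ + d + 2 * (C₁ + C₂ + C₃) ∧
        m₁ + d ≤ m₂ + 2 * (C₁ + C₂ + C₃)
  · exact Or.inl hA
  right
  push Not at hA
  obtain ⟨m₁, m₂, hm, e1, e2, e3⟩ := hA
  have hn2 : ¬ BetR 3 1 1 C₂ N η := not_bet (by omega) (m := m₁) (m' := m₂) (by omega) (e1.mono (by omega))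
    (e2.mono (by omega)) (fun d g1 g2 g3 => by
      have := e3 d g3 (by omega)
      omega)
  have hn3 : ¬ BetR 3 1 1 C₃ N η := not_bet (by omega) (m := m₁) (m' := m₂) (by omega) (e1.mono (by omega))
    (e2.mono (by omega)) (fun d g1 g2 g3 => by
      have := e3 d g3 (by omega)
      omega)
  have h5' := h5.resolve_left hn2
  have h3' := h3.resolve_left hn3
  refine ⟨?_, ?_⟩
  · intro w W hW hwW
    have h1 := densQ 4 K L (Tup N η) (by
      intro X hX1 hX2 hX3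
      obtain ⟨G, σ, hG, hc⟩ := h5' X hX1 hX2 hX3
      have hGu : G = univ := by
        apply eq_univ_of_card
        have := card_le_univ G
        rw [Fintype.card_fin] at this ⊢
        omega
      refine ⟨σ, ?_⟩
      unfold TupG at hc
      unfold Tup
      rw [hGu] at hc
      simpa using hc) w W hW hwW
    refine h1.trans ?_
    have hW1 : (1 : ℝ) ≤ W := by exact_mod_cast hW
    rw [← hQ]
    have e5 : (Q : ℝ) ≤ ((Q + (K + 1) ^ 4 : ℕ) : ℝ) := by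
      rw [Nat.cast_le]
      omega
    refine mul_le_mul e5 ?_ (by positivity) (by positivity)
    apply Real.rpow_le_rpow_of_exponent_le hW1
    have e6 : (((K + 1 : ℕ) : ℝ)) ^ 4 ≤ ((Q + (K + 1) ^ 4 : ℕ) : ℝ) := by
      push_cast
      have : (0 : ℝ) ≤ Q := Nat.cast_nonneg _
      linarith
    have e7 : (0 : ℝ) < ((K + 1 : ℕ) : ℝ) ^ 4 := by positivity
    have e8 := one_div_le_one_div_of_le e7 e6
    have e9 : ((4 : ℕ) : ℝ) + 1 = 5 := by norm_num
    rw [e9]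
    linarith
  · intro X hX1 hX2 hX3
    obtain ⟨G, σ, hG, hc⟩ := h3' X hX1 hX2 hX3
    exact ⟨G, σ, by omega, hc⟩

end Pool.Agent.X28.NT
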